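import Pool.Agent.Lib.MP_dee884_lc.Defs

/-!
# Combinators for Turing machines
-/

set_option autoImplicit false

namespace Pool.Agent.Lin

section basic

theorem wm_stay {Γ : Type} (t : Tp Γ) : wm t (t 0) Dir.stay = t := by
  funext i
  unfold wm Dir.toInt
  by_cases h : i = 0
  · simp [h]
  · simp [h]

/-- the tape with the word `w`, the head is at the cell `h` of the word -/
def tp {Γ : Type} (w : List Γ) (h : ℤ) : Tp Γ := fun i => tapeOf w (i + h)

theorem tp_zero {Γ : Type} (w : List Γ) : tp w 0 = tapeOf w := by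
  funext i
  simp [tp]

theorem tp_head {Γ : Type} (w : List Γ) (h : ℕ) : tp w h 0 = w[h]? := by
  simp [tp, tapeOf]

theorem tp_head_neg {Γ : Type} (w : List Γ) : tp w (-1) 0 = none := by
  simp [tp, tapeOf]

theorem tp_right {Γ : Type} (w : List Γ) (h : ℤ) : wm (tp w h) (tp w h 0) Dir.right = tp w (h + 1) := by
  funext i
  unfold wm Dir.toInt tp
  by_cases h1 : i + 1 = 0
  · have h2 : i = -1 := by omega
    simp [h2]
  · simp only [h1, if_false]
    congr 1
    ring

theorem tp_left {Γ : Type} (w : List Γ) (h : ℤ) : wm (tp w h) (tp w h 0) Dir.left = tp w (h - 1) := by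
  funext i
  unfold wm Dir.toInt tp
  by_cases h1 : i + -1 = 0
  · have h2 : i = 1 := by omega
    simp [h2]
  · simp only [h1, if_false]
    congr 1
    ring

theorem tp_write {Γ : Type} (w : List Γ) (g : Γ) :
    wm (tp w w.length) (some g) Dir.right = tp (w ++ [g]) (w ++ [g]).length := by
  funext i
  unfold wm Dir.toInt tp tapeOf
  rw [List.length_append, List.length_singleton]
  by_cases h1 : i + 1 = 0
  · have h2 : i = -1 := by omega
    subst h2
    simp
  · simp only [h1, if_false]
    by_cases h3 : 0 ≤ i + ((w.length + 1 : ℕ) : ℤ)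
    · have h4 : 0 ≤ i + 1 + (w.length : ℤ) := by push_cast at h3; omega
      rw [if_pos h4, if_pos h3]
      have h5 : (i + ((w.length + 1 : ℕ) : ℤ)).toNat = (i + 1 + (w.length : ℤ)).toNat := by
        congr 1
        push_cast
        ring
      rw [h5]
      rcases lt_or_ge (i + 1 + (w.length : ℤ)).toNat w.length with h6 | h6
      · rw [List.getElem?_append_left h6]
      · have h7 : w.length + 1 ≤ (i + 1 + (w.length : ℤ)).toNat := by omega
        rw [List.getElem?_eq_none h6, List.getElem?_eq_none (by simpa using h7)]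
    · have h4 : ¬ 0 ≤ i + 1 + (w.length : ℤ) := by push_cast at h3; omega
      rw [if_neg h4, if_neg h3]

end basic

variable {K : Type} {Γ : K → Type}

theorem inp_self (k0 : K) (w : List (Γ k0)) : inp k0 w k0 = tapeOf w := by
  classical
  unfold inp
  rw [Function.update_self]

theorem inp_ne (k0 : K) (w : List (Γ k0)) (k : K) (h : k ≠ k0) : inp k0 w k = tapeOf [] := by
  classical
  unfold inp
  rw [Function.update_of_ne h]

theorem Steps.trans {M : TM K Γ} {n m : ℕ} {c c' c'' : M.S × ((k : K) → Tp (Γ k))}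
    (h1 : Steps M n c c') (h2 : Steps M m c' c'') : Steps M (n + m) c c'' := by
  induction h1 with
  | zero c => simpa using h2
  | succ n c c' ho _ ih =>
    have h3 := ih h2
    have h4 : n + 1 + m = (n + m) + 1 := by ring
    rw [h4]
    exact Steps.succ _ _ _ ho h3

theorem Steps.one {M : TM K Γ} {c c' : M.S × ((k : K) → Tp (Γ k))} (h1 : M.out c.1 = none)
    (h2 : M.next c = c') : Steps M 1 c c' := by
  subst h2
  exact Steps.succ 0 _ _ h1 (Steps.zero _)

/-- Run `M`, then the machine `N b`, where `b` is the answer of `M`. -/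
def TM.bind (M : TM K Γ) (N : Bool → TM K Γ) : TM K Γ where
  S := M.S ⊕ (Σ b, (N b).S)
  fin := by
    have := M.fin
    have := fun b => (N b).fin
    infer_instance
  start := Sum.inl M.start
  out := fun q => match q with
    | Sum.inl _ => none
    | Sum.inr q => (N q.1).out q.2
  step := fun q v => match q with
    | Sum.inl q => match M.out q with
      | some b => (Sum.inr ⟨b, (N b).start⟩, fun k => (v k, Dir.stay))
      | none => (Sum.inl (M.step q v).1, (M.step q v).2)
    | Sum.inr q => (Sum.inr ⟨q.1, ((N q.1).step q.2 v).1⟩, ((N q.1).step q.2 v).2)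

theorem bind_left {M : TM K Γ} {N : Bool → TM K Γ} {n : ℕ} {c c' : M.S × ((k : K) → Tp (Γ k))}
    (h : Steps M n c c') : Steps (M.bind N) n (Sum.inl c.1, c.2) (Sum.inl c'.1, c'.2) := by
  induction h with
  | zero c => exact Steps.zero _
  | succ n c c' ho _ ih =>
    refine Steps.succ n _ _ rfl ?_
    have h1 : (M.bind N).next (Sum.inl c.1, c.2) = (Sum.inl (M.next c).1, (M.next c).2) := by
      simp only [TM.next, TM.bind, ho]
    rw [h1]
    exact ih

theorem bind_right {M : TM K Γ} {N : Bool → TM K Γ} {b : Bool} {n : ℕ}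
    {c c' : (N b).S × ((k : K) → Tp (Γ k))} (h : Steps (N b) n c c') :
    Steps (M.bind N) n (Sum.inr ⟨b, c.1⟩, c.2) (Sum.inr ⟨b, c'.1⟩, c'.2) := by
  induction h with
  | zero c => exact Steps.zero _
  | succ n c c' ho _ ih =>
    refine Steps.succ n _ _ ho ?_
    exact ih

theorem Runs.bind {M : TM K Γ} {N : Bool → TM K Γ} {τ τ' τ'' : (k : K) → Tp (Γ k)} {n m : ℕ} {b b' : Bool}
    (h1 : Runs M τ n τ' b) (h2 : Runs (N b) τ' m τ'' b') : Runs (M.bind N) τ (n + 1 + m) τ'' b' := by
  obtain ⟨q, hq, ho⟩ := h1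
  obtain ⟨q', hq', ho'⟩ := h2
  refine ⟨Sum.inr ⟨b, q'⟩, ?_, ho'⟩
  refine ((bind_left hq).trans (Steps.one rfl ?_)).trans (bind_right hq')
  simp only [TM.next, TM.bind, ho]
  congr 1
  funext k
  exact wm_stay _

/-- The machine which halts at once with the answer `b`. -/
def ret (b : Bool) : TM K Γ where
  S := Unit
  fin := inferInstance
  start := ()
  out := fun _ => some b
  step := fun _ v => ((), fun k => (v k, Dir.stay))

theorem runs_ret (τ : (k : K) → Tp (Γ k)) (b : Bool) : Runs (ret b) τ 0 τ b :=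
  ⟨(), Steps.zero _, rfl⟩

section lift

variable {K₁ K₂ : Type} {Γ₁ : K₁ → Type} {Γ₂ : K₂ → Type}

/-- tapes of a machine with the tapes `K₁ ⊕ K₂` -/
def joinT (τ₁ : (k : K₁) → Tp (Γ₁ k)) (τ₂ : (k : K₂) → Tp (Γ₂ k)) :
    (k : K₁ ⊕ K₂) → Tp (Sum.elim Γ₁ Γ₂ k)
  | Sum.inl k => τ₁ k
  | Sum.inr k => τ₂ k

/-- A machine which works on the left tapes. -/
def TM.liftL (M : TM K₁ Γ₁) : TM (K₁ ⊕ K₂) (Sum.elim Γ₁ Γ₂) where
  S := M.S
  fin := M.fin
  start := M.start
  out := M.out
  step := fun q v => ((M.step q fun k => v (Sum.inl k)).1, fun k => match k with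
    | Sum.inl k => (M.step q fun k => v (Sum.inl k)).2 k
    | Sum.inr k => (v (Sum.inr k), Dir.stay))

/-- A machine which works on the right tapes. -/
def TM.liftR (M : TM K₂ Γ₂) : TM (K₁ ⊕ K₂) (Sum.elim Γ₁ Γ₂) where
  S := M.S
  fin := M.fin
  start := M.start
  out := M.out
  step := fun q v => ((M.step q fun k => v (Sum.inr k)).1, fun k => match k with
    | Sum.inl k => (v (Sum.inl k), Dir.stay)
    | Sum.inr k => (M.step q fun k => v (Sum.inr k)).2 k)

theorem liftL_steps {M : TM K₁ Γ₁} {n : ℕ} {c c' : M.S × ((k : K₁) → Tp (Γ₁ k))} (h : Steps M n c c')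
    (τ₂ : (k : K₂) → Tp (Γ₂ k)) :
    Steps (M.liftL (Γ₂ := Γ₂)) n (c.1, joinT c.2 τ₂) (c'.1, joinT c'.2 τ₂) := by
  induction h with
  | zero c => exact Steps.zero _
  | succ n c c' ho _ ih =>
    refine Steps.succ n _ _ ho ?_
    have h1 : (M.liftL (Γ₂ := Γ₂)).next (c.1, joinT c.2 τ₂) = ((M.next c).1, joinT (M.next c).2 τ₂) := by
      refine Prod.ext rfl ?_
      funext k
      rcases k with k | k
      · rfl
      · exact wm_stay _
    rw [h1]
    exact ih

theorem liftR_steps {M : TM K₂ Γ₂} {n : ℕ} {c c' : M.S × ((k : K₂) → Tp (Γ₂ k))} (h : Steps M n c c')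
    (τ₁ : (k : K₁) → Tp (Γ₁ k)) :
    Steps (M.liftR (Γ₁ := Γ₁)) n (c.1, joinT τ₁ c.2) (c'.1, joinT τ₁ c'.2) := by
  induction h with
  | zero c => exact Steps.zero _
  | succ n c c' ho _ ih =>
    refine Steps.succ n _ _ ho ?_
    have h1 : (M.liftR (Γ₁ := Γ₁)).next (c.1, joinT τ₁ c.2) = ((M.next c).1, joinT τ₁ (M.next c).2) := by
      refine Prod.ext rfl ?_
      funext k
      rcases k with k | k
      · exact wm_stay _
      · rfl
    rw [h1]
    exact ih

theorem Runs.liftL {M : TM K₁ Γ₁} {τ τ' : (k : K₁) → Tp (Γ₁ k)} {n : ℕ} {b : Bool} (h : Runs M τ n τ' b)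
    (τ₂ : (k : K₂) → Tp (Γ₂ k)) : Runs (M.liftL (Γ₂ := Γ₂)) (joinT τ τ₂) n (joinT τ' τ₂) b := by
  obtain ⟨q, hq, ho⟩ := h
  exact ⟨q, liftL_steps hq τ₂, ho⟩

theorem Runs.liftR {M : TM K₂ Γ₂} {τ τ' : (k : K₂) → Tp (Γ₂ k)} {n : ℕ} {b : Bool} (h : Runs M τ n τ' b)
    (τ₁ : (k : K₁) → Tp (Γ₁ k)) : Runs (M.liftR (Γ₁ := Γ₁)) (joinT τ₁ τ) n (joinT τ₁ τ') b := by
  obtain ⟨q, hq, ho⟩ := h
  exact ⟨q, liftR_steps hq τ₁, ho⟩

end lift

section rew

open Classical in
/-- Move the head of the tape `k0` to the left to the first blank, then one step to the right. -/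
noncomputable def rew (k0 : K) : TM K Γ where
  S := Fin 3
  fin := inferInstance
  start := 0
  out := fun q => if q = 2 then some true else none
  step := fun q v =>
    if q = 0 then (1, fun k => (v k, if k = k0 then Dir.left else Dir.stay))
    else if (v k0).isSome then (1, fun k => (v k, if k = k0 then Dir.left else Dir.stay))
    else (2, fun k => (v k, if k = k0 then Dir.right else Dir.stay))

open Classical in
theorem next_upd (τ : (k : K) → Tp (Γ k)) (k0 : K) (t : Tp (Γ k0)) (d : Dir) :
    (fun k => wm (Function.update τ k0 t k) (Function.update τ k0 t k 0) (if k = k0 then d else Dir.stay)) =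
      Function.update τ k0 (wm t (t 0) d) := by
  funext k
  by_cases h : k = k0
  · subst h
    simp
  · rw [Function.update_of_ne h, Function.update_of_ne h, if_neg h]
    exact wm_stay _

open Classical in
theorem rew_aux (τ : (k : K) → Tp (Γ k)) (k0 : K) (w : List (Γ k0)) : ∀ h : ℕ, h ≤ w.length →
    Steps (rew k0) (h + 1) ((1 : Fin 3), Function.update τ k0 (tp w ((h : ℤ) - 1)))
      ((2 : Fin 3), Function.update τ k0 (tp w 0)) := by
  intro h
  induction h with
  | zero =>
    intro _
    refine Steps.one (by simp [rew]) ?_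
    have h1 : (Function.update τ k0 (tp w (((0 : ℕ) : ℤ) - 1)) k0 0).isSome = false := by
      rw [Function.update_self]
      have := tp_head_neg w
      simp [this]
    simp only [TM.next, rew, h1]
    refine Prod.ext (by simp) ?_
    simp only [Fin.reduceEq, if_false, Bool.false_eq_true]
    rw [next_upd]
    congr 1
    rw [tp_right]
    congr 1
  | succ h ih =>
    intro hh
    refine Steps.succ (h + 1) _ _ (by simp [rew]) ?_
    have h1 : (Function.update τ k0 (tp w (((h + 1 : ℕ) : ℤ) - 1)) k0 0).isSome = true := by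
      rw [Function.update_self]
      have h2 : (((h + 1 : ℕ) : ℤ) - 1) = ((h : ℕ) : ℤ) := by push_cast; ring
      rw [h2, tp_head, List.getElem?_eq_getElem (by omega)]
      rfl
    have h2 : (rew k0).next ((1 : Fin 3), Function.update τ k0 (tp w (((h + 1 : ℕ) : ℤ) - 1))) =
        ((1 : Fin 3), Function.update τ k0 (tp w ((h : ℤ) - 1))) := by
      simp only [TM.next, rew, h1]
      refine Prod.ext (by simp) ?_
      simp only [Fin.reduceEq, if_false, if_true]
      rw [next_upd]
      congr 1
      rw [tp_left]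
      congr 1
      push_cast
      ring
    rw [h2]
    exact ih (by omega)

open Classical in
theorem runs_rew (τ : (k : K) → Tp (Γ k)) (k0 : K) (w : List (Γ k0)) (h : τ k0 = tp w w.length) :
    Runs (rew k0) τ (w.length + 2) (Function.update τ k0 (tp w 0)) true := by
  refine ⟨(2 : Fin 3), ?_, by simp [rew]⟩
  have h0 : τ = Function.update τ k0 (tp w w.length) := by
    rw [← h, Function.update_eq_self]
  refine Steps.succ (w.length + 1) _ _ (by simp [rew]) ?_
  have h2 : (rew k0).next ((rew k0 : TM K Γ).start, τ) =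
      ((1 : Fin 3), Function.update τ k0 (tp w ((w.length : ℤ) - 1))) := by
    simp only [TM.next, rew]
    refine Prod.ext (by simp) ?_
    simp only [if_true]
    conv_lhs => rw [h0]
    rw [next_upd]
    congr 1
    rw [tp_left]
  rw [h2]
  exact rew_aux τ k0 w w.length le_rfl

theorem runs_rew' (τ τ' : (k : K) → Tp (Γ k)) (k0 : K) (w : List (Γ k0)) (h : τ k0 = tp w w.length)
    (h1 : τ' k0 = tp w 0) (h2 : ∀ k, k ≠ k0 → τ' k = τ k) : Runs (rew k0) τ (w.length + 2) τ' true := by
  classical
  have h3 : τ' = Function.update τ k0 (tp w 0) := by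
    funext k
    by_cases hk : k = k0
    · subst hk
      rw [h1, Function.update_self]
    · rw [h2 k hk, Function.update_of_ne hk]
  rw [h3]
  exact runs_rew τ k0 w h

end rew

end Pool.Agent.Lin
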