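import Pool.Agent.Lib.MP_dee884_lc.Weight

/-!
# The main lemma on certificates by counting
-/

set_option autoImplicit false

open Finset

namespace Pool.Agent.Lin

variable {α β : Type} [Fintype α] [Fintype β]

theorem inQ_DS {L : β → Set (List α)} (hL : ∀ b, InQ (L b)) {r : ℕ} (S : Fin r → Finset β) : InQ {w | DS L S w} := by
  refine InQ.and (InQ.all fun i => InQ.all fun b => ?_) (InQ.all fun i => InQ.all fun j => ?_)
  · by_cases h : b ∈ S i
    · exact ((hL b).comap fun a : Fin r → α => a i).congr fun w => ⟨fun g => g h, fun g _ => g⟩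
    · exact inQ_univ.congr fun w => ⟨fun _ => Set.mem_univ _, fun _ g => absurd g h⟩
  · by_cases h : i = j
    · exact inQ_univ.congr fun w => ⟨fun _ => Set.mem_univ _, fun _ g => absurd h g⟩
    · exact (inQ_track_ne (fun a : Fin r → α => a i) fun a => a j).congr fun w => ⟨fun g => g h, fun g _ => g⟩

/-- lists of sets of indices -/
abbrev SI (β : Type) (k : ℕ) : Type := Σ r : Fin (k + 1), (Fin r.1 → Finset β)

/-- Lower bounds for the weight have certificates. -/
theorem inQ_wt_ge {L : β → Set (List α)} (hL : ∀ b, InQ (L b)) (c k : ℕ) (hk : ∀ m, wt L c m ≤ k) (j : ℕ) :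
    InQ {a : List Unit | j ≤ wt L c a.length} := by
  have h : ∀ S : SI β k, InQ {a : List Unit | j ≤ ∑ i, ((S.2 i).card - c) ∧ ∃ w, DS L S.2 w ∧ w.map (fun _ => ()) = a} :=
    fun S => InQ.and (InQ.const _) ((inQ_DS hL S.2).map _)
  refine (InQ.exi h).congr fun a => ?_
  constructor
  · intro ha
    obtain ⟨r, S, w, h1, h2, h3, _, h5, _⟩ := DS_full L c a.length
    refine ⟨⟨⟨r, by have := hk a.length; omega⟩, S⟩, ?_, w, h1, ?_⟩
    · change j ≤ wt L c a.length at ha
      rw [← h5] at ha
      exact ha
    · refine List.ext_getElem (by simp [h2]) fun _ _ _ => rfl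
  · rintro ⟨S, h1, w, h2, rfl⟩
    have h3 := DS_le L c h2
    show j ≤ wt L c _
    rw [List.length_map]
    exact h1.trans (h3.1.trans h3.2)

/-- the certificate for `s ∉ L b` -/
def CS (L : β → Set (List α)) (c : ℕ) (b : β) {r : ℕ} (S : Fin r → Finset β) (w : List (Option (Fin r) → α)) : Prop :=
  DS L S (w.map fun a i => a (some i)) ∧ (∀ i, c + 1 ≤ (S i).card) ∧
    ((∃ i, b ∉ S i ∧ w.map (fun a => a none) = w.map (fun a => a (some i))) ∨
      ((∀ i, w.map (fun a => a none) ≠ w.map (fun a => a (some i))) ∧
        ∃ S' : Finset β, (S'.card = c ∧ b ∉ S') ∧ ∀ b', b' ∈ S' → w.map (fun a => a none) ∈ L b'))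

theorem inQ_CS {L : β → Set (List α)} (hL : ∀ b, InQ (L b)) (c : ℕ) (b : β) {r : ℕ} (S : Fin r → Finset β) :
    InQ {w | CS L c b S w} := by
  refine InQ.and ((inQ_DS hL S).comap _) (InQ.and (InQ.const _) (InQ.or (InQ.exi fun i => ?_) (InQ.and (InQ.all fun i => ?_)
    (InQ.exi fun S' => InQ.and (InQ.const _) (InQ.all fun b' => ?_)))))
  · exact InQ.and (InQ.const _) (inQ_track_eq _ _)
  · exact inQ_track_ne _ _
  · by_cases h : b' ∈ S'
    · exact ((hL b').comap fun a : Option (Fin r) → α => a none).congr fun w => ⟨fun g => g h, fun g _ => g⟩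
    · exact inQ_univ.congr fun w => ⟨fun _ => Set.mem_univ _, fun _ g => absurd g h⟩

omit [Fintype α] in
theorem zip_tracks {r : ℕ} (s : List α) (w : List (Fin r → α)) (h : w.length = s.length) :
    ∃ u : List (Option (Fin r) → α), u.map (fun a => a none) = s ∧ (u.map fun a i => a (some i)) = w := by
  refine ⟨List.zipWith (fun a f o => o.elim a f) s w, ?_, ?_⟩
  · refine List.ext_getElem (by simp [h]) fun j h1 h2 => ?_
    simp
  · refine List.ext_getElem (by simp [h]) fun j h1 h2 => ?_
    simp

/-- **Main lemma.** -/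
theorem inQ_not_mem {L : β → Set (List α)} (hL : ∀ b, InQ (L b)) (c k : ℕ) (hk : ∀ m, wt L c m ≤ k)
    (hT : ∀ j, InQ {a : List Unit | wt L c a.length ≤ j}) (b : β) :
    InQ {s | c ≤ (ext L s).card ∧ s ∉ L b} := by
  classical
  have h : ∀ S : SI β k, InQ {s : List α | wt L c s.length ≤ ∑ i, ((S.2 i).card - c) ∧
      ∃ w, CS L c b S.2 w ∧ w.map (fun a => a none) = s} := by
    intro S
    refine InQ.and ?_ ((inQ_CS hL c b S.2).map _)
    refine ((hT (∑ i, ((S.2 i).card - c))).comap fun _ : α => ()).congr fun s => ?_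
    change _ ↔ wt L c (s.map fun _ => ()).length ≤ _
    rw [List.length_map]
    exact Iff.rfl
  refine (InQ.exi h).congr fun s => ?_
  constructor
  · rintro ⟨h1, h2⟩
    obtain ⟨r, S, w, g1, g2, g3, g4, g5, g6, g7⟩ := DS_full L c s.length
    obtain ⟨u, hu1, hu2⟩ := zip_tracks s w g2
    refine ⟨⟨⟨r, by have := hk s.length; omega⟩, S⟩, by rw [g5], u, ⟨by rw [hu2]; exact g1, g4, ?_⟩, hu1⟩
    have hui : ∀ i, u.map (fun a => a (some i)) = w.map fun a => a i := by
      intro i
      rw [← hu2, List.map_map]
      rfl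
    rcases Nat.lt_or_ge c (ext L s).card with hc | hc
    · obtain ⟨i, hi⟩ := g7 s rfl hc
      refine Or.inl ⟨i, ?_, ?_⟩
      · show b ∉ S i
        rw [g6, ← hi]
        intro hb
        exact h2 (Finset.mem_filter.1 hb).2
      · rw [hu1, hui, hi]
    · refine Or.inr ⟨fun i => ?_, ext L s, ⟨le_antisymm hc h1, fun hb => h2 (Finset.mem_filter.1 hb).2⟩, fun b' hb' => ?_⟩
      · rw [hu1, hui]
        intro hs
        have h5 := g4 i
        rw [g6, ← hs] at h5
        omega
      · rw [hu1]
        exact (Finset.mem_filter.1 hb').2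
  · rintro ⟨⟨⟨r, hr⟩, S⟩, h1, w, ⟨h2, h3, h4⟩, rfl⟩
    change Fin r → Finset β at S
    change ∀ i : Fin r, c + 1 ≤ (S i).card at h3
    change wt L c _ ≤ ∑ i : Fin r, ((S i).card - c) at h1
    have h5 := DS_le L c h2
    rw [List.length_map] at h1
    rw [List.length_map] at h5
    set t : Fin r → List α := fun i => w.map (fun a => a (some i)) with ht
    have hti : ∀ i, (w.map fun (a : Option (Fin r) → α) (i : Fin r) => a (some i)).map (fun a => a i) = t i := by
      intro i
      rw [List.map_map]
      rfl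
    simp only [hti] at h5
    have hdist : Function.Injective t := by
      intro i j hij
      by_contra hne
      have := h2.2 i j hne
      rw [hti, hti] at this
      exact this hij
    -- equality in the sums
    have h6 : ∑ i, ((S i).card - c) = ∑ i, ((ext L (t i)).card - c) := by omega
    have h7 : ∀ i, (S i).card - c = (ext L (t i)).card - c := by
      have hle : ∀ i ∈ (univ : Finset (Fin r)), (S i).card - c ≤ (ext L (t i)).card - c := by
        intro i _
        refine Nat.sub_le_sub_right (Finset.card_le_card fun b' hb' => ?_) c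
        have := h2.1 i b' hb'
        rw [hti] at this
        exact Finset.mem_filter.2 ⟨Finset.mem_univ _, this⟩
      intro i
      exact (Finset.sum_eq_sum_iff_of_le hle).1 h6 i (Finset.mem_univ _)
    have h8 : ∀ i, S i = ext L (t i) := by
      intro i
      refine Finset.eq_of_subset_of_card_le (fun b' hb' => ?_) ?_
      · have := h2.1 i b' hb'
        rw [hti] at this
        exact Finset.mem_filter.2 ⟨Finset.mem_univ _, this⟩
      · have := h7 i
        have := h3 i
        omega
    have h9 : ∀ s : List α, s.length = w.length → (∀ i, s ≠ t i) → (ext L s).card ≤ c := by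
      intro s hs hne
      have e1 : ∑ i, ((ext L (t i)).card - c) + ((ext L s).card - c) ≤ wt L c w.length := by
        have e2 : ∑ i, ((ext L (t i)).card - c) + ((ext L s).card - c) =
            ∑ s' ∈ insert s (univ.image t), ((ext L s').card - c) := by
          rw [Finset.sum_insert, Finset.sum_image, add_comm]
          · intro i _ j _ hij
            exact hdist hij
          · intro hmem
            obtain ⟨i, _, hi⟩ := Finset.mem_image.1 hmem
            exact hne i hi.symm
        rw [e2]
        refine Finset.sum_le_sum_of_subset fun s' hs' => ?_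
        rw [mem_wrds]
        rcases Finset.mem_insert.1 hs' with h | h
        · rw [h, hs]
        · obtain ⟨i, _, rfl⟩ := Finset.mem_image.1 h
          simp [ht]
      omega
    rcases h4 with ⟨i, hi1, hi2⟩ | ⟨g1, S', ⟨g2, g3⟩, g4⟩
    · have hi3 : w.map (fun a => a none) = t i := hi2
      change c ≤ (ext L (w.map fun a => a none)).card ∧ w.map (fun a => a none) ∉ L b
      rw [hi3]
      change b ∉ S i at hi1
      rw [h8] at hi1
      refine ⟨?_, fun h => hi1 (Finset.mem_filter.2 ⟨Finset.mem_univ _, h⟩)⟩
      rw [← h8]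
      have := h3 i
      omega
    · have g5 := h9 (w.map fun a => a none) (by simp) g1
      have g6 : S' ⊆ ext L (w.map fun a => a none) := fun b' hb' => Finset.mem_filter.2 ⟨Finset.mem_univ _, g4 b' hb'⟩
      have g7 : S' = ext L (w.map fun a => a none) := Finset.eq_of_subset_of_card_le g6 (by omega)
      refine ⟨?_, fun h => ?_⟩
      · rw [← g7, g2]
      · rw [g7] at g3
        exact g3 (Finset.mem_filter.2 ⟨Finset.mem_univ _, h⟩)

end Pool.Agent.Lin
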