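import Mathlib

/-!
# Linear time on multitape Turing machines and the class `Q`
-/

set_option autoImplicit false

namespace Pool.Agent.Lin

/-- A tape with the alphabet `Γ`: `t i` is the content of the cell with the number `i` relative to the head; `none` is the blank. -/
abbrev Tp (Γ : Type) : Type := ℤ → Option Γ

/-- The moves of a head. -/
inductive Dir
  | left
  | stay
  | right

/-- `-1`, `0`, `1`. -/
def Dir.toInt : Dir → ℤ
  | Dir.left => -1
  | Dir.stay => 0
  | Dir.right => 1

/-- The tape after printing `b` in the scanned cell and moving the head in the direction `d`. -/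
def wm {Γ : Type} (t : Tp Γ) (b : Option Γ) (d : Dir) : Tp Γ :=
  fun i => if i + d.toInt = 0 then b else t (i + d.toInt)

/-- The tape with the word `w` in the cells `0, 1, ..., |w| - 1`, blanks elsewhere, the head is at the cell `0`. -/
def tapeOf {Γ : Type} (w : List Γ) : Tp Γ := fun i => if 0 ≤ i then w[i.toNat]? else none

/-- A deterministic Turing machine with the set `K` of tapes; the tape `k` has the alphabet `Γ k` (and the blank). `S` is the finite set of
states; the machine halts in the states `q` with `out q ≠ none`, with the answer `out q`. In a state `q` with the scanned symbols `v` it prints the symbol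
`((step q v).2 k).1` on the tape `k`, moves the head of this tape in the direction `((step q v).2 k).2` and enters the state `(step q v).1`. -/
structure TM (K : Type) (Γ : K → Type) where
  S : Type
  fin : Finite S
  start : S
  out : S → Option Bool
  step : S → ((k : K) → Option (Γ k)) → S × ((k : K) → Option (Γ k) × Dir)

variable {K : Type} {Γ : K → Type}

/-- One step. -/
def TM.next (M : TM K Γ) (c : M.S × ((k : K) → Tp (Γ k))) : M.S × ((k : K) → Tp (Γ k)) :=
  ((M.step c.1 fun k => c.2 k 0).1,
    fun k => wm (c.2 k) ((M.step c.1 fun k => c.2 k 0).2 k).1 ((M.step c.1 fun k => c.2 k 0).2 k).2)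

/-- `Steps M n c c'`: the machine gets from the configuration `c` to `c'` by `n` steps (no halting configuration before `c'`). -/
inductive Steps (M : TM K Γ) : ℕ → M.S × ((k : K) → Tp (Γ k)) → M.S × ((k : K) → Tp (Γ k)) → Prop
  | zero (c : M.S × ((k : K) → Tp (Γ k))) : Steps M 0 c c
  | succ (n : ℕ) (c c' : M.S × ((k : K) → Tp (Γ k))) : M.out c.1 = none → Steps M n (M.next c) c' → Steps M (n + 1) c c'

/-- Started with the tapes `τ` the machine halts after `n` steps with the tapes `τ'` and the answer `b`. -/
def Runs (M : TM K Γ) (τ : (k : K) → Tp (Γ k)) (n : ℕ) (τ' : (k : K) → Tp (Γ k)) (b : Bool) : Prop :=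
  ∃ q : M.S, Steps M n (M.start, τ) (q, τ') ∧ M.out q = some b

open Classical in
/-- The initial tapes: the word `w` on the tape `k0`, the other tapes are empty. -/
noncomputable def inp (k0 : K) (w : List (Γ k0)) : (k : K) → Tp (Γ k) :=
  fun k => tapeOf (Function.update (fun _ => []) k0 w k)

/-- `LINTIME`: the language `L` is decided by a deterministic multitape Turing machine in at most `c (|x| + 1)` steps. The alphabet of the input tape `k0`
contains the letters of the input by the injection `emb`. -/
def LINTIME {α : Type} (L : Set (List α)) : Prop :=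
  ∃ (K : Type) (_ : Finite K) (Γ : K → Type) (_ : ∀ k, Finite (Γ k)) (k0 : K) (emb : α → Γ k0) (_ : Function.Injective emb)
    (M : TM K Γ) (c : ℕ), ∀ x : List α, ∃ n ≤ c * (x.length + 1), ∃ τ' b, Runs M (inp k0 (x.map emb)) n τ' b ∧ (b = true ↔ x ∈ L)

/-- The class `Q`: images `h(L)` of languages `L` in `LINTIME` (over a finite alphabet) under homomorphisms `h` with `h b ≠ ε` for all letters `b`. -/
def InQ {α : Type} (X : Set (List α)) : Prop :=
  ∃ (β : Type) (_ : Finite β) (L : Set (List β)) (h : β → List α), LINTIME L ∧ (∀ b, h b ≠ []) ∧
    ∀ x, x ∈ X ↔ ∃ w ∈ L, w.flatMap h = x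

end Pool.Agent.Lin
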