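import Pool.Agent.Lib.MP_dee884_lc.Pass

/-!
# Several passes: machines which start with images of the input on their tapes
-/

set_option autoImplicit false

namespace Pool.Agent.Lin

/-- Multi-pass homomorphisms. -/
abbrev MP (α β : Type) : Type := List ((α → List β) × List β)

/-- The value `e₁(x) s₁ e₂(x) s₂ ...`. -/
def MP.val {α β : Type} (P : MP α β) (x : List α) : List β := P.flatMap fun p => x.flatMap p.1 ++ p.2

theorem flatMap_len {α β : Type} (e : α → List β) (C : ℕ) (h : ∀ a, (e a).length ≤ C) (x : List α) :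
    (x.flatMap e).length ≤ C * x.length := by
  induction x with
  | nil => simp
  | cons a x ih =>
    rw [List.flatMap_cons, List.length_append, List.length_cons]
    have := h a
    nlinarith

theorem MP.len {α β : Type} [Finite α] (P : MP α β) : ∃ C, ∀ x : List α, (P.val x).length ≤ C * (x.length + 1) := by
  induction P with
  | nil => exact ⟨0, fun x => by simp [MP.val]⟩
  | cons p P ih =>
    obtain ⟨C, hC⟩ := ih
    obtain ⟨D, hD⟩ := Finite.exists_le fun a => (p.1 a).length
    refine ⟨C + D + p.2.length, fun x => ?_⟩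
    have h1 : (MP.val (p :: P) x).length = (x.flatMap p.1).length + p.2.length + (MP.val P x).length := by
      simp [MP.val, List.flatMap_cons]
      ring
    rw [h1]
    have h2 := flatMap_len p.1 D hD x
    have h3 := hC x
    nlinarith [Nat.zero_le (x.length), Nat.zero_le (p.2.length)]

variable {α : Type} {K : Type} {Γ : K → Type}

/-- Some machine decides `L` in linear time from the tapes `pre x`. -/
def DecE (K : Type) (Γ : K → Type) (pre : List α → (k : K) → Tp (Γ k)) (L : Set (List α)) : Prop :=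
  ∃ (G : TM K Γ) (c : ℕ), ∀ x, ∃ n ≤ c * (x.length + 1), ∃ τ' b, Runs G (pre x) n τ' b ∧ (b = true ↔ x ∈ L)

/-- The machine `G` transforms `pre x` to `post x` in linear time. -/
def LinRuns (G : TM K Γ) (pre post : List α → (k : K) → Tp (Γ k)) : Prop :=
  ∃ c : ℕ, ∀ x, ∃ n ≤ c * (x.length + 1), ∃ b, Runs G (pre x) n (post x) b

theorem decE_bind {G : TM K Γ} {pre mid : List α → (k : K) → Tp (Γ k)} {L : Set (List α)}
    (h1 : LinRuns G pre mid) (h2 : DecE K Γ mid L) : DecE K Γ pre L := by
  obtain ⟨c1, h1⟩ := h1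
  obtain ⟨G2, c2, h2⟩ := h2
  refine ⟨G.bind fun _ => G2, c1 + c2 + 1, fun x => ?_⟩
  obtain ⟨n1, hn1, b1, hr1⟩ := h1 x
  obtain ⟨n2, hn2, τ', b2, hr2, hb⟩ := h2 x
  refine ⟨n1 + 1 + n2, ?_, τ', b2, Runs.bind hr1 hr2, hb⟩
  nlinarith

theorem rew_inl (x : List α) (τ : (k : K) → Tp (Γ k)) :
    Runs (rew (Sum.inl ()) : TM (Unit ⊕ K) (GI α Γ)) (joinT (fun _ => tp x x.length) τ) (x.length + 2)
      (joinT (fun _ => tp x 0) τ) true := by
  refine runs_rew' (Γ := GI α Γ) _ _ (Sum.inl ()) x rfl rfl ?_
  rintro (k | k) h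
  · exact absurd rfl h
  · rfl

theorem rew_inr (τ₁ : Unit → Tp α) (τ τ' : (k : K) → Tp (Γ k)) (k0 : K) (w : List (Γ k0)) (hw : τ k0 = tp w w.length)
    (h1 : τ' k0 = tp w 0) (h2 : ∀ k, k ≠ k0 → τ' k = τ k) :
    Runs (rew (Sum.inr k0) : TM (Unit ⊕ K) (GI α Γ)) (joinT τ₁ τ) (w.length + 2) (joinT τ₁ τ') true := by
  refine runs_rew' (Γ := GI α Γ) _ _ (Sum.inr k0) w hw h1 ?_
  rintro (k | k) h
  · rfl
  · exact h2 k fun hk => h (by rw [hk])

/-- rewind the tapes in the list `ks` -/
theorem decE_rew [DecidableEq K] (w : List α → (k : K) → List (Γ k)) (hw : ∀ k, ∃ C, ∀ x : List α, (w x k).length ≤ C * (x.length + 1))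
    (t : List α → Tp α) (L : Set (List α)) : ∀ ks : List K, ks.Nodup →
    DecE (Unit ⊕ K) (GI α Γ) (fun x => joinT (fun _ => t x) fun k => tp (w x k) 0) L →
    DecE (Unit ⊕ K) (GI α Γ) (fun x => joinT (fun _ => t x) fun k => tp (w x k) (if k ∈ ks then ((w x k).length : ℤ) else 0)) L := by
  intro ks
  induction ks with
  | nil =>
    intro _ h
    simpa using h
  | cons k0 ks ih =>
    intro hnd h
    have h1 := ih hnd.of_cons h
    refine decE_bind (G := rew (Sum.inr k0)) ?_ h1
    obtain ⟨C, hC⟩ := hw k0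
    refine ⟨C + 2, fun x => ⟨(w x k0).length + 2, ?_, true, ?_⟩⟩
    · have := hC x
      nlinarith [Nat.zero_le x.length]
    · refine rew_inr (fun _ => t x) _ _ k0 (w x k0) (by simp) ?_ ?_
      · rw [if_neg (List.nodup_cons.1 hnd).1]
      · intro k hk
        simp [hk]

/-- the first pass -/
def hdW (F : (k : K) → MP α (Γ k)) (k : K) (o : Option α) : List (Γ k) :=
  match (F k).head?, o with
  | some p, some a => p.1 a
  | some p, none => p.2
  | none, _ => []

theorem hdW_val (F : (k : K) → MP α (Γ k)) (k : K) (x : List α) :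
    x.flatMap (fun a => hdW F k (some a)) ++ hdW F k none ++ MP.val (F k).tail x = MP.val (F k) x := by
  unfold hdW
  rcases F k with _ | ⟨p, P⟩
  · simp [MP.val]
  · simp [MP.val, List.flatMap_cons]

theorem decE_pass [Finite α] [Finite K] (L : Set (List α)) : ∀ (P : ℕ) (F : (k : K) → MP α (Γ k)), (∀ k, (F k).length ≤ P) →
    ∀ w : List α → (k : K) → List (Γ k),
    DecE (Unit ⊕ K) (GI α Γ) (fun x => joinT (fun _ => tp x 0) fun k =>
      tp (w x k ++ (F k).val x) (w x k ++ (F k).val x).length) L →
    DecE (Unit ⊕ K) (GI α Γ) (fun x => joinT (fun _ => tp x 0) fun k => tp (w x k) (w x k).length) L := by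
  intro P
  induction P with
  | zero =>
    intro F hF w h
    have h1 : ∀ k x, (F k).val x = [] := by
      intro k x
      have : F k = [] := List.length_eq_zero_iff.1 (Nat.le_zero.1 (hF k))
      rw [this]
      rfl
    simp only [h1, List.append_nil] at h
    exact h
  | succ P ih =>
    intro F hF w h
    obtain ⟨N, hN⟩ := Finite.exists_le fun p : K × Option α => (hdW F p.1 p.2).length
    have h1 := ih (fun k => (F k).tail) (fun k => by have := hF k; simp; omega)
      (fun x k => w x k ++ x.flatMap (fun a => hdW F k (some a)) ++ hdW F k none) (by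
        have e : ∀ x k, w x k ++ x.flatMap (fun a => hdW F k (some a)) ++ hdW F k none ++ MP.val (F k).tail x =
            w x k ++ (F k).val x := by
          intro x k
          rw [← hdW_val F k x]
          simp
        simp only [e]
        exact h)
    have h2 : LinRuns (rew (Sum.inl ()) : TM (Unit ⊕ K) (GI α Γ))
        (fun x => joinT (fun _ => tp x x.length) fun k =>
          tp (w x k ++ x.flatMap (fun a => hdW F k (some a)) ++ hdW F k none)
            (w x k ++ x.flatMap (fun a => hdW F k (some a)) ++ hdW F k none).length)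
        (fun x => joinT (fun _ => tp x 0) fun k =>
          tp (w x k ++ x.flatMap (fun a => hdW F k (some a)) ++ hdW F k none)
            (w x k ++ x.flatMap (fun a => hdW F k (some a)) ++ hdW F k none).length) :=
      ⟨2, fun x => ⟨x.length + 2, by omega, true, rew_inl x _⟩⟩
    have h3 : LinRuns (pass (hdW F) N) (fun x => joinT (fun _ => tp x 0) fun k => tp (w x k) (w x k).length)
        (fun x => joinT (fun _ => tp x x.length) fun k =>
          tp (w x k ++ x.flatMap (fun a => hdW F k (some a)) ++ hdW F k none)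
            (w x k ++ x.flatMap (fun a => hdW F k (some a)) ++ hdW F k none).length) :=
      ⟨N + 2, fun x => ⟨_, le_rfl, true, runs_pass (hdW F) N (fun k o => hN (k, o)) x (w x)⟩⟩
    exact decE_bind h3 (decE_bind h2 h1)

/-- **Initial tapes.** -/
theorem init_lintime [Finite α] [Finite K] [∀ k, Finite (Γ k)] (F : (k : K) → MP α (Γ k)) (L : Set (List α))
    (h : DecE K Γ (fun x k => tapeOf ((F k).val x)) L) : LINTIME L := by
  classical
  have h1 : DecE (Unit ⊕ K) (GI α Γ) (fun x => joinT (fun _ => tp x 0) fun k => tp ((F k).val x) 0) L := by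
    obtain ⟨M, c, hM⟩ := h
    refine ⟨M.liftR, c, fun x => ?_⟩
    obtain ⟨n, hn, τ', b, hr, hb⟩ := hM x
    refine ⟨n, hn, joinT (fun _ => tp x 0) τ', b, ?_, hb⟩
    simp only [tp_zero]
    exact hr.liftR _
  obtain ⟨n, ⟨e⟩⟩ := Finite.exists_equiv_fin K
  let ks : List K := (List.finRange n).map e.symm
  have hks : ks.Nodup := (List.nodup_finRange n).map e.symm.injective
  have hmem : ∀ k, k ∈ ks := fun k => List.mem_map.2 ⟨e k, List.mem_finRange _, e.symm_apply_apply k⟩
  have h2 := decE_rew (fun x k => (F k).val x) (fun k => (F k).len) (fun x => tp x 0) L ks hks h1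
  simp only [hmem, if_true] at h2
  obtain ⟨P, hP⟩ := Finite.exists_le fun k => (F k).length
  have h3 := decE_pass L P F hP (fun _ _ => []) (by simpa using h2)
  obtain ⟨G, c, hG⟩ := h3
  refine ⟨Unit ⊕ K, inferInstance, GI α Γ, ?_, Sum.inl (), fun a => a, fun a b h => h, G, c, fun x => ?_⟩
  · rintro (k | k)
    · exact (inferInstance : Finite α)
    · exact (inferInstance : Finite (Γ k))
  · obtain ⟨n, hn, τ', b, hr, hb⟩ := hG x
    refine ⟨n, hn, τ', b, ?_, hb⟩
    have e1 : (inp (Γ := GI α Γ) (Sum.inl ()) (x.map fun a => a)) =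
        joinT (fun _ => tp x 0) fun k => tp ([] : List (Γ k)) (([] : List (Γ k)).length : ℤ) := by
      funext k
      rcases k with k | k
      · refine (inp_self (Γ := GI α Γ) (Sum.inl ()) (x.map fun a => a)).trans ?_
        simp [joinT, tp_zero]
      · refine (inp_ne (Γ := GI α Γ) (Sum.inl ()) (x.map fun a => a) (Sum.inr k) (by simp)).trans ?_
        simp [joinT, tp_zero]
    exact (congrArg (fun τ => Runs G τ n τ' b) e1).mpr hr

end Pool.Agent.Lin
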