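import Pool.Agent.Lib.MP_dee884_lc.Lin

/-!
# Closure properties of `Q`
-/

set_option autoImplicit false

namespace Pool.Agent.Lin

variable {α β γ : Type}

theorem fm_nil (x : List α) : (x.flatMap fun _ => ([] : List β)) = [] := by
  induction x with
  | nil => rfl
  | cons a x ih => simp [List.flatMap_cons, ih]

/-- precomposition with a homomorphism -/
def MP.pre (P : MP α β) (e : γ → List α) : MP γ β := P.map fun p => (fun c => (e c).flatMap p.1, p.2)

theorem MP.pre_val (P : MP α β) (e : γ → List α) (z : List γ) : (P.pre e).val z = P.val (z.flatMap e) := by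
  unfold MP.pre MP.val
  rw [List.flatMap_map]
  refine congrArg (fun f => List.flatMap f P) ?_
  funext p
  rw [List.flatMap_assoc]

/-- the letters from the left summand -/
def sL : α ⊕ γ → List α
  | Sum.inl a => [a]
  | Sum.inr _ => []

/-- the letters from the right summand -/
def sR : α ⊕ γ → List γ
  | Sum.inl _ => []
  | Sum.inr c => [c]

theorem fm_sL (x : List α) (v : List γ) : (x.map Sum.inl ++ v.map Sum.inr).flatMap sL = x := by
  rw [List.flatMap_append, List.flatMap_map, List.flatMap_map]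
  change (x.flatMap fun a => [a]) ++ (v.flatMap fun _ => ([] : List α)) = x
  rw [fm_nil, List.append_nil, flatMap_single]
  simp

theorem fm_sR (x : List α) (v : List γ) : (x.map Sum.inl ++ v.map Sum.inr).flatMap sR = v := by
  rw [List.flatMap_append, List.flatMap_map, List.flatMap_map]
  change (x.flatMap fun _ => ([] : List γ)) ++ (v.flatMap fun a => [a]) = v
  rw [fm_nil, List.nil_append, flatMap_single]
  simp

/-- certificates -/
def Cert (X : Set (List α)) : Prop :=
  ∃ (γ : Type) (_ : Finite γ) (R : Set (List (α ⊕ γ))) (C : ℕ), LINTIME R ∧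
    (∀ x ∈ X, ∃ v : List γ, v.length ≤ C * (x.length + 1) ∧ x.map Sum.inl ++ v.map Sum.inr ∈ R) ∧
    ∀ (x : List α) (v : List γ), x.map Sum.inl ++ v.map Sum.inr ∈ R → x ∈ X

theorem len_le_flatMap (h : β → List α) (hh : ∀ b, h b ≠ []) (w : List β) : w.length ≤ (w.flatMap h).length := by
  induction w with
  | nil => simp
  | cons b w ih =>
    rw [List.flatMap_cons, List.length_append, List.length_cons]
    have := List.length_pos_of_ne_nil (hh b)
    omega

theorem InQ.cert [Finite α] {X : Set (List α)} (h : InQ X) : Cert X := by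
  obtain ⟨β, hβ, L, g, hL, hg, hX⟩ := h
  refine ⟨β, hβ, {z | (MP.hom sR).val z ∈ L} ∩ {z | ((MP.hom sR).comp g).val z = (MP.hom sL).val z}, 1,
    (hL.inv _).inter (lintime_eq _ _), fun x hx => ?_, fun x v hv => ?_⟩
  · obtain ⟨w, hw, hwx⟩ := (hX x).1 hx
    refine ⟨w, ?_, ?_, ?_⟩
    · have := len_le_flatMap g hg w
      rw [hwx] at this
      omega
    · show (MP.hom sR).val _ ∈ L
      rw [MP.hom_val, fm_sR]
      exact hw
    · show ((MP.hom sR).comp g).val _ = (MP.hom sL).val _
      rw [MP.comp_val, MP.hom_val, MP.hom_val, fm_sR, fm_sL]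
      exact hwx
  · obtain ⟨h1, h2⟩ := hv
    change (MP.hom sR).val _ ∈ L at h1
    change ((MP.hom sR).comp g).val _ = (MP.hom sL).val _ at h2
    rw [MP.hom_val, fm_sR] at h1
    rw [MP.comp_val, MP.hom_val, MP.hom_val, fm_sR, fm_sL] at h2
    exact (hX x).2 ⟨v, h1, h2⟩

theorem chunks (m : ℕ) : ∀ (n : ℕ) (v : List γ), v.length ≤ m * n →
    ∃ l : List {l : List γ // l.length ≤ m}, l.length = n ∧ l.flatMap (fun c => c.1) = v := by
  intro n
  induction n with
  | zero =>
    intro v hv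
    refine ⟨[], rfl, ?_⟩
    have : v = [] := List.length_eq_zero_iff.1 (by omega)
    rw [this]
    rfl
  | succ n ih =>
    intro v hv
    obtain ⟨l, hl, hlv⟩ := ih (v.drop m) (by rw [List.length_drop]; rw [Nat.mul_succ] at hv; omega)
    refine ⟨⟨v.take m, by simp⟩ :: l, by simp [hl], ?_⟩
    rw [List.flatMap_cons, hlv]
    exact List.take_append_drop m v

instance finite_short [Finite γ] (m : ℕ) : Finite {l : List γ // l.length ≤ m} := by
  have h : Set.Finite {l : List γ | l.length ≤ m} := List.finite_length_le γ m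
  exact h

theorem Cert.inQ [Finite α] {X : Set (List α)} (h : Cert X) : InQ X := by
  obtain ⟨γ, hγ, R, C, hR, h1, h2⟩ := h
  let P : MP (α × {l : List γ // l.length ≤ 2 * C}) (α ⊕ γ) :=
    [(fun p => [Sum.inl p.1], []), (fun p => p.2.1.map Sum.inr, [])]
  have hP : ∀ y : List (α × {l : List γ // l.length ≤ 2 * C}), P.val y =
      (y.map Prod.fst).map Sum.inl ++ (y.flatMap fun p => p.2.1).map Sum.inr := by
    intro y
    simp only [P, MP.val, List.flatMap_cons, List.flatMap_nil, List.append_nil]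
    rw [flatMap_single, List.map_map, List.map_flatMap]
    rfl
  have hL : LINTIME {y | P.val y ∈ R} := hR.inv P
  have hE : LINTIME {y : List (α × {l : List γ // l.length ≤ 2 * C}) | (MP.id).val y = MP.val [] y} := lintime_eq _ _
  have hE' : {y : List (α × {l : List γ // l.length ≤ 2 * C}) | (MP.id).val y = MP.val [] y} = {[]} := by
    ext y
    change MP.id.val y = MP.val [] y ↔ y = []
    rw [MP.id_val]
    rfl
  rw [hE'] at hE
  by_cases h0 : [] ∈ X
  · refine ⟨α × {l : List γ // l.length ≤ 2 * C}, inferInstance, {y | P.val y ∈ R} ∪ {[]}, fun p => [p.1], hL.union hE,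
      fun b => by simp, fun x => ⟨fun hx => ?_, ?_⟩⟩
    · by_cases hx0 : x = []
      · exact ⟨[], Or.inr rfl, by rw [hx0]; rfl⟩
      · obtain ⟨v, hv, hvR⟩ := h1 x hx
        have hxl : 0 < x.length := List.length_pos_of_ne_nil hx0
        obtain ⟨l, hl, hlv⟩ := chunks (2 * C) x.length v (by nlinarith)
        have e1 : (x.zip l).map Prod.fst = x := List.map_fst_zip (by omega)
        have e2 : (x.zip l).flatMap (fun p => p.2.1) = v := by
          have e3 : (x.zip l).map Prod.snd = l := List.map_snd_zip (by omega)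
          rw [← hlv, ← e3, List.flatMap_map, e3]
        refine ⟨x.zip l, Or.inl ?_, ?_⟩
        · show P.val (x.zip l) ∈ R
          rw [hP, e1, e2]
          exact hvR
        · rw [flatMap_single]
          exact e1
    · rintro ⟨y, hy | hy, hyx⟩
      · change P.val y ∈ R at hy
        rw [hP] at hy
        rw [flatMap_single] at hyx
        have := h2 _ _ hy
        rwa [← hyx]
      · have hy2 : y = [] := hy
        rw [hy2] at hyx
        rw [← hyx]
        exact h0
  · refine ⟨α × {l : List γ // l.length ≤ 2 * C}, inferInstance, {y | P.val y ∈ R}, fun p => [p.1], hL,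
      fun b => by simp, fun x => ⟨fun hx => ?_, ?_⟩⟩
    · have hx0 : x ≠ [] := fun h => h0 (h ▸ hx)
      obtain ⟨v, hv, hvR⟩ := h1 x hx
      have hxl : 0 < x.length := List.length_pos_of_ne_nil hx0
      obtain ⟨l, hl, hlv⟩ := chunks (2 * C) x.length v (by nlinarith)
      have e1 : (x.zip l).map Prod.fst = x := List.map_fst_zip (by omega)
      have e2 : (x.zip l).flatMap (fun p => p.2.1) = v := by
        have e3 : (x.zip l).map Prod.snd = l := List.map_snd_zip (by omega)
        rw [← hlv, ← e3, List.flatMap_map, e3]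
      refine ⟨x.zip l, ?_, ?_⟩
      · show P.val (x.zip l) ∈ R
        rw [hP, e1, e2]
        exact hvR
      · rw [flatMap_single]
        exact e1
    · rintro ⟨y, hy, hyx⟩
      change P.val y ∈ R at hy
      rw [hP] at hy
      rw [flatMap_single] at hyx
      have := h2 _ _ hy
      rwa [← hyx]

theorem InQ.of_lintime [Finite α] {L : Set (List α)} (h : LINTIME L) : InQ L := by
  refine ⟨α, inferInstance, L, fun a => [a], h, fun a => by simp, fun x => ?_⟩
  constructor
  · intro hx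
    exact ⟨x, hx, by rw [flatMap_single]; simp⟩
  · rintro ⟨w, hw, hwx⟩
    rw [flatMap_single] at hwx
    simp only [List.map_id'] at hwx
    rwa [← hwx]

/-- images under non-erasing homomorphisms -/
theorem InQ.image {X : Set (List α)} (h : InQ X) (g : α → List β) (hg : ∀ a, g a ≠ []) :
    InQ {x | ∃ y ∈ X, y.flatMap g = x} := by
  obtain ⟨δ, hδ, L, f, hL, hf, hX⟩ := h
  refine ⟨δ, hδ, L, fun b => (f b).flatMap g, hL, fun b hb => ?_, fun x => ?_⟩
  · obtain ⟨a, l, hal⟩ := List.exists_cons_of_ne_nil (hf b)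
    change (f b).flatMap g = [] at hb
    rw [hal, List.flatMap_cons] at hb
    exact hg a (List.append_eq_nil_iff.1 hb).1
  · constructor
    · rintro ⟨y, hy, hyx⟩
      obtain ⟨w, hw, hwy⟩ := (hX y).1 hy
      exact ⟨w, hw, by rw [← hyx, ← hwy, List.flatMap_assoc]⟩
    · rintro ⟨w, hw, hwx⟩
      refine ⟨w.flatMap f, (hX _).2 ⟨w, hw, rfl⟩, ?_⟩
      rw [← hwx, List.flatMap_assoc]

/-- images under letter maps -/
theorem InQ.map {X : Set (List α)} (h : InQ X) (g : α → β) : InQ {x | ∃ y ∈ X, y.map g = x} := by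
  have h1 := h.image (fun a => [g a]) fun a => by simp
  simp only [flatMap_single] at h1
  exact h1

theorem InQ.inv [Finite α] [Finite β] {X : Set (List α)} (h : InQ X) (P : MP β α) : InQ {x | P.val x ∈ X} := by
  obtain ⟨γ, hγ, R, C, hR, h1, h2⟩ := h.cert
  obtain ⟨D, hD⟩ := P.len
  have hv : ∀ z : List (β ⊕ γ), MP.val (((P.pre sL).comp fun a => [Sum.inl a]) ++ (MP.hom sR).comp fun c => [Sum.inr c]) z =
      (P.val (z.flatMap sL)).map Sum.inl ++ (z.flatMap sR).map Sum.inr := by
    intro z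
    rw [MP.append_val, MP.comp_val, MP.comp_val, MP.pre_val, MP.hom_val, flatMap_single, flatMap_single]
  refine Cert.inQ ⟨γ, hγ, {z | MP.val (((P.pre sL).comp fun a => [Sum.inl a]) ++ (MP.hom sR).comp fun c => [Sum.inr c]) z ∈ R},
    C * (D + 1), hR.inv _, fun x hx => ?_, fun x v hxv => ?_⟩
  · obtain ⟨v, hvl, hvR⟩ := h1 _ hx
    refine ⟨v, ?_, ?_⟩
    · refine hvl.trans ?_
      rw [mul_assoc]
      refine Nat.mul_le_mul_left C ?_
      have := hD x
      nlinarith [Nat.zero_le x.length]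
    · show MP.val _ _ ∈ R
      rw [hv, fm_sL, fm_sR]
      exact hvR
  · change MP.val _ _ ∈ R at hxv
    rw [hv, fm_sL, fm_sR] at hxv
    exact h2 _ _ hxv

/-- selection from `α ⊕ (γ₁ ⊕ γ₂)` -/
def s1 {γ₁ γ₂ : Type} : α ⊕ (γ₁ ⊕ γ₂) → List (α ⊕ γ₁)
  | Sum.inl a => [Sum.inl a]
  | Sum.inr (Sum.inl c) => [Sum.inr c]
  | Sum.inr (Sum.inr _) => []

/-- selection from `α ⊕ (γ₁ ⊕ γ₂)` -/
def s2 {γ₁ γ₂ : Type} : α ⊕ (γ₁ ⊕ γ₂) → List (α ⊕ γ₂)
  | Sum.inl a => [Sum.inl a]
  | Sum.inr (Sum.inl _) => []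
  | Sum.inr (Sum.inr c) => [Sum.inr c]

theorem fm_s1 {γ₁ γ₂ : Type} (x : List α) (v : List (γ₁ ⊕ γ₂)) :
    (x.map Sum.inl ++ v.map Sum.inr).flatMap s1 = x.map Sum.inl ++ (v.flatMap sL).map Sum.inr := by
  rw [List.flatMap_append, List.flatMap_map, List.flatMap_map]
  congr 1
  · exact flatMap_single _ _
  · rw [List.map_flatMap]
    refine congrArg (fun f => List.flatMap f v) ?_
    funext c
    rcases c with c | c <;> rfl

theorem fm_s2 {γ₁ γ₂ : Type} (x : List α) (v : List (γ₁ ⊕ γ₂)) :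
    (x.map Sum.inl ++ v.map Sum.inr).flatMap s2 = x.map Sum.inl ++ (v.flatMap sR).map Sum.inr := by
  rw [List.flatMap_append, List.flatMap_map, List.flatMap_map]
  congr 1
  · exact flatMap_single _ _
  · rw [List.map_flatMap]
    refine congrArg (fun f => List.flatMap f v) ?_
    funext c
    rcases c with c | c <;> rfl

theorem InQ.inter [Finite α] {X₁ X₂ : Set (List α)} (h₁ : InQ X₁) (h₂ : InQ X₂) : InQ (X₁ ∩ X₂) := by
  obtain ⟨γ₁, hγ₁, R₁, C₁, hR₁, a₁, b₁⟩ := h₁.cert
  obtain ⟨γ₂, hγ₂, R₂, C₂, hR₂, a₂, b₂⟩ := h₂.cert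
  refine Cert.inQ ⟨γ₁ ⊕ γ₂, inferInstance, {z | (MP.hom s1).val z ∈ R₁} ∩ {z | (MP.hom s2).val z ∈ R₂}, C₁ + C₂,
    (hR₁.inv _).inter (hR₂.inv _), fun x hx => ?_, fun x v hv => ?_⟩
  · obtain ⟨v₁, l₁, r₁⟩ := a₁ x hx.1
    obtain ⟨v₂, l₂, r₂⟩ := a₂ x hx.2
    refine ⟨v₁.map Sum.inl ++ v₂.map Sum.inr, ?_, ?_, ?_⟩
    · rw [List.length_append, List.length_map, List.length_map]
      nlinarith
    · show (MP.hom s1).val _ ∈ R₁
      rw [MP.hom_val, fm_s1, fm_sL]
      exact r₁
    · show (MP.hom s2).val _ ∈ R₂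
      rw [MP.hom_val, fm_s2, fm_sR]
      exact r₂
  · obtain ⟨r₁, r₂⟩ := hv
    change (MP.hom s1).val _ ∈ R₁ at r₁
    change (MP.hom s2).val _ ∈ R₂ at r₂
    rw [MP.hom_val, fm_s1] at r₁
    rw [MP.hom_val, fm_s2] at r₂
    exact ⟨b₁ _ _ r₁, b₂ _ _ r₂⟩

theorem InQ.union [Finite α] {X₁ X₂ : Set (List α)} (h₁ : InQ X₁) (h₂ : InQ X₂) : InQ (X₁ ∪ X₂) := by
  obtain ⟨γ₁, hγ₁, R₁, C₁, hR₁, a₁, b₁⟩ := h₁.cert
  obtain ⟨γ₂, hγ₂, R₂, C₂, hR₂, a₂, b₂⟩ := h₂.cert
  refine Cert.inQ ⟨γ₁ ⊕ γ₂, inferInstance, {z | (MP.hom s1).val z ∈ R₁} ∪ {z | (MP.hom s2).val z ∈ R₂}, C₁ + C₂,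
    (hR₁.inv _).union (hR₂.inv _), fun x hx => ?_, fun x v hv => ?_⟩
  · rcases hx with hx | hx
    · obtain ⟨v₁, l₁, r₁⟩ := a₁ x hx
      refine ⟨v₁.map Sum.inl, by rw [List.length_map]; nlinarith, Or.inl ?_⟩
      show (MP.hom s1).val _ ∈ R₁
      have h := fm_sL v₁ ([] : List γ₂)
      rw [List.map_nil, List.append_nil] at h
      rw [MP.hom_val, fm_s1, h]
      exact r₁
    · obtain ⟨v₂, l₂, r₂⟩ := a₂ x hx
      refine ⟨v₂.map Sum.inr, by rw [List.length_map]; nlinarith, Or.inr ?_⟩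
      show (MP.hom s2).val _ ∈ R₂
      have h := fm_sR ([] : List γ₁) v₂
      rw [List.map_nil, List.nil_append] at h
      rw [MP.hom_val, fm_s2, h]
      exact r₂
  · rcases hv with r | r
    · change (MP.hom s1).val _ ∈ R₁ at r
      rw [MP.hom_val, fm_s1] at r
      exact Or.inl (b₁ _ _ r)
    · change (MP.hom s2).val _ ∈ R₂ at r
      rw [MP.hom_val, fm_s2] at r
      exact Or.inr (b₂ _ _ r)

/-- certificates in `Q` -/
theorem InQ.ex [Finite α] [Finite γ] {X : Set (List α)} {R : Set (List (α ⊕ γ))} (hR : InQ R) (C : ℕ)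
    (h1 : ∀ x ∈ X, ∃ v : List γ, v.length ≤ C * (x.length + 1) ∧ x.map Sum.inl ++ v.map Sum.inr ∈ R)
    (h2 : ∀ (x : List α) (v : List γ), x.map Sum.inl ++ v.map Sum.inr ∈ R → x ∈ X) : InQ X := by
  obtain ⟨γ', hγ', R', C', hR', a, b⟩ := hR.cert
  let e : α ⊕ (γ ⊕ γ') → List ((α ⊕ γ) ⊕ γ') := fun z => (s1 z).map Sum.inl
  let e' : α ⊕ (γ ⊕ γ') → List ((α ⊕ γ) ⊕ γ') := fun z => match z with
    | Sum.inr (Sum.inr c) => [Sum.inr c]
    | _ => []
  have hv : ∀ (x : List α) (v : List (γ ⊕ γ')), MP.val (MP.hom e ++ MP.hom e') (x.map Sum.inl ++ v.map Sum.inr) =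
      (x.map Sum.inl ++ (v.flatMap sL).map Sum.inr).map Sum.inl ++ (v.flatMap sR).map Sum.inr := by
    intro x v
    rw [MP.append_val, MP.hom_val, MP.hom_val]
    congr 1
    · rw [← fm_s1, List.map_flatMap]
    · rw [List.flatMap_append, List.flatMap_map, List.flatMap_map]
      have h3 : (x.flatMap fun a => e' (Sum.inl a)) = [] := fm_nil x
      rw [h3, List.nil_append, List.map_flatMap]
      refine congrArg (fun f => List.flatMap f v) ?_
      funext c
      rcases c with c | c <;> rfl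
  refine Cert.inQ ⟨γ ⊕ γ', inferInstance, {z | MP.val (MP.hom e ++ MP.hom e') z ∈ R'}, C + C' * (C + 1) * 2,
    hR'.inv _, fun x hx => ?_, fun x v hxv => ?_⟩
  · obtain ⟨v, hvl, hvR⟩ := h1 x hx
    obtain ⟨v', hvl', hvR'⟩ := a _ hvR
    refine ⟨v.map Sum.inl ++ v'.map Sum.inr, ?_, ?_⟩
    · rw [List.length_append, List.length_map, List.length_map]
      rw [List.length_append, List.length_map, List.length_map] at hvl'
      have h3 : v'.length ≤ C' * (C + 1) * 2 * (x.length + 1) := by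
        refine hvl'.trans ?_
        rw [mul_assoc, mul_assoc]
        refine Nat.mul_le_mul_left C' ?_
        nlinarith [Nat.zero_le x.length]
      nlinarith
    · show MP.val _ _ ∈ R'
      rw [hv, fm_sL, fm_sR]
      exact hvR'
  · change MP.val _ _ ∈ R' at hxv
    rw [hv] at hxv
    exact h2 _ _ (b _ _ hxv)

theorem InQ.iUnion [Finite α] {ι : Type} [Finite ι] (X : ι → Set (List α)) (h : ∀ i, InQ (X i)) : InQ (⋃ i, X i) := by
  classical
  have := Fintype.ofFinite ι
  have key : ∀ s : Finset ι, InQ (⋃ i ∈ s, X i) := by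
    intro s
    induction s using Finset.induction_on with
    | empty =>
      have h1 : LINTIME {x : List α | (MP.id).val x = MP.val [] x} := lintime_eq _ _
      have h2 : InQ ({x : List α | (MP.id).val x = MP.val [] x} ∩ {x : List α | (MP.id).val x = MP.val [] x}ᶜ) :=
        InQ.of_lintime (h1.inter h1.compl)
      simpa using h2
    | insert i s _ ih =>
      rw [Finset.set_biUnion_insert]
      exact (h i).union ih
  have h3 := key Finset.univ
  simpa using h3

theorem InQ.iInter [Finite α] {ι : Type} [Finite ι] (X : ι → Set (List α)) (h : ∀ i, InQ (X i)) : InQ (⋂ i, X i) := by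
  classical
  have := Fintype.ofFinite ι
  have key : ∀ s : Finset ι, InQ (⋂ i ∈ s, X i) := by
    intro s
    induction s using Finset.induction_on with
    | empty =>
      have h1 : LINTIME {x : List α | (MP.id).val x = MP.val [] x} := lintime_eq _ _
      have h2 : InQ ({x : List α | (MP.id).val x = MP.val [] x} ∪ {x : List α | (MP.id).val x = MP.val [] x}ᶜ) :=
        InQ.of_lintime (h1.union h1.compl)
      simpa using h2
    | insert i s _ ih =>
      rw [Finset.set_biInter_insert]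
      exact (h i).inter ih
  have h3 := key Finset.univ
  simpa using h3

end Pool.Agent.Lin
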