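import Pool.Agent.Lib.MP_dee884_lc.Init

/-!
# Closure properties of linear time
-/

set_option autoImplicit false

namespace Pool.Agent.Lin

variable {α β γ : Type}

/-- composition with a homomorphism -/
def MP.comp (P : MP α β) (g : β → List γ) : MP α γ := P.map fun p => (fun a => (p.1 a).flatMap g, p.2.flatMap g)

theorem MP.comp_val (P : MP α β) (g : β → List γ) (x : List α) : (P.comp g).val x = (P.val x).flatMap g := by
  unfold MP.comp MP.val
  rw [List.flatMap_map, List.flatMap_assoc]
  refine congrArg (fun f => List.flatMap f P) ?_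
  funext p
  rw [List.flatMap_append, List.flatMap_assoc]

/-- one pass of a homomorphism -/
def MP.hom (e : α → List β) : MP α β := [(e, [])]

theorem MP.hom_val (e : α → List β) (x : List α) : (MP.hom e).val x = x.flatMap e := by
  simp [MP.hom, MP.val]

/-- the identity -/
def MP.id : MP α α := MP.hom fun a => [a]

theorem MP.id_val (x : List α) : (MP.id : MP α α).val x = x := by
  rw [MP.id, MP.hom_val]
  induction x with
  | nil => rfl
  | cons a x ih => simp [List.flatMap_cons, ih]

theorem flatMap_single (f : α → β) (x : List α) : (x.flatMap fun a => [f a]) = x.map f := by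
  induction x with
  | nil => rfl
  | cons a x ih => simp [List.flatMap_cons, ih]

/-- concatenation -/
theorem MP.append_val (P P' : MP α β) (x : List α) : MP.val (P ++ P') x = P.val x ++ P'.val x := by
  simp [MP.val]

section

variable {K : Type} {Γ : K → Type}

open Classical in
/-- the multi-pass homomorphisms for the input on the tape `k0` -/
noncomputable def inpF (k0 : K) (P : MP α (Γ k0)) : (k : K) → MP α (Γ k) := Function.update (fun _ => []) k0 P

theorem inpF_val (k0 : K) (P : MP α (Γ k0)) (x : List α) (k : K) :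
    tapeOf ((inpF k0 P k).val x) = inp k0 (P.val x) k := by
  classical
  by_cases h : k = k0
  · subst h
    rw [inp_self]
    unfold inpF
    rw [Function.update_self]
  · rw [inp_ne _ _ _ h]
    unfold inpF
    rw [Function.update_of_ne h]
    rfl

end

theorem LINTIME.inv [Finite β] {L : Set (List α)} (P : MP β α) (h : LINTIME L) : LINTIME {x | P.val x ∈ L} := by
  obtain ⟨K, hK, Γ, hΓ, k0, emb, he, M, c, hM⟩ := h
  refine init_lintime (inpF k0 (P.comp fun a => [emb a])) _ ?_
  obtain ⟨C, hC⟩ := P.len
  refine ⟨M, c * (C + 1), fun x => ?_⟩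
  obtain ⟨n, hn, τ', b, hr, hb⟩ := hM (P.val x)
  refine ⟨n, hn.trans ?_, τ', b, ?_, hb⟩
  · have := hC x
    rw [mul_assoc]
    refine Nat.mul_le_mul_left c ?_
    nlinarith [Nat.zero_le x.length]
  · have e : (fun k => tapeOf ((inpF k0 (P.comp fun a => [emb a]) k).val x)) = inp k0 ((P.val x).map emb) := by
      funext k
      rw [inpF_val, MP.comp_val, flatMap_single]
    exact (congrArg (fun τ => Runs M τ n τ' b) e).mpr hr

theorem LINTIME.compl {L : Set (List α)} (h : LINTIME L) : LINTIME Lᶜ := by
  obtain ⟨K, hK, Γ, hΓ, k0, emb, he, M, c, hM⟩ := h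
  refine ⟨K, hK, Γ, hΓ, k0, emb, he, M.bind fun b => ret !b, c + 1, fun x => ?_⟩
  obtain ⟨n, hn, τ', b, hr, hb⟩ := hM x
  refine ⟨n + 1 + 0, by nlinarith [Nat.zero_le x.length], τ', !b, hr.bind (runs_ret _ _), ?_⟩
  rw [Set.mem_compl_iff, ← hb]
  cases b <;> simp

theorem LINTIME.inter [Finite α] {L₁ L₂ : Set (List α)} (h₁ : LINTIME L₁) (h₂ : LINTIME L₂) : LINTIME (L₁ ∩ L₂) := by
  obtain ⟨K₁, hK₁, Γ₁, hΓ₁, k₁, emb₁, he₁, M₁, c₁, hM₁⟩ := h₁
  obtain ⟨K₂, hK₂, Γ₂, hΓ₂, k₂, emb₂, he₂, M₂, c₂, hM₂⟩ := h₂
  have : ∀ k, Finite (Sum.elim Γ₁ Γ₂ k) := by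
    rintro (k | k)
    · exact hΓ₁ k
    · exact hΓ₂ k
  let F : (k : K₁ ⊕ K₂) → MP α (Sum.elim Γ₁ Γ₂ k) := fun k => match k with
    | Sum.inl k => inpF k₁ (MP.hom fun a => [emb₁ a]) k
    | Sum.inr k => inpF k₂ (MP.hom fun a => [emb₂ a]) k
  have hF : ∀ x, (fun k => tapeOf ((F k).val x)) = joinT (inp k₁ (x.map emb₁)) (inp k₂ (x.map emb₂)) := by
    intro x
    funext k
    rcases k with k | k
    · show tapeOf ((inpF k₁ (MP.hom fun a => [emb₁ a]) k).val x) = inp k₁ (x.map emb₁) k
      rw [inpF_val, MP.hom_val, flatMap_single]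
    · show tapeOf ((inpF k₂ (MP.hom fun a => [emb₂ a]) k).val x) = inp k₂ (x.map emb₂) k
      rw [inpF_val, MP.hom_val, flatMap_single]
  refine init_lintime F _ ⟨M₁.liftL.bind fun b => if b then M₂.liftR else ret false, c₁ + c₂ + 1, fun x => ?_⟩
  obtain ⟨n₁, hn₁, τ₁', b₁, hr₁, hb₁⟩ := hM₁ x
  obtain ⟨n₂, hn₂, τ₂', b₂, hr₂, hb₂⟩ := hM₂ x
  simp only [hF]
  rcases b₁ with _ | _
  · refine ⟨n₁ + 1 + 0, by nlinarith [Nat.zero_le x.length], _, false, (hr₁.liftL _).bind (runs_ret _ _), ?_⟩
    rw [Set.mem_inter_iff, ← hb₁]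
    simp
  · refine ⟨n₁ + 1 + n₂, by nlinarith [Nat.zero_le x.length], _, b₂, (hr₁.liftL _).bind (hr₂.liftR _), ?_⟩
    rw [Set.mem_inter_iff, ← hb₁, ← hb₂]
    simp

theorem LINTIME.union [Finite α] {L₁ L₂ : Set (List α)} (h₁ : LINTIME L₁) (h₂ : LINTIME L₂) : LINTIME (L₁ ∪ L₂) := by
  have h := (h₁.compl.inter h₂.compl).compl
  rwa [← Set.compl_union, compl_compl] at h

/-! ## Synchronous scanning -/

section scan

variable {K : Type} {Γ : K → Type} {Q : Type}

/-- the states of the scan -/
def srun (δ : Q → ((k : K) → Option (Γ k)) → Q) (w : (k : K) → List (Γ k)) : ℕ → ℕ → Q → Q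
  | 0, _, q => q
  | d + 1, i, q => srun δ w d (i + 1) (δ q fun k => (w k)[i]?)

open Classical in
/-- the machine which scans all tapes -/
noncomputable def scanM [Finite Q] (δ : Q → ((k : K) → Option (Γ k)) → Q) (acc : Q → Bool) (q0 : Q) : TM K Γ where
  S := Q ⊕ Bool
  fin := inferInstance
  start := Sum.inl q0
  out := fun q => match q with
    | Sum.inl _ => none
    | Sum.inr b => some b
  step := fun q v => match q with
    | Sum.inl q => if ∀ k, v k = none then (Sum.inr (acc q), fun k => (v k, Dir.stay))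
      else (Sum.inl (δ q v), fun k => (v k, Dir.right))
    | Sum.inr b => (Sum.inr b, fun k => (v k, Dir.stay))

theorem scan_steps [Finite Q] (δ : Q → ((k : K) → Option (Γ k)) → Q) (acc : Q → Bool) (q0 : Q)
    (w : (k : K) → List (Γ k)) (l : ℕ) (h1 : ∀ k, (w k).length ≤ l) (h2 : ∀ i < l, ∃ k, i < (w k).length) :
    ∀ d i : ℕ, i + d = l → ∀ q, Steps (scanM δ acc q0) (d + 1) (Sum.inl q, fun k => tp (w k) i)
      (Sum.inr (acc (srun δ w d i q)), fun k => tp (w k) l) := by
  intro d
  induction d with
  | zero =>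
    intro i hi q
    have hi2 : i = l := by omega
    subst hi2
    refine Steps.one rfl ?_
    have h3 : ∀ k, tp (w k) (i : ℤ) 0 = none := by
      intro k
      rw [tp_head]
      exact List.getElem?_eq_none (h1 k)
    simp only [TM.next, scanM, h3, implies_true, if_true, srun]
    refine Prod.ext rfl ?_
    funext k
    have := wm_stay (tp (w k) (i : ℤ))
    rw [h3 k] at this
    exact this
  | succ d ih =>
    intro i hi q
    refine Steps.succ (d + 1) _ _ rfl ?_
    obtain ⟨k0, hk0⟩ := h2 i (by omega)
    have h3 : ¬ ∀ k, tp (w k) (i : ℤ) 0 = none := by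
      intro h
      have h4 := h k0
      rw [tp_head, List.getElem?_eq_getElem hk0] at h4
      simp at h4
    have h5 : (scanM δ acc q0).next (Sum.inl q, fun k => tp (w k) i) =
        (Sum.inl (δ q fun k => (w k)[i]?), fun k => tp (w k) ((i + 1 : ℕ) : ℤ)) := by
      simp only [TM.next, scanM, h3, if_false]
      refine Prod.ext ?_ ?_
      · simp only [tp_head]
      · funext k
        simp only
        rw [tp_right]
        congr 1
    rw [h5]
    exact ih (i + 1) (by omega) _

theorem scan_lintime [Finite α] [Finite K] [∀ k, Finite (Γ k)] [Finite Q] (F : (k : K) → MP α (Γ k))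
    (δ : Q → ((k : K) → Option (Γ k)) → Q) (acc : Q → Bool) (q0 : Q) (l : List α → ℕ)
    (h1 : ∀ x k, ((F k).val x).length ≤ l x) (h2 : ∀ x, ∀ i < l x, ∃ k, i < ((F k).val x).length) :
    LINTIME {x | acc (srun δ (fun k => (F k).val x) (l x) 0 q0) = true} := by
  refine init_lintime F _ ⟨scanM δ acc q0, ?_⟩
  obtain ⟨C, hC⟩ := Finite.exists_le fun k => (F k).len.choose
  refine ⟨C + 1, fun x => ⟨l x + 1, ?_, fun k => tp ((F k).val x) (l x), acc (srun δ (fun k => (F k).val x) (l x) 0 q0),
    ⟨Sum.inr (acc (srun δ (fun k => (F k).val x) (l x) 0 q0)), ?_, rfl⟩, ?_⟩⟩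
  · rcases Nat.eq_zero_or_pos (l x) with h | h
    · rw [h]
      nlinarith [Nat.zero_le x.length, Nat.zero_le C]
    · obtain ⟨k, hk⟩ := h2 x (l x - 1) (by omega)
      have h3 := (F k).len.choose_spec x
      have h4 := hC k
      have h5 : (F k).len.choose * (x.length + 1) ≤ C * (x.length + 1) := Nat.mul_le_mul_right _ h4
      have h6 : l x ≤ C * (x.length + 1) := (by omega : l x ≤ ((F k).val x).length).trans (h3.trans h5)
      rw [add_mul, one_mul]
      linarith [Nat.zero_le x.length]
  · have h3 := scan_steps δ acc q0 (fun k => (F k).val x) (l x) (h1 x) (h2 x) (l x) 0 (by omega) q0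
    simp only [Nat.cast_zero, tp_zero] at h3
    exact h3
  · exact Iff.rfl

end scan

/-- Equality of two multi-pass homomorphisms. -/
theorem lintime_eq [Finite α] [Finite β] (f g : MP α β) : LINTIME {x : List α | f.val x = g.val x} := by
  classical
  have h := scan_lintime (α := α) (K := Bool) (Γ := fun _ => β) (Q := Bool) (fun k => if k then f else g)
    (fun q v => q && decide (v true = v false)) (fun q => q) true (fun x => max (f.val x).length (g.val x).length)
    (by
      intro x k
      cases k <;> simp)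
    (by
      intro x i hi
      rcases lt_max_iff.1 hi with h | h
      · exact ⟨true, by simpa using h⟩
      · exact ⟨false, by simpa using h⟩)
  have key : ∀ (w : (k : Bool) → List β) (d i : ℕ) (q : Bool),
      (srun (fun q (v : (k : Bool) → Option β) => q && decide (v true = v false)) w d i q = true ↔
        q = true ∧ ∀ j, i ≤ j → j < i + d → (w true)[j]? = (w false)[j]?) := by
    intro w d
    induction d with
    | zero =>
      intro i q
      simp only [srun]
      constructor
      · intro h
        exact ⟨h, fun j h1 h2 => by omega⟩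
      · exact fun h => h.1
    | succ d ih =>
      intro i q
      simp only [srun]
      rw [ih]
      simp only [Bool.and_eq_true, decide_eq_true_eq]
      constructor
      · rintro ⟨⟨h1, h2⟩, h3⟩
        refine ⟨h1, fun j hj hj2 => ?_⟩
        rcases Nat.eq_or_lt_of_le hj with h4 | h4
        · rw [← h4]
          exact h2
        · exact h3 j h4 (by omega)
      · rintro ⟨h1, h2⟩
        exact ⟨⟨h1, h2 i le_rfl (by omega)⟩, fun j hj hj2 => h2 j (by omega) (by omega)⟩
  have e : {x : List α | f.val x = g.val x} = {x | (fun q => q) (srun (fun q (v : (k : Bool) → Option β) => q && decide (v true = v false))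
      (fun k => (if k = true then f else g).val x) (max (f.val x).length (g.val x).length) 0 true) = true} := by
    ext x
    change f.val x = g.val x ↔ srun (fun q (v : (k : Bool) → Option β) => q && decide (v true = v false)) (fun k => (if k = true then f else g).val x) (max (f.val x).length (g.val x).length) 0 true = true
    rw [key]
    simp only [if_true, Bool.false_eq_true, if_false, true_and, Nat.zero_le, forall_const, zero_add]
    constructor
    · intro h j _
      rw [h]
    · intro h
      refine List.ext_getElem? fun j => ?_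
      rcases lt_or_ge j (max (f.val x).length (g.val x).length) with h1 | h1
      · exact h j h1
      · rw [List.getElem?_eq_none ((le_max_left _ _).trans h1), List.getElem?_eq_none ((le_max_right _ _).trans h1)]
  rw [e]
  exact h

end Pool.Agent.Lin
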