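import Pool.Agent.Lib.MP_dee884_lc.Comb

/-!
# One pass of a homomorphism
-/

set_option autoImplicit false

namespace Pool.Agent.Lin

variable {α : Type} {K : Type} {Γ : K → Type}

/-- the alphabets of the machines with the input tape `inl ()` -/
abbrev GI (α : Type) (Γ : K → Type) : Unit ⊕ K → Type := Sum.elim (fun _ => α) Γ

/-- Read the input from left to right; for every letter `a` append the word `W k (some a)` to the tape `k`, for the blank at the end `W k none`. -/
def pass [Finite α] (W : (k : K) → Option α → List (Γ k)) (N : ℕ) : TM (Unit ⊕ K) (GI α Γ) where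
  S := Unit ⊕ ((Option α × Fin (N + 1)) ⊕ Unit)
  fin := inferInstance
  start := Sum.inl ()
  out := fun q => match q with
    | Sum.inr (Sum.inr _) => some true
    | _ => none
  step := fun q v => match q with
    | Sum.inl _ => (Sum.inr (Sum.inl (v (Sum.inl ()), 0)), fun k => (v k, Dir.stay))
    | Sum.inr (Sum.inl (o, r)) =>
      if h : r.val < N then
        (Sum.inr (Sum.inl (o, ⟨r.val + 1, by omega⟩)), fun k => match k with
          | Sum.inl u => (v (Sum.inl u), Dir.stay)
          | Sum.inr k => match (W k o)[r.val]? with
            | some g => (some g, Dir.right)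
            | none => (v (Sum.inr k), Dir.stay))
      else match o with
        | some _ => (Sum.inl (), fun k => (v k, match k with
          | Sum.inl _ => Dir.right
          | Sum.inr _ => Dir.stay))
        | none => (Sum.inr (Sum.inr ()), fun k => (v k, Dir.stay))
    | Sum.inr (Sum.inr _) => (Sum.inr (Sum.inr ()), fun k => (v k, Dir.stay))

variable [Finite α] (W : (k : K) → Option α → List (Γ k)) (N : ℕ)

theorem pass_write (hN : ∀ k o, (W k o).length ≤ N) (o : Option α) (t : Tp α) (w : (k : K) → List (Γ k)) :
    ∀ d r : ℕ, (hr : r < N + 1) → r + d = N →
    Steps (pass W N) d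
      (Sum.inr (Sum.inl (o, ⟨r, hr⟩)), joinT (fun _ => t) fun k => tp (w k ++ (W k o).take r) (w k ++ (W k o).take r).length)
      (Sum.inr (Sum.inl (o, ⟨N, Nat.lt_succ_self N⟩)), joinT (fun _ => t) fun k => tp (w k ++ W k o) (w k ++ W k o).length) := by
  intro d
  induction d with
  | zero =>
    intro r hr hd
    have h1 : r = N := by omega
    subst h1
    have h2 : ∀ k, (W k o).take r = W k o := fun k => List.take_of_length_le (hN k o)
    simp only [h2]
    exact Steps.zero _
  | succ d ih =>
    intro r hr hd
    refine Steps.succ d _ _ rfl ?_
    have h1 : r < N := by omega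
    have h2 : (pass W N).next (Sum.inr (Sum.inl (o, ⟨r, hr⟩)), joinT (fun _ => t) fun k =>
        tp (w k ++ (W k o).take r) (w k ++ (W k o).take r).length) =
        (Sum.inr (Sum.inl (o, ⟨r + 1, by omega⟩)), joinT (fun _ => t) fun k =>
        tp (w k ++ (W k o).take (r + 1)) (w k ++ (W k o).take (r + 1)).length) := by
      simp only [TM.next, pass, h1, dif_pos]
      refine Prod.ext rfl ?_
      funext k
      rcases k with k | k
      · exact wm_stay _
      · simp only [joinT]
        rcases h3 : (W k o)[r]? with _ | g
        · have h4 : (W k o).length ≤ r := by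
            rcases lt_or_ge r (W k o).length with h | h
            · rw [List.getElem?_eq_getElem h] at h3
              simp at h3
            · exact h
          rw [List.take_of_length_le h4, List.take_of_length_le (by omega)]
          exact wm_stay _
        · have h4 : (W k o).take (r + 1) = (W k o).take r ++ [g] := by
            rw [List.take_add_one, h3]
            rfl
          rw [h4, ← List.append_assoc]
          exact tp_write _ _
    rw [h2]
    exact ih (r + 1) (by omega) (by omega)

theorem pass_main (hN : ∀ k o, (W k o).length ≤ N) : ∀ (z y : List α) (w : (k : K) → List (Γ k)),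
    Steps (pass W N) ((N + 2) * (z.length + 1))
      (Sum.inl (), joinT (fun _ => tp (y ++ z) y.length) fun k => tp (w k) (w k).length)
      (Sum.inr (Sum.inr ()), joinT (fun _ => tp (y ++ z) (y ++ z).length) fun k =>
        tp (w k ++ z.flatMap (fun a => W k (some a)) ++ W k none)
          (w k ++ z.flatMap (fun a => W k (some a)) ++ W k none).length) := by
  intro z
  induction z with
  | nil =>
    intro y w
    have h0 : (N + 2) * (([] : List α).length + 1) = 1 + (N + 1) := by simp; ring
    rw [h0]
    refine (Steps.one (c' := (Sum.inr (Sum.inl (none, 0)), joinT (fun _ => tp (y ++ []) y.length) fun k =>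
      tp (w k) (w k).length)) rfl ?_).trans ?_
    · simp only [TM.next, pass]
      refine Prod.ext ?_ ?_
      · have h1 : (tp y (y.length : ℤ)) 0 = none := by
          rw [tp_head]
          simp
        simp [joinT, h1]
      · funext k
        exact wm_stay _
    · have h2 := pass_write W N hN none (tp (y ++ []) y.length) w N 0 (by omega) (by omega)
      simp only [List.take_zero, List.append_nil] at h2
      simp only [List.append_nil, List.flatMap_nil]
      refine h2.trans (Steps.one rfl ?_)
      simp only [TM.next, pass, lt_irrefl, dif_neg, not_false_eq_true]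
      refine Prod.ext rfl ?_
      funext k
      exact wm_stay _
  | cons a z ih =>
    intro y w
    have h0 : (N + 2) * ((a :: z).length + 1) = 1 + (N + 1) + (N + 2) * (z.length + 1) := by
      simp only [List.length_cons]
      ring
    rw [h0]
    have e1 : y ++ a :: z = (y ++ [a]) ++ z := by simp
    have h3 := ih (y ++ [a]) (fun k => w k ++ W k (some a))
    have e2 : ∀ k, w k ++ W k (some a) ++ z.flatMap (fun a => W k (some a)) ++ W k none =
        w k ++ (a :: z).flatMap (fun a => W k (some a)) ++ W k none := by
      intro k
      simp [List.flatMap_cons, List.append_assoc]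
    simp only [e2] at h3
    rw [← e1] at h3
    refine Steps.trans ?_ h3
    refine (Steps.one (c' := (Sum.inr (Sum.inl (some a, 0)), joinT (fun _ => tp (y ++ a :: z) y.length) fun k =>
      tp (w k) (w k).length)) rfl ?_).trans ?_
    · simp only [TM.next, pass]
      refine Prod.ext ?_ ?_
      · have h1 : (tp (y ++ a :: z) (y.length : ℤ)) 0 = some a := by
          rw [tp_head]
          simp
        simp [joinT, h1]
      · funext k
        exact wm_stay _
    · have h2 := pass_write W N hN (some a) (tp (y ++ a :: z) y.length) w N 0 (by omega) (by omega)
      simp only [List.take_zero, List.append_nil] at h2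
      refine h2.trans (Steps.one rfl ?_)
      simp only [TM.next, pass, lt_irrefl, dif_neg, not_false_eq_true]
      refine Prod.ext rfl ?_
      funext k
      rcases k with k | k
      · refine (tp_right (y ++ a :: z) (y.length : ℤ)).trans ?_
        simp [joinT]
      · exact wm_stay _

theorem runs_pass (hN : ∀ k o, (W k o).length ≤ N) (x : List α) (w : (k : K) → List (Γ k)) :
    Runs (pass W N) (joinT (fun _ => tp x 0) fun k => tp (w k) (w k).length) ((N + 2) * (x.length + 1))
      (joinT (fun _ => tp x x.length) fun k =>
        tp (w k ++ x.flatMap (fun a => W k (some a)) ++ W k none)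
          (w k ++ x.flatMap (fun a => W k (some a)) ++ W k none).length) true := by
  have h := pass_main W N hN x [] w
  simp only [List.nil_append, List.length_nil, Nat.cast_zero] at h
  exact ⟨_, h, rfl⟩

end Pool.Agent.Lin
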