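import Pool.Agent.Lib.MP_dee884_lc.RegOps

/-!
# The rational closure of linear time
-/

set_option autoImplicit false

namespace Pool.Agent.Lin

/-! ## More closure properties of linear time -/

section lin

variable {α : Type}

theorem LINTIME.congr {X Y : Set (List α)} (h : LINTIME X) (e : ∀ x, x ∈ Y ↔ x ∈ X) : LINTIME Y := by
  have : Y = X := Set.ext e
  rwa [this]

theorem LINTIME.not {p : List α → Prop} (h : LINTIME {x | p x}) : LINTIME {x | ¬ p x} :=
  h.compl

variable [Finite α]

theorem lintime_true : LINTIME {_x : List α | True} :=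
  (lintime_eq (MP.id : MP α α) MP.id).congr fun x => by simp

theorem LINTIME.const (c : Prop) : LINTIME {_x : List α | c} := by
  by_cases h : c
  · exact lintime_true.congr fun x => by simp [h]
  · exact (lintime_true (α := α)).compl.congr fun x => by simp [h]

theorem LINTIME.and {p q : List α → Prop} (h : LINTIME {x | p x}) (h' : LINTIME {x | q x}) : LINTIME {x | p x ∧ q x} :=
  h.inter h'

theorem LINTIME.or {p q : List α → Prop} (h : LINTIME {x | p x}) (h' : LINTIME {x | q x}) : LINTIME {x | p x ∨ q x} :=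
  h.union h'

theorem LINTIME.allList {ι : Type} (l : List ι) {p : ι → List α → Prop} (h : ∀ i, LINTIME {x | p i x}) :
    LINTIME {x | ∀ i ∈ l, p i x} := by
  induction l with
  | nil => exact lintime_true.congr fun x => by simp
  | cons i l ih =>
    exact ((h i).and ih).congr fun x => by simp

theorem LINTIME.all {ι : Type} [Finite ι] {p : ι → List α → Prop} (h : ∀ i, LINTIME {x | p i x}) :
    LINTIME {x | ∀ i, p i x} := by
  have := Fintype.ofFinite ι
  exact (LINTIME.allList (Finset.univ : Finset ι).toList h).congr fun x => by simp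

/-- the first letter satisfies `p` -/
def FirstIs (p : α → Prop) (x : List α) : Prop := ∃ a u, x = a :: u ∧ p a

theorem lintime_lastIs (p : α → Prop) : LINTIME {x : List α | LastIs p x} := by
  classical
  refine (lintime_dfa (Q := Prop) (fun _ a => p a) False fun q => q).congr fun x => ?_
  change LastIs p x ↔ x.foldl (fun _ a => p a) False
  rw [lastIs_foldl]
  simp

theorem lintime_firstIs (p : α → Prop) : LINTIME {x : List α | FirstIs p x} := by
  classical
  refine (lintime_dfa (Q := Option Prop) (fun q a => match q with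
    | none => some (p a)
    | some q => some q) none fun q => q = some True).congr fun x => ?_
  change FirstIs p x ↔ x.foldl _ none = some True
  have key : ∀ (x : List α) (q : Prop), x.foldl (fun (q : Option Prop) a => match q with
    | none => some (p a)
    | some q => some q) (some q) = some q := by
    intro x q
    induction x with
    | nil => rfl
    | cons a x ih => exact ih
  rcases x with _ | ⟨a, x⟩
  · simp [FirstIs]
  · rw [List.foldl_cons, key]
    simp only [FirstIs, List.cons.injEq, Option.some.injEq]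
    constructor
    · rintro ⟨b, u, ⟨rfl, rfl⟩, h⟩
      exact eq_true h
    · intro h
      exact ⟨a, x, ⟨rfl, rfl⟩, of_eq_true h⟩

end lin

/-! ## The rational closure -/

/-- The rational closure of `LINTIME`. -/
inductive Rat {α : Type} : Set (List α) → Prop
  | base (L : Set (List α)) : LINTIME L → Rat L
  | union (A B : Set (List α)) : Rat A → Rat B → Rat (A ∪ B)
  | cat (A B : Set (List α)) : Rat A → Rat B → Rat (cat A B)
  | star (A : Set (List α)) : Rat A → Rat (star A)

/-- paths of an automaton with transitions labelled with languages -/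
inductive Path {α S : Type} (A : S → S → Set (List α)) : S → List α → S → Prop
  | nil (p : S) : Path A p [] p
  | cons (p q r : S) (u v : List α) : u ∈ A p q → Path A q v r → Path A p (u ++ v) r

theorem Path.trans {α S : Type} {A : S → S → Set (List α)} {p q r : S} {u v : List α} (h : Path A p u q) (h' : Path A q v r) :
    Path A p (u ++ v) r := by
  induction h with
  | nil p => exact h'
  | cons p q r' u1 u2 h1 _ ih =>
    rw [List.append_assoc]
    exact Path.cons _ _ _ _ _ h1 (ih h')

theorem Path.single {α S : Type} {A : S → S → Set (List α)} {p q : S} {u : List α} (h : u ∈ A p q) : Path A p u q := by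
  have := Path.cons p q q u [] h (Path.nil q)
  rwa [List.append_nil] at this

theorem Path.map {α S S' : Type} {A : S → S → Set (List α)} {A' : S' → S' → Set (List α)} (f : S → S')
    (hf : ∀ p q, A p q ⊆ A' (f p) (f q)) {p q : S} {u : List α} (h : Path A p u q) : Path A' (f p) u (f q) := by
  induction h with
  | nil p => exact Path.nil _
  | cons p q r u v h1 _ ih => exact Path.cons _ _ _ _ _ (hf _ _ h1) ih

/-- languages of automata with transitions in `LINTIME` -/
def GA {α : Type} (R : Set (List α)) : Prop :=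
  ∃ (S : Type) (_ : Finite S) (A : S → S → Set (List α)) (I F : Set S), (∀ p q, LINTIME (A p q)) ∧
    ∀ x, x ∈ R ↔ ∃ p ∈ I, ∃ q ∈ F, Path A p x q

theorem lintime_nil {α : Type} [Finite α] : LINTIME {x : List α | x = []} := by
  refine (lintime_eq (MP.id : MP α α) []).congr fun x => ?_
  change x = [] ↔ MP.id.val x = MP.val [] x
  rw [MP.id_val]
  rfl

theorem GA.base {α : Type} [Finite α] {R : Set (List α)} (h : LINTIME R) : GA R := by
  refine ⟨Bool, inferInstance, fun p q => {x | p = false ∧ q = true ∧ x ∈ R}, {false}, {true}, fun p q =>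
    (LINTIME.const _).and ((LINTIME.const _).and h), fun x => ⟨fun hx => ⟨false, rfl, true, rfl, Path.single ⟨rfl, rfl, hx⟩⟩, ?_⟩⟩
  rintro ⟨p, hp, q, hq, h⟩
  rw [Set.mem_singleton_iff] at hp hq
  subst hp
  subst hq
  rcases h with _ | ⟨_, q, _, u, v, h1, h2⟩
  obtain ⟨_, rfl, hu⟩ := h1
  rcases h2 with _ | ⟨_, q, _, u', v', h3, h4⟩
  · rw [List.append_nil]
    exact hu
  · exact absurd h3.1 (by simp)

theorem GA.union {α : Type} [Finite α] {R R' : Set (List α)} (h : GA R) (h' : GA R') : GA (R ∪ R') := by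
  obtain ⟨S, hS, A, I, F, hA, hR⟩ := h
  obtain ⟨S', hS', A', I', F', hA', hR'⟩ := h'
  let B : S ⊕ S' → S ⊕ S' → Set (List α) := fun p q => match p, q with
    | Sum.inl p, Sum.inl q => A p q
    | Sum.inr p, Sum.inr q => A' p q
    | Sum.inl _, Sum.inr _ => {_x | False}
    | Sum.inr _, Sum.inl _ => {_x | False}
  have k1 : ∀ {p q : S ⊕ S'} {x : List α}, Path B p x q → (∀ p0, p = Sum.inl p0 → ∃ q0, q = Sum.inl q0 ∧ Path A p0 x q0) ∧
      (∀ p0, p = Sum.inr p0 → ∃ q0, q = Sum.inr q0 ∧ Path A' p0 x q0) := by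
    intro p q x h
    induction h with
    | nil p => exact ⟨fun p0 hp => ⟨p0, hp, Path.nil _⟩, fun p0 hp => ⟨p0, hp, Path.nil _⟩⟩
    | cons p q r u v h1 _ ih =>
      refine ⟨fun p0 hp => ?_, fun p0 hp => ?_⟩
      · subst hp
        rcases q with q | q
        · obtain ⟨r0, hr, h2⟩ := ih.1 q rfl
          exact ⟨r0, hr, Path.cons _ _ _ _ _ h1 h2⟩
        · exact absurd h1 (by intro h; exact h)
      · subst hp
        rcases q with q | q
        · exact absurd h1 (by intro h; exact h)
        · obtain ⟨r0, hr, h2⟩ := ih.2 q rfl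
          exact ⟨r0, hr, Path.cons _ _ _ _ _ h1 h2⟩
  refine ⟨S ⊕ S', inferInstance, B, Sum.inl '' I ∪ Sum.inr '' I', Sum.inl '' F ∪ Sum.inr '' F', ?_, fun x => ?_⟩
  · rintro (p | p) (q | q)
    · exact hA p q
    · exact LINTIME.const False
    · exact LINTIME.const False
    · exact hA' p q
  · rw [Set.mem_union, hR, hR']
    constructor
    · rintro (⟨p, hp, q, hq, h⟩ | ⟨p, hp, q, hq, h⟩)
      · exact ⟨Sum.inl p, Or.inl ⟨p, hp, rfl⟩, Sum.inl q, Or.inl ⟨q, hq, rfl⟩, h.map Sum.inl fun _ _ => Set.Subset.rfl⟩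
      · exact ⟨Sum.inr p, Or.inr ⟨p, hp, rfl⟩, Sum.inr q, Or.inr ⟨q, hq, rfl⟩, h.map Sum.inr fun _ _ => Set.Subset.rfl⟩
    · rintro ⟨p, hp, q, hq, h⟩
      rcases hp with ⟨p, hp, rfl⟩ | ⟨p, hp, rfl⟩
      · obtain ⟨q0, rfl, h2⟩ := (k1 h).1 p rfl
        rcases hq with ⟨q, hq, e⟩ | ⟨q, hq, e⟩
        · have e2 : q = q0 := by simpa using e
          subst e2
          exact Or.inl ⟨p, hp, q, hq, h2⟩
        · simp at e
      · obtain ⟨q0, rfl, h2⟩ := (k1 h).2 p rfl
        rcases hq with ⟨q, hq, e⟩ | ⟨q, hq, e⟩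
        · simp at e
        · have e2 : q = q0 := by simpa using e
          subst e2
          exact Or.inr ⟨p, hp, q, hq, h2⟩

theorem GA.cat {α : Type} [Finite α] {R R' : Set (List α)} (h : GA R) (h' : GA R') : GA (cat R R') := by
  obtain ⟨S, hS, A, I, F, hA, hR⟩ := h
  obtain ⟨S', hS', A', I', F', hA', hR'⟩ := h'
  let B : S ⊕ S' → S ⊕ S' → Set (List α) := fun p q => match p, q with
    | Sum.inl p, Sum.inl q => A p q
    | Sum.inr p, Sum.inr q => A' p q
    | Sum.inl p, Sum.inr q => {x | (p ∈ F ∧ q ∈ I') ∧ x = []}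
    | Sum.inr _, Sum.inl _ => {_x | False}
  have k1 : ∀ {p q : S ⊕ S'} {x : List α}, Path B p x q → (∀ p0 q0, p = Sum.inr p0 → q = Sum.inr q0 → Path A' p0 x q0) ∧
      (∀ p0 q0, p = Sum.inl p0 → q = Sum.inr q0 → ∃ u v p1 q1, u ++ v = x ∧ p1 ∈ F ∧ q1 ∈ I' ∧ Path A p0 u p1 ∧ Path A' q1 v q0) := by
    intro p q x h
    induction h with
    | nil p =>
      refine ⟨fun p0 q0 hp hq => ?_, fun p0 q0 hp hq => ?_⟩
      · rw [hp] at hq
        have e : p0 = q0 := by simpa using hq
        rw [e]
        exact Path.nil _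
      · rw [hp] at hq
        simp at hq
    | cons p q r u v h1 _ ih =>
      refine ⟨fun p0 r0 hp hr => ?_, fun p0 r0 hp hr => ?_⟩
      · subst hp
        rcases q with q | q
        · exact absurd h1 (by intro h; exact h)
        · exact Path.cons _ _ _ _ _ h1 (ih.1 q r0 rfl hr)
      · subst hp
        rcases q with q | q
        · obtain ⟨u', v', p1, q1, e, g1, g2, g3, g4⟩ := ih.2 q r0 rfl hr
          exact ⟨u ++ u', v', p1, q1, by rw [List.append_assoc, e], g1, g2, Path.cons _ _ _ _ _ h1 g3, g4⟩
        · obtain ⟨⟨g1, g2⟩, rfl⟩ := h1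
          exact ⟨[], v, p0, q, rfl, g1, g2, Path.nil _, ih.1 q r0 rfl hr⟩
  refine ⟨S ⊕ S', inferInstance, B, Sum.inl '' I, Sum.inr '' F', ?_, fun x => ?_⟩
  · rintro (p | p) (q | q)
    · exact hA p q
    · exact (LINTIME.const _).and lintime_nil
    · exact LINTIME.const False
    · exact hA' p q
  · constructor
    · rintro ⟨u, hu, v, hv, rfl⟩
      obtain ⟨p, hp, q, hq, h⟩ := (hR u).1 hu
      obtain ⟨p', hp', q', hq', h'⟩ := (hR' v).1 hv
      refine ⟨Sum.inl p, ⟨p, hp, rfl⟩, Sum.inr q', ⟨q', hq', rfl⟩, ?_⟩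
      have h1 : Path B (Sum.inl p) u (Sum.inl q) := h.map Sum.inl fun _ _ => Set.Subset.rfl
      have h2 : Path B (Sum.inr p') v (Sum.inr q') := h'.map Sum.inr fun _ _ => Set.Subset.rfl
      have h3 : Path B (Sum.inl q) ([] ++ v) (Sum.inr q') := Path.cons _ (Sum.inr p') _ _ _ (show _ ∧ _ from ⟨⟨hq, hp'⟩, rfl⟩) h2
      exact h1.trans h3
    · rintro ⟨_, ⟨p, hp, rfl⟩, _, ⟨q, hq, rfl⟩, h⟩
      obtain ⟨u, v, p1, q1, e, g1, g2, g3, g4⟩ := (k1 h).2 p q rfl rfl
      exact ⟨u, (hR u).2 ⟨p, hp, p1, g1, g3⟩, v, (hR' v).2 ⟨q1, g2, q, hq, g4⟩, e⟩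

theorem ga_star {α : Type} [Finite α] {R : Set (List α)} (h : GA R) : GA (star R) := by
  obtain ⟨S, hS, A, I, F, hA, hR⟩ := h
  let B : Option S → Option S → Set (List α) := fun p q => match p, q with
    | some p, some q => {x | x ∈ A p q ∨ ((p ∈ F ∧ q ∈ I) ∧ x = [])}
    | _, _ => {_x | False}
  have k1 : ∀ {p q : Option S} {x : List α}, Path B p x q → ∀ p0 q0, p = some p0 → q = some q0 → q0 ∈ F →
      ∃ u v, u ++ v = x ∧ (∃ p1 ∈ F, Path A p0 u p1) ∧ v ∈ star R := by
    intro p q x h
    induction h with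
    | nil p =>
      intro p0 q0 hp hq hF
      rw [hp] at hq
      have e : p0 = q0 := by simpa using hq
      rw [e]
      exact ⟨[], [], rfl, ⟨q0, hF, Path.nil _⟩, [], by simp, rfl⟩
    | cons p q r u v h1 _ ih =>
      intro p0 r0 hp hr hF
      subst hp
      rcases q with _ | q
      · exact absurd h1 (by intro h; exact h)
      · obtain ⟨u', v', e, ⟨p1, hp1, hp2⟩, l, hl1, hl2⟩ := ih q r0 rfl hr hF
        rcases h1 with h1 | ⟨⟨h1, h2⟩, rfl⟩
        · exact ⟨u ++ u', v', by rw [List.append_assoc, e], ⟨p1, hp1, Path.cons _ _ _ _ _ h1 hp2⟩, l, hl1, hl2⟩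
        · refine ⟨[], v, rfl, ⟨p0, h1, Path.nil _⟩, u' :: l, ?_, ?_⟩
          · intro y hy
            rcases List.mem_cons.1 hy with rfl | hy
            · exact (hR y).2 ⟨q, h2, p1, hp1, hp2⟩
            · exact hl1 y hy
          · rw [List.flatten_cons, hl2, e]
  refine ⟨Option S, inferInstance, B, insert none (some '' I), insert none (some '' F), ?_, fun x => ?_⟩
  · rintro (_ | p) (_ | q)
    · exact LINTIME.const False
    · exact LINTIME.const False
    · exact LINTIME.const False
    · exact (hA p q).or ((LINTIME.const _).and lintime_nil)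
  · constructor
    · rintro ⟨l, hl, rfl⟩
      -- nonempty lists
      have k2 : ∀ (l : List (List α)), l ≠ [] → (∀ y ∈ l, y ∈ R) → ∃ p ∈ I, ∃ q ∈ F, Path B (some p) l.flatten (some q) := by
        intro l
        induction l with
        | nil => intro h; exact absurd rfl h
        | cons y l ih =>
          intro _ hl
          obtain ⟨p, hp, q, hq, h⟩ := (hR y).1 (hl y List.mem_cons_self)
          have h1 : Path B (some p) y (some q) := h.map some fun _ _ _ hx => Or.inl hx
          by_cases hn : l = []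
          · subst hn
            refine ⟨p, hp, q, hq, ?_⟩
            simpa using h1
          · obtain ⟨p', hp', q', hq', h'⟩ := ih hn fun y hy => hl y (List.mem_cons_of_mem _ hy)
            refine ⟨p, hp, q', hq', ?_⟩
            rw [List.flatten_cons]
            have h3 : Path B (some q) ([] ++ l.flatten) (some q') :=
              Path.cons _ (some p') _ _ _ (Or.inr ⟨⟨hq, hp'⟩, rfl⟩ : _ ∨ _) h'
            exact h1.trans h3
      by_cases hn : l = []
      · subst hn
        exact ⟨none, Or.inl rfl, none, Or.inl rfl, Path.nil _⟩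
      · obtain ⟨p, hp, q, hq, h⟩ := k2 l hn hl
        exact ⟨some p, Or.inr ⟨p, hp, rfl⟩, some q, Or.inr ⟨q, hq, rfl⟩, h⟩
    · rintro ⟨p, hp, q, hq, h⟩
      rcases hp with rfl | ⟨p, hp, rfl⟩
      · rcases h with _ | ⟨_, q', _, u, v, h1, h2⟩
        · exact ⟨[], by simp, rfl⟩
        · exact absurd h1 (by intro h; exact h)
      · rcases hq with rfl | ⟨q, hq, rfl⟩
        · exfalso
          have k3 : ∀ {p q : Option S} {x : List α}, Path B p x q → q = none → p = none := by
            intro p q x h
            induction h with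
            | nil p => exact fun h => h
            | cons p q r u v h1 _ ih =>
              intro hr
              have hq := ih hr
              subst hq
              rcases p with _ | p
              · rfl
              · exact absurd h1 (by intro h; exact h)
          have := k3 h rfl
          simp at this
        · obtain ⟨u, v, e, ⟨p1, hp1, hp2⟩, l, hl1, hl2⟩ := k1 h p q rfl rfl hq
          refine ⟨u :: l, ?_, by rw [List.flatten_cons, hl2, e]⟩
          intro y hy
          rcases List.mem_cons.1 hy with rfl | hy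
          · exact (hR y).2 ⟨p, hp, p1, hp1, hp2⟩
          · exact hl1 y hy

theorem Rat.ga {α : Type} [Finite α] {R : Set (List α)} (h : Rat R) : GA R := by
  induction h with
  | base L h => exact GA.base h
  | union A B _ _ ih ih' => exact GA.union ih ih'
  | cat A B _ _ ih ih' => exact GA.cat ih ih'
  | star A _ ih => exact ga_star ih

end Pool.Agent.Lin
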