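import Pool.Agent.Lib.MP_dee884_lc.RatOps

/-!
# Complements of the rational closure of linear time
-/

set_option autoImplicit false

namespace Pool.Agent.Lin

/-- iterations -/
def PStarL : Prop := ∀ (α : Type) [Finite α] (A : Set (List α)), LINTIME A → InQ (star A)ᶜ

/-- products of three languages -/
def PCat3L : Prop := ∀ (α : Type) [Finite α] (A B C : Set (List α)), LINTIME A → LINTIME B → LINTIME C → InQ (cat (cat A B) C)ᶜ

/-- all factors -/
def PFacL : Prop := ∀ (α : Type) [Finite α] (L : Set (List α)), LINTIME L → InQ {x | ∀ u, u <:+: x → u ∈ L}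

/-- the rational closure -/
def PRatL : Prop := ∀ (α : Type) [Finite α] (R : Set (List α)), Rat R → InQ Rᶜ

theorem PFacL_of_PCat3L (h : PCat3L) : PFacL := by
  intro α _ L hL
  have hU : LINTIME (Set.univ : Set (List α)) := lintime_true
  refine (h _ _ _ _ hU hL.compl hU).congr fun x => ?_
  change (∀ u, u <:+: x → u ∈ L) ↔ ¬ ∃ w ∈ cat Set.univ Lᶜ, ∃ v ∈ Set.univ, w ++ v = x
  constructor
  · rintro h2 ⟨w, ⟨s, _, u, hu, rfl⟩, t, _, e⟩
    exact hu (h2 u ⟨s, t, e⟩)
  · rintro h2 u ⟨s, t, e⟩
    by_contra h3
    exact h2 ⟨s ++ u, ⟨s, trivial, u, h3, rfl⟩, t, trivial, e⟩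

theorem LINTIME.exi {α : Type} [Finite α] {ι : Type} [Finite ι] {p : ι → List α → Prop} (h : ∀ i, LINTIME {x | p i x}) :
    LINTIME {x | ∃ i, p i x} :=
  (LINTIME.all fun i => (h i).not).not.congr fun x => by simp

/-- the passes which write `• x₁ • x₂ • ... xₙ •` -/
def dtP (α : Type) : MP α (Option α) := [(fun _ => [], [none]), (fun a => [some a, none], [])]

theorem dtP_val {α : Type} (x : List α) : (dtP α).val x = none :: x.flatMap fun a => [some a, none] := by
  simp only [dtP, MP.val, List.flatMap_cons, List.flatMap_nil, List.append_nil, fm_nil, List.nil_append]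
  rfl

theorem strip_dt {α : Type} (x : List α) : ((none : Option α) :: x.flatMap fun a => [some a, none]).flatMap Option.toList = x := by
  rw [List.flatMap_cons, List.flatMap_assoc]
  change [] ++ (x.flatMap fun a => [a]) = x
  rw [flatMap_single]
  simp

theorem dt_shift {α : Type} (s r : List α) : (s.flatMap fun a => [none, some a]) ++ none :: (r.flatMap fun a => [some a, none]) =
    none :: ((s ++ r).flatMap fun a => [some a, none]) := by
  induction s with
  | nil => rfl
  | cons a s ih =>
    rw [List.flatMap_cons, List.append_assoc, ih]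
    rfl

theorem PFacL_of_PStarL (h : PStarL) : PFacL := by
  intro α _ L hL
  let B : Set (List (Option α)) := {y | ((∃ a : α, y = [none, some a]) ∨ ∃ a : α, y = [some a, none]) ∨
    (y = (dtP α).val (y.flatMap Option.toList) ∧ ¬ y.flatMap Option.toList ∈ L)}
  have hc : ∀ w : List (Option α), LINTIME {y : List (Option α) | y = w} := by
    intro w
    refine (lintime_eq (MP.id : MP (Option α) (Option α)) [(fun _ => [], w)]).congr fun y => ?_
    change y = w ↔ MP.id.val y = MP.val [(fun _ => [], w)] y
    rw [MP.id_val]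
    simp only [MP.val, List.flatMap_cons, List.flatMap_nil, List.append_nil, fm_nil, List.nil_append]
  have hB : LINTIME B := by
    refine ((LINTIME.exi fun a => hc _).or (LINTIME.exi fun a => hc _)).or (LINTIME.and ?_ ?_)
    · refine (lintime_eq (MP.id : MP (Option α) (Option α)) ((dtP α).pre Option.toList)).congr fun y => ?_
      change y = (dtP α).val (y.flatMap Option.toList) ↔ MP.id.val y = ((dtP α).pre Option.toList).val y
      rw [MP.id_val, MP.pre_val]
    · refine (hL.inv (MP.hom Option.toList : MP (Option α) α)).compl.congr fun y => ?_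
      change ¬ y.flatMap Option.toList ∈ L ↔ ¬ (MP.hom Option.toList : MP (Option α) α).val y ∈ L
      rw [MP.hom_val]
  refine ((h _ B hB).inv (dtP α)).congr fun x => ?_
  change (∀ u, u <:+: x → u ∈ L) ↔ ¬ ∃ l : List (List (Option α)), (∀ y ∈ l, y ∈ B) ∧ l.flatten = (dtP α).val x
  constructor
  · rintro h1 ⟨l, hl, e⟩
    rw [dtP_val] at e
    induction l generalizing x with
    | nil => simp at e
    | cons y l ih =>
      rw [List.flatten_cons] at e
      have hl' : ∀ y ∈ l, y ∈ B := fun y hy => hl y (List.mem_cons_of_mem _ hy)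
      rcases hl y List.mem_cons_self with (⟨a, rfl⟩ | ⟨a, rfl⟩) | ⟨h2, h3⟩
      · rcases x with _ | ⟨b, x⟩
        · simp at e
        · simp only [List.cons_append, List.nil_append, List.flatMap_cons, List.cons.injEq, Option.some.injEq, true_and] at e
          exact ih x (fun u hu => h1 u (hu.trans (List.suffix_cons b x).isInfix)) hl' e.2
      · simp at e
      · refine h3 (h1 _ (List.IsPrefix.isInfix ?_))
        have h4 : (y ++ l.flatten).flatMap Option.toList = x := by rw [e, strip_dt]
        rw [List.flatMap_append] at h4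
        exact ⟨_, h4⟩
  · rintro h1 u ⟨s, t, rfl⟩
    by_contra h2
    refine h1 ⟨s.map (fun a => [none, some a]) ++ ((dtP α).val u :: t.map fun a => [some a, none]), ?_, ?_⟩
    · intro y hy
      rcases List.mem_append.1 hy with hy | hy
      · obtain ⟨a, _, rfl⟩ := List.mem_map.1 hy
        exact Or.inl (Or.inl ⟨a, rfl⟩)
      · rcases List.mem_cons.1 hy with rfl | hy
        · refine Or.inr ⟨?_, ?_⟩
          · rw [dtP_val u, strip_dt, dtP_val]
          · rw [dtP_val, strip_dt]
            exact h2
        · obtain ⟨a, _, rfl⟩ := List.mem_map.1 hy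
          exact Or.inl (Or.inr ⟨a, rfl⟩)
    · rw [List.flatten_append, List.flatten_cons, ← List.flatMap_def, ← List.flatMap_def, dtP_val, dtP_val,
        List.append_assoc, ← dt_shift s (u ++ t), List.flatMap_append]
      rfl

/-! ## From factors to the rational closure -/

section mark

variable {α S : Type}

/-- the word with the marks -/
def en (c : α × Set S) : List (α ⊕ Set S) := [Sum.inl c.1, Sum.inr c.2]

/-- the passes which write `M₀ a₁ M₁ a₂ M₂ ...` -/
def enP (M0 : Set S) : MP (α × Set S) (α ⊕ Set S) := [(fun _ => [], [Sum.inr M0]), (en, [])]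

theorem enP_val (M0 : Set S) (z : List (α × Set S)) : (enP M0).val z = Sum.inr M0 :: z.flatMap en := by
  simp only [enP, MP.val, List.flatMap_cons, List.flatMap_nil, List.append_nil, fm_nil, List.nil_append]
  rfl

theorem en_sL (z : List (α × Set S)) : (z.flatMap en).flatMap (sL : α ⊕ Set S → List α) = z.map Prod.fst := by
  rw [List.flatMap_assoc, ← flatMap_single]
  rfl

/-- the last mark -/
def lastM (M0 : Set S) : List (α × Set S) → Set S
  | [] => M0
  | c :: z => lastM c.2 z

theorem lastM_append (M0 : Set S) (z z' : List (α × Set S)) : lastM M0 (z ++ z') = lastM (lastM M0 z) z' := by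
  induction z generalizing M0 with
  | nil => rfl
  | cons c z ih => exact ih c.2

theorem en_last (M0 : Set S) (z : List (α × Set S)) : ∃ w, (Sum.inr M0 :: z.flatMap en : List (α ⊕ Set S)) = w ++ [Sum.inr (lastM M0 z)] := by
  induction z generalizing M0 with
  | nil => exact ⟨[], rfl⟩
  | cons c z ih =>
    obtain ⟨w, hw⟩ := ih c.2
    refine ⟨Sum.inr M0 :: Sum.inl c.1 :: w, ?_⟩
    rw [List.flatMap_cons]
    change Sum.inr M0 :: Sum.inl c.1 :: (Sum.inr c.2 :: z.flatMap en) = _
    rw [hw]
    rfl

/-- the word with the true marks after the history `h` -/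
def tm (f : List α → Set S) (h : List α) : List α → List (α × Set S)
  | [] => []
  | a :: x => (a, f (h ++ [a])) :: tm f (h ++ [a]) x

theorem tm_fst (f : List α → Set S) (h x : List α) : (tm f h x).map Prod.fst = x := by
  induction x generalizing h with
  | nil => rfl
  | cons a x ih => simp [tm, ih]

theorem tm_lastM (f : List α → Set S) (h x : List α) : lastM (f h) (tm f h x) = f (h ++ x) := by
  induction x generalizing h with
  | nil => simp [tm, lastM]
  | cons a x ih =>
    change lastM (f (h ++ [a])) (tm f (h ++ [a]) x) = _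
    rw [ih, List.append_assoc]
    rfl

theorem tm_mark (f : List α → Set S) (h x : List α) (w : List (α ⊕ Set S)) (M : Set S) (t : List (α ⊕ Set S))
    (e : w ++ Sum.inr M :: t = Sum.inr (f h) :: (tm f h x).flatMap en) : M = f (h ++ w.flatMap sL) := by
  induction x generalizing h w with
  | nil =>
    rcases w with _ | ⟨b, w⟩
    · simp only [List.nil_append, List.cons.injEq, Sum.inr.injEq] at e
      rw [e.1]
      simp
    · simp [tm] at e
  | cons a x ih =>
    rcases w with _ | ⟨b, w⟩
    · simp only [List.nil_append, List.cons.injEq, Sum.inr.injEq] at e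
      rw [e.1]
      simp
    · simp only [List.cons_append, List.cons.injEq] at e
      obtain ⟨e1, e2⟩ := e
      change w ++ Sum.inr M :: t = Sum.inl a :: (Sum.inr (f (h ++ [a])) :: (tm f (h ++ [a]) x).flatMap en) at e2
      rcases w with _ | ⟨b', w⟩
      · simp at e2
      · simp only [List.cons_append, List.cons.injEq] at e2
        obtain ⟨e3, e4⟩ := e2
        rw [ih (h ++ [a]) w e4, e1, e3, List.flatMap_cons, List.flatMap_cons, List.append_assoc]
        rfl

end mark

theorem PRatL_of_PFacL (hF : PFacL) : PRatL := by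
  intro α _ R hR
  obtain ⟨S, hS, A, I, F, hA, hRA⟩ := hR.ga
  let re : List α → Set S := fun x => {q | ∃ p ∈ I, Path A p x q}
  let L : Set (List (α ⊕ Set S)) := {y | ∀ M N : Set S, ∀ p q : S, ¬ (FirstIs (fun c => c = Sum.inr M) y ∧
    (LastIs (fun c => c = Sum.inr N) y ∧ ((p ∈ M ∧ q ∉ N) ∧ y.flatMap sL ∈ A p q)))}
  have hL : LINTIME L := by
    refine LINTIME.all fun M => LINTIME.all fun N => LINTIME.all fun p => LINTIME.all fun q => ?_
    refine ((lintime_firstIs _).and ((lintime_lastIs _).and ((LINTIME.const _).and ?_))).not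
    refine ((hA p q).inv (MP.hom sL : MP (α ⊕ Set S) α)).congr fun y => ?_
    change y.flatMap sL ∈ A p q ↔ (MP.hom sL).val y ∈ A p q
    rw [MP.hom_val]
  let P : MP (α × Set S) (α ⊕ Set S) := enP (re [])
  have h1 : InQ {z : List (α × Set S) | ∀ u, u <:+: P.val z → u ∈ L} := (hF _ L hL).inv P
  have h2 : InQ {z : List (α × Set S) | P.val z ∈ {y | LastIs (fun c : α ⊕ Set S => ∃ N, c = Sum.inr N ∧ ∀ q ∈ F, q ∉ N) y}} :=
    (inQ_lastIs _).inv P
  refine ((h1.inter h2).map Prod.fst).congr fun x => ?_
  change ¬ x ∈ R ↔ ∃ z : List (α × Set S), ((∀ u, u <:+: P.val z → u ∈ L) ∧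
    LastIs (fun c : α ⊕ Set S => ∃ N, c = Sum.inr N ∧ ∀ q ∈ F, q ∉ N) (P.val z)) ∧ z.map Prod.fst = x
  rw [hRA]
  constructor
  · intro hx
    refine ⟨tm re [] x, ⟨?_, ?_⟩, tm_fst re [] x⟩
    · rintro y ⟨s, t, e⟩ M N p q ⟨⟨c, u, rfl, rfl⟩, ⟨w, c, e2, rfl⟩, ⟨hp, hq⟩, hA⟩
      rw [show P.val (tm re [] x) = Sum.inr (re []) :: (tm re [] x).flatMap en from enP_val _ _] at e
      have e3 := tm_mark re [] x s M (u ++ t) (by rw [← e]; simp)
      have e4 := tm_mark re [] x (s ++ w) N t (by rw [← e, e2]; simp)
      rw [List.nil_append] at e3 e4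
      rw [List.flatMap_append] at e4
      rw [e3] at hp
      obtain ⟨p0, hp0, hpath⟩ := hp
      refine hq ?_
      rw [e4]
      refine ⟨p0, hp0, hpath.trans ?_⟩
      rw [e2, List.flatMap_append] at hA
      have e5 : ([Sum.inr N] : List (α ⊕ Set S)).flatMap sL = [] := rfl
      rw [e5, List.append_nil] at hA
      exact Path.single hA
    · rw [show P.val (tm re [] x) = Sum.inr (re []) :: (tm re [] x).flatMap en from enP_val _ _]
      obtain ⟨w, hw⟩ := en_last (re []) (tm re [] x)
      refine ⟨w, _, hw, _, rfl, ?_⟩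
      rw [tm_lastM, List.nil_append]
      rintro q hq ⟨p, hp, h⟩
      exact hx ⟨p, hp, q, hq, h⟩
  · rintro ⟨z, ⟨hz1, hz2⟩, rfl⟩ ⟨p, hp, q, hq, hpath⟩
    have hz1' : ∀ u, u <:+: (Sum.inr (re []) :: z.flatMap en : List (α ⊕ Set S)) → u ∈ L := by
      intro u hu
      refine hz1 u ?_
      rw [show P.val z = Sum.inr (re []) :: z.flatMap en from enP_val _ _]
      exact hu
    rw [show P.val z = Sum.inr (re []) :: z.flatMap en from enP_val _ _] at hz2
    have key : ∀ {p q : S} {u : List α}, Path A p u q → ∀ z1 z2 z3 : List (α × Set S), z1 ++ z2 ++ z3 = z → z2.map Prod.fst = u →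
        p ∈ lastM (re []) z1 → q ∈ lastM (re []) (z1 ++ z2) := by
      intro p q u h
      induction h with
      | nil p =>
        intro z1 z2 z3 _ h2 h3
        have : z2 = [] := by simpa using h2
        rw [this, List.append_nil]
        exact h3
      | cons p q r u v h1 _ ih =>
        intro z1 z2 z3 e h2 h3
        obtain ⟨a, b, rfl, h4, h5⟩ := List.map_eq_append_iff.1 h2
        have h6 := ih (z1 ++ a) b z3 (by rw [← e]; simp) h5
        rw [← List.append_assoc]
        refine h6 ?_
        -- the factor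
        obtain ⟨w, hw⟩ := en_last (re []) z1
        obtain ⟨w2, hw2⟩ := en_last (lastM (re []) z1) a
        have h7 := hz1' (Sum.inr (lastM (re []) z1) :: a.flatMap en) ⟨w, (b ++ z3).flatMap en, by
          rw [← e]
          have h9 := congrArg (fun l => l ++ (a.flatMap en ++ (b ++ z3).flatMap en)) hw
          simp only [List.append_assoc, List.flatMap_append, List.cons_append, List.nil_append] at h9 ⊢
          exact h9.symm⟩ (lastM (re []) z1) (lastM (re []) (z1 ++ a)) p q
        by_contra h8
        refine h7 ⟨⟨_, _, rfl, rfl⟩, ⟨w2, _, hw2, ?_⟩, ⟨h3, h8⟩, ?_⟩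
        · rw [lastM_append]
        · rw [List.flatMap_cons, en_sL, h4]
          exact h1
    have h3 := key hpath [] z [] (by simp) rfl ⟨p, hp, Path.nil p⟩
    obtain ⟨w, c, e, N, rfl, hN⟩ := hz2
    obtain ⟨w2, hw2⟩ := en_last (re []) z
    rw [hw2] at e
    have e2 := (List.append_inj' e rfl).2
    have e3 : lastM (re []) z = N := by simpa using e2
    rw [List.nil_append, e3] at h3
    exact hN q hq h3

end Pool.Agent.Lin
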