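import Pool.Agent.Lib.MP_dee884_lc.Weight

/-!
# Universal quantification over the cuts of a word and regular operations
-/

set_option autoImplicit false

namespace Pool.Agent.Lin

variable {α β γ : Type}

/-- Prefixes are recognised in linear time. -/
theorem lintime_prefix [Finite α] [Finite β] (f g : MP α β) : LINTIME {x : List α | f.val x <+: g.val x} := by
  classical
  have h := scan_lintime (α := α) (K := Bool) (Γ := fun _ => β) (Q := Bool) (fun k => if k then f else g)
    (fun q v => q && (decide (v true = none) || decide (v true = v false))) (fun q => q) true
    (fun x => max (f.val x).length (g.val x).length)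
    (by
      intro x k
      cases k <;> simp)
    (by
      intro x i hi
      rcases lt_max_iff.1 hi with h | h
      · exact ⟨true, by simpa using h⟩
      · exact ⟨false, by simpa using h⟩)
  have key : ∀ (w : (k : Bool) → List β) (d i : ℕ) (q : Bool),
      (srun (fun q (v : (k : Bool) → Option β) => q && (decide (v true = none) || decide (v true = v false))) w d i q = true ↔
        q = true ∧ ∀ j, i ≤ j → j < i + d → ((w true)[j]? = none ∨ (w true)[j]? = (w false)[j]?)) := by
    intro w d
    induction d with
    | zero =>
      intro i q
      simp only [srun]
      constructor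
      · intro h
        exact ⟨h, fun j h1 h2 => by omega⟩
      · exact fun h => h.1
    | succ d ih =>
      intro i q
      simp only [srun]
      rw [ih]
      simp only [Bool.and_eq_true, Bool.or_eq_true, decide_eq_true_eq]
      constructor
      · rintro ⟨⟨h1, h2⟩, h3⟩
        refine ⟨h1, fun j hj hj2 => ?_⟩
        rcases Nat.eq_or_lt_of_le hj with h4 | h4
        · rw [← h4]
          exact h2
        · exact h3 j h4 (by omega)
      · rintro ⟨h1, h2⟩
        exact ⟨⟨h1, h2 i le_rfl (by omega)⟩, fun j hj hj2 => h2 j (by omega) (by omega)⟩
  have e : {x : List α | f.val x <+: g.val x} = {x | (fun q => q) (srun (fun q (v : (k : Bool) → Option β) =>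
      q && (decide (v true = none) || decide (v true = v false)))
      (fun k => (if k = true then f else g).val x) (max (f.val x).length (g.val x).length) 0 true) = true} := by
    ext x
    change f.val x <+: g.val x ↔ srun (fun q (v : (k : Bool) → Option β) =>
      q && (decide (v true = none) || decide (v true = v false))) (fun k => (if k = true then f else g).val x)
      (max (f.val x).length (g.val x).length) 0 true = true
    rw [key]
    simp only [if_true, Bool.false_eq_true, if_false, true_and, Nat.zero_le, forall_const, zero_add]
    constructor
    · rintro ⟨t, ht⟩ j _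
      rcases lt_or_ge j (f.val x).length with h1 | h1
      · right
        rw [← ht, List.getElem?_append_left h1]
      · left
        exact List.getElem?_eq_none h1
    · intro h
      rw [List.prefix_iff_getElem?]
      intro j hj
      rcases h j (lt_of_lt_of_le hj (le_max_left _ _)) with h1 | h1
      · rw [List.getElem?_eq_getElem hj] at h1
        simp at h1
      · rw [← h1, List.getElem?_eq_getElem hj]
  rw [e]
  exact h

/-- Regular languages are recognised in linear time. -/
theorem lintime_dfa [Finite α] {Q : Type} [Finite Q] (δ : Q → α → Q) (q0 : Q) (acc : Q → Prop) :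
    LINTIME {x : List α | acc (x.foldl δ q0)} := by
  classical
  have h := scan_lintime (α := α) (K := Unit) (Γ := fun _ => α) (Q := Q) (fun _ => MP.id)
    (fun q v => match v () with
      | none => q
      | some a => δ q a) (fun q => decide (acc q)) q0 (fun x => x.length)
    (by
      intro x k
      rw [MP.id_val])
    (by
      intro x i hi
      exact ⟨(), by rw [MP.id_val]; exact hi⟩)
  have key : ∀ (x : List α) (d i : ℕ) (q : Q), i + d = x.length →
      srun (fun q (v : (k : Unit) → Option α) => match v () with
      | none => q
      | some a => δ q a) (fun _ => x) d i q = (x.drop i).foldl δ q := by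
    intro x d
    induction d with
    | zero =>
      intro i q hi
      rw [List.drop_eq_nil_of_le (by omega)]
      rfl
    | succ d ih =>
      intro i q hi
      simp only [srun]
      rw [ih (i + 1) _ (by omega), List.drop_eq_getElem_cons (show i < x.length by omega), List.foldl_cons,
        List.getElem?_eq_getElem (show i < x.length by omega)]
  refine (congrArg LINTIME ?_).mp h
  ext x
  change decide (acc (srun _ (fun _ => MP.id.val x) x.length 0 q0)) = true ↔ acc (x.foldl δ q0)
  rw [decide_eq_true_eq, MP.id_val, key x x.length 0 q0 (by omega), List.drop_zero]

theorem inQ_dfa [Finite α] {Q : Type} [Finite Q] (δ : Q → α → Q) (q0 : Q) (acc : Q → Prop) :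
    InQ {x : List α | acc (x.foldl δ q0)} := InQ.of_lintime (lintime_dfa δ q0 acc)

/-- the last letter satisfies `p` (false for the empty word) -/
def LastIs (p : α → Prop) (x : List α) : Prop := ∃ u a, x = u ++ [a] ∧ p a

theorem lastIs_foldl (p : α → Prop) (x : List α) (b : Prop) :
    (x.foldl (fun _ a => p a) b ↔ (x = [] ∧ b) ∨ LastIs p x) := by
  induction x using List.reverseRecOn with
  | nil =>
    simp only [List.foldl_nil, true_and, LastIs]
    constructor
    · exact Or.inl
    · rintro (h | ⟨u, a, h, _⟩)
      · exact h
      · simp at h
  | append_singleton x a ih =>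
    simp only [List.foldl_append, List.foldl_cons, List.foldl_nil]
    constructor
    · intro h
      exact Or.inr ⟨x, a, rfl, h⟩
    · rintro (h | ⟨u, a', h, h2⟩)
      · simp at h
      · have := List.append_inj' h rfl
        have h3 : a = a' := by simpa using this.2
        rw [h3]
        exact h2

theorem inQ_lastIs [Finite α] (p : α → Prop) : InQ {x : List α | LastIs p x} := by
  classical
  refine (inQ_dfa (Q := Prop) (fun _ a => p a) False fun q => q).congr fun x => ?_
  change LastIs p x ↔ x.foldl (fun _ a => p a) False
  rw [lastIs_foldl]
  simp

theorem inQ_not_lastIs [Finite α] (p : α → Prop) : InQ {x : List α | ¬ LastIs p x} := by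
  classical
  refine (inQ_dfa (Q := Prop) (fun _ a => p a) False fun q => ¬ q).congr fun x => ?_
  change ¬ LastIs p x ↔ ¬ x.foldl (fun _ a => p a) False
  rw [lastIs_foldl]
  simp

end Pool.Agent.Lin
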