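import Pool.Agent.Lib.MP_dee884_lc.Reg

/-!
# The equivalence of the complements of rational operations and the quantification over cuts
-/

set_option autoImplicit false

namespace Pool.Agent.Lin

/-- The concatenation `AB`. -/
def cat {α : Type} (A B : Set (List α)) : Set (List α) := {x | ∃ u ∈ A, ∃ v ∈ B, u ++ v = x}

/-- The iteration `A*`. -/
def star {α : Type} (A : Set (List α)) : Set (List α) := {x | ∃ l : List (List α), (∀ u ∈ l, u ∈ A) ∧ l.flatten = x}

/-- complements of concatenations -/
def PCat : Prop := ∀ (α : Type) [Finite α] (A B : Set (List α)), InQ Aᶜ → InQ Bᶜ → InQ (cat A B)ᶜ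

/-- complements of iterations -/
def PStar : Prop := ∀ (α : Type) [Finite α] (A : Set (List α)), InQ Aᶜ → InQ (star A)ᶜ

/-- all prefixes -/
def PPre : Prop := ∀ (α : Type) [Finite α] (L : Set (List α)), InQ L → InQ {x | ∀ u, u <+: x → u ∈ L}

/-- all factors -/
def PFac : Prop := ∀ (α : Type) [Finite α] (L : Set (List α)), InQ L → InQ {x | ∀ u, u <:+: x → u ∈ L}

/-- all cuts -/
def PCut : Prop := ∀ (α : Type) [Finite α] (L : Set (List (α ⊕ α))), InQ L →
  InQ {x : List α | ∀ u v : List α, u ++ v = x → (u.map Sum.inl ++ v.map Sum.inr : List (α ⊕ α)) ∈ L}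

theorem PCat_of_PCut (h : PCut) : PCat := by
  intro α _ A B hA hB
  refine (h α {z | z.flatMap sL ∈ Aᶜ ∨ z.flatMap sR ∈ Bᶜ} ?_).congr fun x => ?_
  · refine InQ.or ((hA.inv (MP.hom sL)).congr fun z => ?_) ((hB.inv (MP.hom sR)).congr fun z => ?_)
    · change z.flatMap sL ∈ Aᶜ ↔ (MP.hom sL).val z ∈ Aᶜ
      rw [MP.hom_val]
    · change z.flatMap sR ∈ Bᶜ ↔ (MP.hom sR).val z ∈ Bᶜ
      rw [MP.hom_val]
  · change ¬ (∃ u ∈ A, ∃ v ∈ B, u ++ v = x) ↔ ∀ u v : List α, u ++ v = x → ((u.map Sum.inl ++ v.map Sum.inr).flatMap sL ∈ Aᶜ ∨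
      (u.map Sum.inl ++ v.map Sum.inr).flatMap sR ∈ Bᶜ)
    simp only [fm_sL, fm_sR]
    constructor
    · intro h u v e
      by_contra hc
      rw [not_or] at hc
      exact h ⟨u, not_not.1 hc.1, v, not_not.1 hc.2, e⟩
    · rintro h ⟨u, hu, v, hv, e⟩
      rcases h u v e with h1 | h1
      · exact h1 hu
      · exact h1 hv

theorem PStar_of_PCat (h : PCat) : PStar := by
  intro α _ A hA
  let F : Set (List (α × Bool)) := {z | LastIs (fun a => a.2 = false) z}
  let B : Set (List (α × Bool)) := {z | z.map Prod.fst ∈ A} ∩ F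
  have hF : InQ F := inQ_lastIs _
  have hFc : InQ Fᶜ := inQ_not_lastIs _
  have hP : InQ (Fᶜ)ᶜ := by rwa [compl_compl]
  have hB : InQ Bᶜ := by
    refine ((hA.comap Prod.fst).union hFc).congr fun z => ?_
    change ¬ (z.map Prod.fst ∈ A ∧ z ∈ F) ↔ (¬ z.map Prod.fst ∈ A ∨ ¬ z ∈ F)
    tauto
  have hU : InQ (Set.univ : Set (List (α × Bool)))ᶜ := by
    rw [Set.compl_univ]
    exact inQ_empty
  have h1 : InQ (cat Fᶜ B)ᶜ := h _ Fᶜ B hP hB
  have h2 : InQ (cat (cat Fᶜ B) Set.univ)ᶜ :=
    h _ _ Set.univ h1 hU
  refine ((hF.inter h2).map Prod.fst).congr fun x => ?_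
  change ¬ x ∈ star A ↔ ∃ z : List (α × Bool), (z ∈ F ∧
    ¬ z ∈ (cat (cat Fᶜ B) Set.univ)) ∧ z.map Prod.fst = x
  have hbad : ∀ z, z ∈ (cat (cat Fᶜ B) Set.univ) ↔
      ∃ p a s, ¬ LastIs (fun a => a.2 = false) p ∧ a.map Prod.fst ∈ A ∧ LastIs (fun a => a.2 = false) a ∧ p ++ a ++ s = z := by
    intro z
    constructor
    · rintro ⟨pa, ⟨p, hp, a, ha, e2⟩, s, _, e⟩
      exact ⟨p, a, s, hp, ha.1, ha.2, by rw [e2, e]⟩
    · rintro ⟨p, a, s, hp, ha, ha2, e⟩
      exact ⟨p ++ a, ⟨p, hp, a, ⟨ha, ha2⟩, rfl⟩, s, trivial, e⟩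
  constructor
  · intro hx
    classical
    -- the marking
    let z : List (α × Bool) := List.ofFn fun i : Fin x.length => (x[i.1], decide (x.take (i.1 + 1) ∈ star A))
    have hz : z.map Prod.fst = x := by
      refine List.ext_getElem (by simp [z]) fun j h1 h2 => ?_
      simp [z]
    have hzl : z.length = x.length := by simp [z]
    -- the mark of the last letter of a prefix
    have hmark : ∀ u a s, u ++ [a] ++ s = z → (a.2 = true ↔ (u ++ [a]).map Prod.fst ∈ star A) := by
      intro u a s e
      have e1 : (u ++ [a]).map Prod.fst = x.take (u.length + 1) := by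
        rw [← hz, ← e, ← List.map_take]
        congr 1
        rw [List.take_append_of_le_length (by simp), List.take_of_length_le (by simp)]
      have hlt : u.length < z.length := by
        rw [← e]
        simp
      have e2 : a = z[u.length] := by
        simp [← e]
      have e3 : z[u.length] = (x[u.length]'(by rw [← hzl]; exact hlt), decide (x.take (u.length + 1) ∈ star A)) := by
        simp [z]
      rw [e1, e2, e3]
      simp
    have hx0 : x ≠ [] := fun h0 => hx (by rw [h0]; exact ⟨[], by simp, rfl⟩)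
    refine ⟨z, ⟨?_, ?_⟩, hz⟩
    · obtain ⟨u, a, e⟩ : ∃ u a, z = u ++ [a] := by
        have h0 : z ≠ [] := by
          intro h0
          rw [h0] at hz
          exact hx0 hz.symm
        exact ⟨z.dropLast, z.getLast h0, (List.dropLast_append_getLast h0).symm⟩
      refine ⟨u, a, e, ?_⟩
      have h1 := hmark u a [] (by rw [e, List.append_nil])
      rw [← e, hz] at h1
      by_contra h2
      exact hx (h1.1 (by simpa using h2))
    · rw [hbad]
      rintro ⟨p, a, s, hp, ha, ⟨u, b, e1, hb⟩, e⟩
      have hpA : p.map Prod.fst ∈ star A := by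
        rcases List.eq_nil_or_concat p with h0 | ⟨u', b', h0⟩
        · rw [h0]
          exact ⟨[], by simp, rfl⟩
        · rw [List.concat_eq_append] at h0
          have h1 := hmark u' b' (a ++ s) (by rw [← h0, ← e, List.append_assoc])
          rw [h0]
          refine h1.1 ?_
          by_contra h2
          exact hp ⟨u', b', h0, by simpa using h2⟩
      have hpa : (p ++ a).map Prod.fst ∈ star A := by
        rw [List.map_append]
        obtain ⟨l, hl2, hl⟩ := hpA
        refine ⟨l ++ [a.map Prod.fst], ?_, by simp [hl]⟩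
        intro y hy
        rcases List.mem_append.1 hy with h1 | h1
        · exact hl2 y h1
        · rw [List.mem_singleton] at h1
          rw [h1]
          exact ha
      have h1 := hmark (p ++ u) b s (by rw [← e, e1]; simp)
      rw [List.append_assoc, ← e1] at h1
      have h2 := h1.2 hpa
      rw [hb] at h2
      exact Bool.false_ne_true h2
  · rintro ⟨z, ⟨hzF, hzb⟩, rfl⟩ hx
    rw [hbad] at hzb
    obtain ⟨l, hlA, hl⟩ := hx
    -- all prefixes of the factorization end with a marked letter
    have key : ∀ (l : List (List α)), (∀ y ∈ l, y ∈ A) → ∀ p r : List (α × Bool), p ++ r = z →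
        ¬ LastIs (fun a => a.2 = false) p → r.map Prod.fst = l.flatten → False := by
      intro l
      induction l with
      | nil =>
        intro _ p r e hp hr
        have : r = [] := by simpa using hr
        rw [this, List.append_nil] at e
        rw [e] at hp
        exact hp hzF
      | cons y l ih =>
        intro hl p r e hp hr
        rw [List.flatten_cons] at hr
        obtain ⟨a, s, h1, h2, h3⟩ := List.map_eq_append_iff.1 hr
        refine ih (fun y hy => hl y (List.mem_cons_of_mem _ hy)) (p ++ a) s (by rw [← e, h1, List.append_assoc]) ?_ h3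
        rintro ⟨u, b, hub, hb⟩
        rcases List.eq_nil_or_concat a with h0 | ⟨u', b', h0⟩
        · rw [h0, List.append_nil] at hub
          exact hp ⟨u, b, hub, hb⟩
        · rw [List.concat_eq_append] at h0
          refine hzb ⟨p, a, s, hp, by rw [h2]; exact hl y List.mem_cons_self, ⟨u', b', h0, ?_⟩, by rw [← e, h1, List.append_assoc]⟩
          rw [h0, ← List.append_assoc] at hub
          have := List.append_inj' hub rfl
          have h4 : b' = b := by simpa using this.2
          rw [h4]
          exact hb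
    exact key l hlA [] z rfl (by
      rintro ⟨u, a, h0, _⟩
      simp at h0) hl.symm

/-- the words `u` with `none :: u.map some` in the language -/
theorem inQ_marked {α : Type} [Finite α] {L : Set (List α)} (hL : InQ L) :
    InQ {y : List (Option α) | ∀ u : List α, y = none :: u.map some → u ∈ L} := by
  have h1 : InQ {y : List (Option α) | (MP.id : MP (Option α) (Option α)).val y ≠
      MP.val [(fun _ => [], [none]), (fun o => o.toList.map some, [])] y} := inQ_ne _ _
  have h2 : InQ {y : List (Option α) | (MP.hom Option.toList : MP (Option α) α).val y ∈ L} := hL.inv _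
  refine (h1.or h2).congr fun y => ?_
  change (∀ u : List α, y = none :: u.map some → u ∈ L) ↔ (MP.id.val y ≠ MP.val _ y ∨ (MP.hom Option.toList).val y ∈ L)
  have e1 : MP.val [(fun _ => [], [none]), (fun o => o.toList.map some, [])] y =
      none :: (y.flatMap Option.toList).map some := by
    simp only [MP.val, List.flatMap_cons, List.flatMap_nil, List.append_nil, fm_nil, List.nil_append, List.map_flatMap]
    rfl
  have e2 : ∀ u : List α, ((none : Option α) :: u.map some).flatMap Option.toList = u := by
    intro u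
    rw [List.flatMap_cons, List.flatMap_map]
    change [] ++ (u.flatMap fun a => [a]) = u
    rw [flatMap_single]
    simp
  rw [MP.id_val, e1, MP.hom_val]
  constructor
  · intro h
    by_cases hy : y = none :: (y.flatMap Option.toList).map some
    · exact Or.inr (h _ hy)
    · exact Or.inl hy
  · rintro h u rfl
    rw [e2] at h
    rcases h with h | h
    · exact absurd rfl h
    · exact h

/-- the passes which write `none` before the word -/
def mkP (α : Type) : MP α (Option α) := [(fun _ => [], [none]), (fun a => [some a], [])]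

theorem mkP_val {α : Type} (x : List α) : (mkP α).val x = none :: x.map some := by
  simp only [mkP, MP.val, List.flatMap_cons, List.flatMap_nil, List.append_nil, fm_nil, List.nil_append, flatMap_single]
  rfl

theorem some_prefix {α : Type} {u x : List α} : u.map some <+: x.map some ↔ u <+: x := by
  constructor
  · rintro ⟨t, ht⟩
    obtain ⟨a, s, h1, h2, _⟩ := List.map_eq_append_iff.1 ht.symm
    have h3 : a = u := List.map_injective_iff.2 (Option.some_injective _) h2
    exact ⟨s, by rw [h1, h3]⟩
  · rintro ⟨t, rfl⟩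
    exact ⟨t.map some, by rw [List.map_append]⟩

theorem PPre_of_PFac (h : PFac) : PPre := by
  intro α _ L hL
  have h1 := h (Option α) _ (inQ_marked hL)
  refine (h1.inv (mkP α)).congr fun x => ?_
  change (∀ u, u <+: x → u ∈ L) ↔ ∀ y, y <:+: (mkP α).val x → ∀ u : List α, y = none :: u.map some → u ∈ L
  rw [mkP_val]
  constructor
  · rintro h2 y ⟨s, t, e⟩ u rfl
    refine h2 u ?_
    rw [← some_prefix]
    rcases s with _ | ⟨b, s⟩
    · simp only [List.nil_append, List.cons_append, List.cons.injEq, true_and] at e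
      exact ⟨t, e⟩
    · simp only [List.cons_append, List.cons.injEq] at e
      have h3 : (none : Option α) ∈ x.map some := by
        rw [← e.2]
        simp
      simp at h3
  · intro h2 u hu
    refine h2 (none :: u.map some) ?_ u rfl
    refine List.IsPrefix.isInfix ?_
    exact (List.prefix_cons_inj none).2 (some_prefix.2 hu)

theorem PPre_of_PStar (h : PStar) : PPre := by
  intro α _ L hL
  let B : Set (List (Option α)) := {y | (∃ u : List α, y = none :: u.map some ∧ u ∉ L) ∨ ∃ a : α, y = [some a]}
  have hB : InQ Bᶜ := by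
    refine ((inQ_marked hL).and (InQ.all fun a : α => inQ_ne (MP.id : MP (Option α) (Option α))
      [(fun _ => [], [some a])])).congr fun y => ?_
    change ¬ ((∃ u : List α, y = none :: u.map some ∧ u ∉ L) ∨ ∃ a : α, y = [some a]) ↔
      (∀ u : List α, y = none :: u.map some → u ∈ L) ∧ ∀ a : α, MP.id.val y ≠ MP.val [(fun _ => [], [some a])] y
    have e : ∀ a : α, MP.val [(fun _ => [], [some a])] y = [some a] := by
      intro a
      simp only [MP.val, List.flatMap_cons, List.flatMap_nil, List.append_nil, fm_nil, List.nil_append]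
    simp only [e, MP.id_val]
    constructor
    · intro h1
      refine ⟨fun u hu => ?_, fun a ha => h1 (Or.inr ⟨a, ha⟩)⟩
      by_contra h2
      exact h1 (Or.inl ⟨u, hu, h2⟩)
    · rintro ⟨h1, h2⟩ (⟨u, h3, h4⟩ | ⟨a, h3⟩)
      · exact h4 (h1 u h3)
      · exact h2 a h3
  refine ((h (Option α) B hB).inv (mkP α)).congr fun x => ?_
  change (∀ u, u <+: x → u ∈ L) ↔ ¬ ∃ l : List (List (Option α)), (∀ y ∈ l, y ∈ B) ∧ l.flatten = (mkP α).val x
  rw [mkP_val]
  constructor
  · rintro h1 ⟨l, hl, e⟩
    rcases l with _ | ⟨y, l⟩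
    · simp at e
    · rw [List.flatten_cons] at e
      rcases hl y List.mem_cons_self with ⟨u, rfl, hu⟩ | ⟨a, rfl⟩
      · simp only [List.cons_append, List.cons.injEq, true_and] at e
        exact hu (h1 u (some_prefix.1 ⟨_, e⟩))
      · simp at e
  · intro h1 u hu
    by_contra h2
    obtain ⟨v, rfl⟩ := hu
    refine h1 ⟨(none :: u.map some) :: v.map (fun a => [some a]), ?_, ?_⟩
    · intro y hy
      rcases List.mem_cons.1 hy with rfl | hy
      · exact Or.inl ⟨u, rfl, h2⟩
      · obtain ⟨a, _, rfl⟩ := List.mem_map.1 hy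
        exact Or.inr ⟨a, rfl⟩
    · rw [List.flatten_cons, List.cons_append, List.map_append]
      congr 2
      rw [← List.flatMap_def, flatMap_single]

theorem PFac_of_PCat (h : PCat) : PFac := by
  intro α _ L hL
  have hU : InQ (Set.univ : Set (List α))ᶜ := by
    rw [Set.compl_univ]
    exact inQ_empty
  have h1 : InQ (cat (cat Set.univ Lᶜ) Set.univ)ᶜ := h _ _ _ (h _ _ _ hU (by rwa [compl_compl])) hU
  refine h1.congr fun x => ?_
  change (∀ u, u <:+: x → u ∈ L) ↔ ¬ ∃ w ∈ cat Set.univ Lᶜ, ∃ v ∈ Set.univ, w ++ v = x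
  constructor
  · rintro h2 ⟨w, ⟨s, _, u, hu, rfl⟩, t, _, e⟩
    exact hu (h2 u ⟨s, t, e⟩)
  · rintro h2 u ⟨s, t, e⟩
    by_contra h3
    exact h2 ⟨s ++ u, ⟨s, trivial, u, h3, rfl⟩, t, trivial, e⟩

/-! ## From prefixes to cuts -/

/-- the passes which write `x # x'` -/
def dbP (α : Type) : MP α (α ⊕ Option α) := [(fun a => [Sum.inl a], [Sum.inr none]), (fun a => [Sum.inr (some a)], [])]

theorem dbP_val {α : Type} (x : List α) : (dbP α).val x = x.map Sum.inl ++ Sum.inr none :: x.map fun a => Sum.inr (some a) := by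
  simp only [dbP, MP.val, List.flatMap_cons, List.flatMap_nil, List.append_nil, flatMap_single, List.append_assoc]
  rfl

/-- the letters with a prime -/
def pr {α : Type} : α ⊕ Option α → List α
  | Sum.inl _ => []
  | Sum.inr o => o.toList

theorem pr_db {α : Type} (x u : List α) : (x.map Sum.inl ++ Sum.inr none :: u.map fun a => Sum.inr (some a)).flatMap (pr (α := α)) = u := by
  rw [List.flatMap_append, List.flatMap_cons, List.flatMap_map, List.flatMap_map]
  change (x.flatMap fun _ => []) ++ ([] ++ (u.flatMap fun a => [a])) = u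
  rw [fm_nil, flatMap_single]
  simp

theorem sL_db {α : Type} (x u : List α) : (x.map Sum.inl ++ Sum.inr none :: u.map fun a => Sum.inr (some a)).flatMap
    (sL : α ⊕ Option α → List α) = x := by
  rw [List.flatMap_append, List.flatMap_cons, List.flatMap_map, List.flatMap_map]
  change (x.flatMap fun a => [a]) ++ ([] ++ (u.flatMap fun _ => [])) = x
  rw [fm_nil, flatMap_single]
  simp

/-- the `#` occurs once -/
theorem sharp_unique {α : Type} {x y : List α} {s t : List (α ⊕ Option α)}
    (h : x.map Sum.inl ++ Sum.inr none :: s = y.map Sum.inl ++ Sum.inr none :: t) : x = y ∧ s = t := by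
  induction x generalizing y with
  | nil =>
    rcases y with _ | ⟨b, y⟩
    · simpa using h
    · simp at h
  | cons a x ih =>
    rcases y with _ | ⟨b, y⟩
    · simp at h
    · simp only [List.map_cons, List.cons_append, List.cons.injEq, Sum.inl.injEq] at h
      obtain ⟨h1, h2⟩ := ih h.2
      exact ⟨by rw [h.1, h1], h2⟩

theorem PCut_of_PPre (h : PPre) : PCut := by
  intro α _ L hL
  let D : List (α ⊕ Option α) → Prop := fun z => ∀ u v : List α,
    z = (u ++ v).map Sum.inl ++ Sum.inr none :: u.map (fun a => Sum.inr (some a)) → (u.map Sum.inl ++ v.map Sum.inr : List (α ⊕ α)) ∈ L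
  -- `z` has the form `x # u'` with a prefix `u` of `x`
  let P1 : MP (α ⊕ Option α) (α ⊕ Option α) :=
    [(fun b => (sL b).map Sum.inl, [Sum.inr none]), (fun b => (pr b).map fun a => Sum.inr (some a), [])]
  have hP1 : ∀ z, P1.val z = (z.flatMap sL).map Sum.inl ++ Sum.inr none :: (z.flatMap pr).map fun a => Sum.inr (some a) := by
    intro z
    simp only [P1, MP.val, List.flatMap_cons, List.flatMap_nil, List.append_nil, List.append_assoc, List.map_flatMap]
    rfl
  have h1 : InQ {z : List (α ⊕ Option α) | (MP.id : MP _ _).val z ≠ P1.val z} := inQ_ne _ _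
  have h2 : InQ {z : List (α ⊕ Option α) | ¬ (MP.hom pr : MP (α ⊕ Option α) α).val z <+: (MP.hom sL : MP (α ⊕ Option α) α).val z} :=
    InQ.of_lintime (lintime_prefix _ _).compl
  -- the certificate
  let un : α ⊕ α → List α := fun c => match c with
    | Sum.inl a => [a]
    | Sum.inr a => [a]
  have hun : ∀ u v : List α, (u.map Sum.inl ++ v.map Sum.inr).flatMap un = u ++ v := by
    intro u v
    rw [List.flatMap_append, List.flatMap_map, List.flatMap_map]
    change (u.flatMap fun a => [a]) ++ (v.flatMap fun a => [a]) = u ++ v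
    rw [flatMap_single, flatMap_single]
    simp
  have h3 : InQ {z : List (α ⊕ Option α) | ∃ u v : List α, z = (u ++ v).map Sum.inl ++ Sum.inr none :: u.map (fun a => Sum.inr (some a)) ∧
      (u.map Sum.inl ++ v.map Sum.inr : List (α ⊕ α)) ∈ L} := by
    have g1 : InQ {w : List ((α ⊕ Option α) ⊕ (α ⊕ α)) | (MP.hom sL).val w =
      MP.val (((MP.hom sR).comp un).comp (fun a => [Sum.inl a]) ++ ([(fun _ => [], [Sum.inr none])] : MP _ _) ++
        ((MP.hom sR).comp sL).comp (fun a => [Sum.inr (some a)])) w} := inQ_eq _ _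
    have g2 : InQ {w : List ((α ⊕ Option α) ⊕ (α ⊕ α)) | (MP.hom sR).val w ∈ L} := hL.inv _
    have g3 : InQ {w : List ((α ⊕ Option α) ⊕ (α ⊕ α)) | (MP.hom sR).val w =
      MP.val (((MP.hom sR).comp sL).comp (fun a => [Sum.inl a]) ++ ((MP.hom sR).comp sR).comp (fun a => [Sum.inr a])) w} := inQ_eq _ _
    refine InQ.ex (γ := α ⊕ α) ((g1.inter g2).inter g3) 1 ?_ ?_
    · rintro z ⟨u, v, rfl, huv⟩
      refine ⟨u.map Sum.inl ++ v.map Sum.inr, by simp; omega, ⟨⟨?_, ?_⟩, ?_⟩⟩
      · show (MP.hom sL).val _ = MP.val _ _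
        rw [MP.append_val, MP.append_val, MP.comp_val, MP.comp_val, MP.comp_val, MP.comp_val, MP.hom_val, MP.hom_val,
          fm_sL, fm_sR, hun, fm_sL, flatMap_single, flatMap_single]
        simp [MP.val, fm_nil]
      · show (MP.hom sR).val _ ∈ L
        rw [MP.hom_val, fm_sR]
        exact huv
      · show (MP.hom sR).val _ = MP.val _ _
        rw [MP.append_val, MP.comp_val, MP.comp_val, MP.comp_val, MP.comp_val, MP.hom_val, fm_sR, fm_sL, fm_sR,
          flatMap_single, flatMap_single]
    · rintro z w ⟨⟨g1, g2⟩, g3⟩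
      change (MP.hom sL).val _ = MP.val _ _ at g1
      change (MP.hom sR).val _ ∈ L at g2
      change (MP.hom sR).val _ = MP.val _ _ at g3
      rw [MP.append_val, MP.comp_val, MP.comp_val, MP.comp_val, MP.comp_val, MP.hom_val, fm_sR,
        flatMap_single, flatMap_single] at g3
      rw [MP.append_val, MP.append_val, MP.comp_val, MP.comp_val, MP.comp_val, MP.comp_val, MP.hom_val, MP.hom_val,
        fm_sL, fm_sR, flatMap_single, flatMap_single] at g1
      rw [MP.hom_val, fm_sR, g3] at g2
      refine ⟨w.flatMap sL, w.flatMap sR, ?_, g2⟩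
      rw [g1]
      conv_lhs => rw [g3]
      rw [hun, fm_sL]
      simp [MP.val, fm_nil]
  have hD : InQ {z | D z} := by
    refine ((h1.or h2).or h3).congr fun z => ?_
    change D z ↔ ((MP.id.val z ≠ P1.val z ∨ ¬ (MP.hom pr).val z <+: (MP.hom sL).val z) ∨ _)
    rw [MP.id_val, hP1, MP.hom_val, MP.hom_val]
    constructor
    · intro hz
      by_cases e1 : z = (z.flatMap sL).map Sum.inl ++ Sum.inr none :: (z.flatMap pr).map fun a => Sum.inr (some a)
      · by_cases e2 : z.flatMap pr <+: z.flatMap sL
        · obtain ⟨v, hv⟩ := e2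
          refine Or.inr ⟨z.flatMap pr, v, by rw [hv]; exact e1, hz _ _ (by rw [hv]; exact e1)⟩
        · exact Or.inl (Or.inr e2)
      · exact Or.inl (Or.inl e1)
    · rintro h4 u v rfl
      rw [sL_db, pr_db] at h4
      rcases h4 with (h4 | h4) | ⟨u', v', e, h4⟩
      · exact absurd rfl h4
      · exact absurd (List.prefix_append u v) h4
      · obtain ⟨e1, e2⟩ := sharp_unique e
        have e3 : u = u' := List.map_injective_iff.2 (fun a b hab => by simpa using hab) e2
        subst e3
        rw [List.append_cancel_left e1]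
        exact h4
  refine ((h _ _ hD).inv (dbP α)).congr fun x => ?_
  change (∀ u v : List α, u ++ v = x → (u.map Sum.inl ++ v.map Sum.inr : List (α ⊕ α)) ∈ L) ↔
    ∀ z, z <+: (dbP α).val x → D z
  rw [dbP_val]
  constructor
  · rintro h4 z ⟨t, ht⟩ u v rfl
    rw [List.append_assoc, List.cons_append] at ht
    obtain ⟨e1, _⟩ := sharp_unique ht
    exact h4 u v e1
  · rintro h4 u v rfl
    refine h4 _ ⟨v.map fun a => Sum.inr (some a), ?_⟩ u v rfl
    simp

end Pool.Agent.Lin
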