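import Pool.Agent.Lib.MP_dee884_lc.Thin

/-!
# Tally languages
-/

set_option autoImplicit false

open Finset

namespace Pool.Agent.Lin

/-! ## Eventually periodic sets of lengths -/

theorem inQ_word {α : Type} [Finite α] (w : List α) : InQ {x : List α | x = w} := by
  refine (inQ_eq MP.id [(fun _ => [], w)]).congr fun x => ?_
  change x = w ↔ MP.id.val x = MP.val [(fun _ => [], w)] x
  have : MP.val [((fun _ => [], w) : (α → List α) × List α)] x = w := by
    simp only [MP.val, List.flatMap_cons, List.flatMap_nil, List.append_nil, fm_nil, List.nil_append]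
  rw [MP.id_val, this]

theorem inQ_length (m : ℕ) : InQ {a : List Unit | a.length = m} := by
  refine (inQ_word (List.replicate m ())).congr fun a => ?_
  change a.length = m ↔ a = List.replicate m ()
  constructor
  · intro h
    exact List.eq_replicate_iff.2 ⟨h, fun _ _ => rfl⟩
  · intro h
    rw [h, List.length_replicate]

theorem inQ_arith (m p : ℕ) (hp : 0 < p) : InQ {a : List Unit | ∃ j, a.length = m + p * j} := by
  have h1 : InQ {x : List Unit | ∃ y ∈ (Set.univ : Set (List Unit)), (y.flatMap fun _ => List.replicate p ()) = x} :=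
    inQ_univ.image _ fun _ h => by
      have := congrArg List.length h
      simp at this
      omega
  refine ((inQ_length m).concat h1).congr fun a => ?_
  constructor
  · rintro ⟨j, hj⟩
    refine ⟨List.replicate m (), List.length_replicate, List.replicate (p * j) (), ⟨List.replicate j (), Set.mem_univ _, ?_⟩, ?_⟩
    · refine List.eq_replicate_iff.2 ⟨?_, fun _ _ => rfl⟩
      rw [List.length_flatMap]
      simp [mul_comm]
    · refine List.ext_getElem (by simp [hj]) fun _ _ _ => rfl
  · rintro ⟨u, hu, v, ⟨y, _, rfl⟩, rfl⟩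
    refine ⟨y.length, ?_⟩
    change u.length = m at hu
    rw [List.length_append, hu, List.length_flatMap]
    simp [mul_comm]

theorem inQ_evper (P : ℕ → Prop) (N p : ℕ) (hp : 0 < p) (h : ∀ n ≥ N, (P (n + p) ↔ P n)) : InQ {a : List Unit | P a.length} := by
  have h1 : ∀ m : Fin N, InQ {a : List Unit | P m.1 ∧ a.length = m.1} := fun m => InQ.and (InQ.const _) (inQ_length _)
  have h2 : ∀ r : Fin p, InQ {a : List Unit | P (N + r.1) ∧ ∃ j, a.length = N + r.1 + p * j} :=
    fun r => InQ.and (InQ.const _) (inQ_arith _ p hp)
  have h3 : ∀ j n, n ≥ N → (P (n + p * j) ↔ P n) := by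
    intro j
    induction j with
    | zero => intro n _; simp
    | succ j ih =>
      intro n hn
      have e : n + p * (j + 1) = (n + p * j) + p := by ring
      rw [e, h _ (by omega), ih n hn]
  refine (InQ.or (InQ.exi h1) (InQ.exi h2)).congr fun a => ?_
  constructor
  · intro ha
    change P a.length at ha
    rcases Nat.lt_or_ge a.length N with hl | hl
    · exact Or.inl ⟨⟨a.length, hl⟩, ha, rfl⟩
    · have e : a.length = N + (a.length - N) % p + p * ((a.length - N) / p) := by
        have := Nat.mod_add_div (a.length - N) p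
        omega
      refine Or.inr ⟨⟨(a.length - N) % p, Nat.mod_lt _ hp⟩, ?_, _, e⟩
      rw [e] at ha
      exact (h3 _ _ (by omega)).1 ha
  · rintro (⟨m, hm, ha⟩ | ⟨r, hr, j, ha⟩)
    · show P a.length
      rw [ha]
      exact hm
    · show P a.length
      rw [ha]
      exact (h3 _ _ (by omega)).2 hr

/-! ## A tree with a given tally language -/

/-- `a*` and the words `a^n b c^j` with `1^(n + 1) ∈ T` -/
def treeT (T : Set (List Unit)) : Set (List (Fin 3)) :=
  {x | (∃ n, x = List.replicate n 0) ∨ ∃ n j, x = List.replicate n 0 ++ 1 :: List.replicate j 2 ∧ List.replicate (n + 1) () ∈ T}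

theorem treeT_prefix (T : Set (List Unit)) : PrefixClosed (treeT T) := by
  rintro x y (⟨n, hn⟩ | ⟨n, j, hn, hT⟩)
  · left
    have h : x <+: List.replicate n 0 := ⟨y, hn⟩
    exact ⟨x.length, List.eq_replicate_of_mem fun b hb => List.eq_of_mem_replicate (h.subset hb)⟩
  · rcases le_total x.length n with h | h
    · left
      have h1 : x <+: List.replicate n 0 ++ 1 :: List.replicate j 2 := ⟨y, hn⟩
      have h2 : x <+: List.replicate n 0 := List.prefix_of_prefix_length_le h1 (List.prefix_append _ _) (by simpa using h)
      exact ⟨x.length, List.eq_replicate_of_mem fun b hb => List.eq_of_mem_replicate (h2.subset hb)⟩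
    · have h1 : x = (List.replicate n (0 : Fin 3) ++ 1 :: List.replicate j 2).take x.length := by
        rw [← hn]
        simp
      rw [List.take_append, List.take_of_length_le (by simpa using h), List.length_replicate] at h1
      rcases h2 : x.length - n with _ | d
      · left
        rw [h2] at h1
        exact ⟨n, by simpa using h1⟩
      · right
        rw [h2] at h1
        refine ⟨n, min d j, ?_, hT⟩
        rw [h1]
        simp [List.take_replicate]

theorem treeT_leafless (T : Set (List Unit)) : Leafless (treeT T) := by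
  rintro x (⟨n, rfl⟩ | ⟨n, j, rfl, hT⟩)
  · exact ⟨0, Or.inl ⟨n + 1, by rw [List.replicate_succ']⟩⟩
  · exact ⟨2, Or.inr ⟨n, j + 1, by rw [List.replicate_succ']; simp, hT⟩⟩

theorem treeT_cens (T : Set (List Unit)) (n : ℕ) : cens (treeT T) (n + 1) ≤ cens (treeT T) n + 1 := by
  classical
  unfold cens
  have hfin : ∀ m, {x : List (Fin 3) | x ∈ treeT T ∧ x.length = m}.Finite := fun m =>
    (List.finite_length_eq (Fin 3) m).subset fun x hx => hx.2
  let f : List (Fin 3) → List (Fin 3) := fun x => if x = List.replicate n 0 then x ++ [0] else x ++ [2]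
  have h1 : {x : List (Fin 3) | x ∈ treeT T ∧ x.length = n + 1} ⊆
      insert (List.replicate n 0 ++ [1]) (f '' {x : List (Fin 3) | x ∈ treeT T ∧ x.length = n}) := by
    rintro x ⟨hx | hx, hl⟩
    · obtain ⟨m, rfl⟩ := hx
      rw [List.length_replicate] at hl
      subst hl
      right
      refine ⟨List.replicate n 0, ⟨Or.inl ⟨n, rfl⟩, List.length_replicate⟩, ?_⟩
      simp only [f, if_true]
      rw [List.replicate_succ']
    · obtain ⟨m, j, rfl, hT⟩ := hx
      rcases j with _ | j
      · left
        have : m = n := by simpa using hl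
        rw [this]
        rfl
      · right
        refine ⟨List.replicate m 0 ++ 1 :: List.replicate j 2, ⟨Or.inr ⟨m, j, rfl, hT⟩, ?_⟩, ?_⟩
        · simp at hl ⊢
          omega
        · have hne : List.replicate m (0 : Fin 3) ++ 1 :: List.replicate j 2 ≠ List.replicate n 0 := by
            intro h
            have h2 : (1 : Fin 3) ∈ List.replicate n (0 : Fin 3) := by
              rw [← h]
              simp
            have h3 := List.eq_of_mem_replicate h2
            exact absurd h3 (by decide)
          simp only [f, hne, if_false]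
          rw [List.replicate_succ' (n := j)]
          simp
  refine (Set.ncard_le_ncard h1 (((hfin n).image f).insert _)).trans ?_
  refine (Set.ncard_insert_le _ _).trans ?_
  exact Nat.add_le_add_right (Set.ncard_image_le (hfin n)) 1

/-- the letters `0` -/
def g0 : Fin 3 → List (Fin 3) := fun i => if i = 0 then [0] else []
/-- the letters `2` -/
def g2 : Fin 3 → List (Fin 3) := fun i => if i = 2 then [2] else []
/-- one for the letters `0` and `1` -/
def g01 : Fin 3 → List Unit := fun i => if i = 2 then [] else [()]

theorem fm_g0 (x : List (Fin 3)) : ∃ n, x.flatMap g0 = List.replicate n 0 := by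
  induction x with
  | nil => exact ⟨0, rfl⟩
  | cons a x ih =>
    obtain ⟨n, hn⟩ := ih
    by_cases h : a = 0
    · exact ⟨n + 1, by rw [List.flatMap_cons, hn, h]; rfl⟩
    · exact ⟨n, by rw [List.flatMap_cons, hn]; simp [g0, h]⟩

theorem fm_g2 (x : List (Fin 3)) : ∃ n, x.flatMap g2 = List.replicate n 2 := by
  induction x with
  | nil => exact ⟨0, rfl⟩
  | cons a x ih =>
    obtain ⟨n, hn⟩ := ih
    by_cases h : a = 2
    · exact ⟨n + 1, by rw [List.flatMap_cons, hn, h]; rfl⟩
    · exact ⟨n, by rw [List.flatMap_cons, hn]; simp [g2, h]⟩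

theorem fm_rep {α β : Type} (f : α → List β) (a : α) (b : β) (h : f a = [b]) (n : ℕ) :
    (List.replicate n a).flatMap f = List.replicate n b := by
  induction n with
  | zero => rfl
  | succ n ih => rw [List.replicate_succ, List.flatMap_cons, ih, h]; rfl

theorem fm_rep_nil {α β : Type} (f : α → List β) (a : α) (h : f a = []) (n : ℕ) :
    (List.replicate n a).flatMap f = [] := by
  induction n with
  | zero => rfl
  | succ n ih => rw [List.replicate_succ, List.flatMap_cons, ih, h]; rfl

theorem treeT_inQ {T : Set (List Unit)} (hT : InQ T) : InQ (treeT T) := by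
  have h1 : InQ {x : List (Fin 3) | MP.id.val x = (MP.hom g0).val x} := inQ_eq _ _
  have h2 : InQ {x : List (Fin 3) | MP.id.val x = MP.val [(g0, [1]), (g2, [])] x} := inQ_eq _ _
  have h3 : InQ {x : List (Fin 3) | (MP.hom g01).val x ∈ T} := hT.inv _
  refine (InQ.or h1 (InQ.and h2 h3)).congr fun x => ?_
  have e2 : MP.val [(g0, [1]), (g2, [])] x = x.flatMap g0 ++ 1 :: x.flatMap g2 := by
    simp [MP.val, List.flatMap_cons]
  change x ∈ treeT T ↔ MP.id.val x = (MP.hom g0).val x ∨ (MP.id.val x = MP.val [(g0, [1]), (g2, [])] x ∧ (MP.hom g01).val x ∈ T)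
  rw [MP.id_val, MP.hom_val, MP.hom_val, e2]
  constructor
  · rintro (⟨n, rfl⟩ | ⟨n, j, rfl, hx⟩)
    · left
      rw [fm_rep g0 0 0 rfl]
    · right
      rw [List.flatMap_append, List.flatMap_append, List.flatMap_append, List.flatMap_cons, List.flatMap_cons, List.flatMap_cons,
        fm_rep g0 0 0 rfl, fm_rep_nil g0 2 rfl, fm_rep_nil g2 0 rfl, fm_rep g2 2 2 rfl, fm_rep g01 0 () rfl,
        fm_rep_nil g01 2 rfl]
      refine ⟨by simp [g0, g2], ?_⟩
      have e3 : List.replicate n () ++ (g01 1 ++ []) = List.replicate (n + 1) () := by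
        rw [List.replicate_succ']
        simp [g01]
      rw [e3]
      exact hx
  · rintro (h | ⟨h, hx⟩)
    · left
      obtain ⟨n, hn⟩ := fm_g0 x
      exact ⟨n, by rw [h, hn]⟩
    · right
      obtain ⟨n, hn⟩ := fm_g0 x
      obtain ⟨j, hj⟩ := fm_g2 x
      rw [hn, hj] at h
      refine ⟨n, j, h, ?_⟩
      rw [h, List.flatMap_append, List.flatMap_cons, fm_rep g01 0 () rfl, fm_rep_nil g01 2 rfl] at hx
      have e3 : List.replicate n () ++ (g01 1 ++ []) = List.replicate (n + 1) () := by
        rw [List.replicate_succ']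
        simp [g01]
      rwa [e3] at hx

theorem treeT_back {T : Set (List Unit)} (h : InQ (treeT T)ᶜ) : InQ Tᶜ := by
  have h1 : InQ {x : List (Fin 3) | MP.id.val x = (MP.val [(g0, [1])]) x} := inQ_eq _ _
  have h2 := (h.inter h1).map fun _ => ()
  have h3 := InQ.and (InQ.const ([] ∈ Tᶜ)) (inQ_word ([] : List Unit))
  refine (h2.union h3).congr fun a => ?_
  have e1 : ∀ x : List (Fin 3), MP.val [(g0, [1])] x = x.flatMap g0 ++ [1] := by
    intro x
    simp [MP.val, List.flatMap_cons]
  have ha : a = List.replicate a.length () := List.eq_replicate_iff.2 ⟨rfl, fun _ _ => rfl⟩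
  constructor
  · intro hx
    rcases h4 : a.length with _ | n
    · right
      have h5 : a = [] := List.length_eq_zero_iff.1 h4
      exact ⟨by rw [← h5]; exact hx, h5⟩
    · left
      refine ⟨List.replicate n 0 ++ [1], ⟨?_, ?_⟩, ?_⟩
      · rintro (⟨m, hm⟩ | ⟨m, j, hm, hT⟩)
        · have h2 : (1 : Fin 3) ∈ List.replicate m (0 : Fin 3) := by
            rw [← hm]
            simp
          exact absurd (List.eq_of_mem_replicate h2) (by decide)
        · have h6 := congrArg (List.flatMap g0) hm
          rw [List.flatMap_append, List.flatMap_append, List.flatMap_cons, List.flatMap_cons, fm_rep g0 0 0 rfl,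
            fm_rep g0 0 0 rfl, fm_rep_nil g0 2 rfl] at h6
          have h7 := congrArg List.length h6
          simp [g0] at h7
          apply hx
          rw [ha, h4, h7]
          exact hT
      · change MP.id.val _ = MP.val [(g0, [1])] _
        rw [MP.id_val, e1, List.flatMap_append, fm_rep g0 0 0 rfl]
        simp [g0]
      · rw [ha, h4]
        refine List.ext_getElem (by simp) fun _ _ _ => rfl
  · rintro (⟨x, ⟨h4, h5⟩, rfl⟩ | ⟨h4, h5⟩)
    · change MP.id.val x = MP.val [(g0, [1])] x at h5
      rw [MP.id_val, e1] at h5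
      obtain ⟨n, hn⟩ := fm_g0 x
      rw [hn] at h5
      intro h6
      apply h4
      right
      refine ⟨n, 0, h5, ?_⟩
      have e : x.map (fun _ => ()) = List.replicate (n + 1) () := by
        rw [h5]
        refine List.ext_getElem (by simp) fun _ _ _ => rfl
      rw [← e]
      exact h6
    · have h5' : a = [] := h5
      rw [h5']
      exact h4

end Pool.Agent.Lin
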