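import Pool.Agent.Lib.MP_dee884_lc.Count

/-!
# Thin languages
-/

set_option autoImplicit false

open Finset

namespace Pool.Agent.Lin

/-- The number of words of length `n` in `L`. -/
noncomputable def cens {α : Type} (L : Set (List α)) (n : ℕ) : ℕ := Set.ncard {x : List α | x ∈ L ∧ x.length = n}

/-- `L` contains all prefixes of its words. -/
def PrefixClosed {α : Type} (L : Set (List α)) : Prop := ∀ x y : List α, x ++ y ∈ L → x ∈ L

/-- Every word of `L` can be extended by one letter to a word of `L`. -/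
def Leafless {α : Type} (L : Set (List α)) : Prop := ∀ x ∈ L, ∃ b : α, x ++ [b] ∈ L

variable {α : Type}

/-! ## One language -/

open Classical in
theorem ext_one [Fintype α] (L : Set (List α)) (s : List α) :
    (ext (fun _ : Unit => L) s).card = if s ∈ L then 1 else 0 := by
  unfold ext
  by_cases h : s ∈ L
  · simp [h]
  · simp [h]

theorem wt_one [Fintype α] (L : Set (List α)) (m : ℕ) : wt (fun _ : Unit => L) 0 m = cens L m := by
  classical
  unfold wt cens
  have h1 : {x : List α | x ∈ L ∧ x.length = m} = ((wrds α m).filter fun s => s ∈ L : Finset (List α)) := by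
    ext s
    simp only [Finset.coe_filter, mem_wrds]
    exact and_comm
  rw [h1, Set.ncard_coe_finset, Finset.card_filter]
  refine Finset.sum_congr rfl fun s _ => ?_
  rw [ext_one, Nat.sub_zero]

/-- Slender languages. -/
theorem slender [Finite α] (L : Set (List α)) (k : ℕ) (hL : InQ L) (hk : ∀ n, cens L n ≤ k)
    (hT : ∀ j, InQ {a : List Unit | cens L a.length ≤ j}) : InQ Lᶜ := by
  have := Fintype.ofFinite α
  have h := inQ_not_mem (L := fun _ : Unit => L) (fun _ => hL) 0 k (fun m => by rw [wt_one]; exact hk m)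
    (fun j => (hT j).congr fun a => by
      change wt (fun _ : Unit => L) 0 a.length ≤ j ↔ cens L a.length ≤ j
      rw [wt_one]) ()
  exact h.congr fun s => ⟨fun g => ⟨Nat.zero_le _, g⟩, fun g => g.2⟩

theorem slender_ge [Finite α] (L : Set (List α)) (k : ℕ) (hL : InQ L) (hk : ∀ n, cens L n ≤ k) (j : ℕ) :
    InQ {a : List Unit | j ≤ cens L a.length} := by
  have := Fintype.ofFinite α
  have h := inQ_wt_ge (L := fun _ : Unit => L) (fun _ => hL) 0 k (fun m => by rw [wt_one]; exact hk m) j
  exact h.congr fun a => by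
    change j ≤ cens L a.length ↔ j ≤ wt (fun _ : Unit => L) 0 a.length
    rw [wt_one]

/-! ## Trees -/

/-- the words `s` with `s b ∈ L` -/
def quot (L : Set (List α)) (b : α) : Set (List α) := {s | s ++ [b] ∈ L}

theorem inQ_quot [Finite α] {L : Set (List α)} (hL : InQ L) (b : α) : InQ (quot L b) := by
  refine (hL.inv [(fun a => [a], [b])]).congr fun s => ?_
  change s ++ [b] ∈ L ↔ MP.val [(fun a => [a], [b])] s ∈ L
  have : MP.val [(fun a => [a], [b])] s = s ++ [b] := by
    simp only [MP.val, List.flatMap_cons, List.flatMap_nil, List.append_nil]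
    rw [flatMap_single]
    simp
  rw [this]

theorem cens_succ [Fintype α] (L : Set (List α)) (m : ℕ) :
    cens L (m + 1) = ∑ s ∈ wrds α m, (ext (quot L) s).card := by
  classical
  unfold cens
  have h1 : {x : List α | x ∈ L ∧ x.length = m + 1} =
      (((wrds α m).sigma fun s => ext (quot L) s).image (fun p => p.1 ++ [p.2]) : Finset (List α)) := by
    ext x
    simp only [Finset.coe_image, Set.mem_image, Finset.mem_coe, Finset.mem_sigma, mem_wrds]
    constructor
    · rintro ⟨h1, h2⟩
      obtain ⟨s, b, rfl⟩ := List.eq_nil_or_concat' x |>.resolve_left (by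
        rintro rfl
        simp at h2)
      refine ⟨⟨s, b⟩, ⟨by simpa using h2, Finset.mem_filter.2 ⟨Finset.mem_univ _, h1⟩⟩, rfl⟩
    · rintro ⟨p, ⟨h1, h2⟩, rfl⟩
      exact ⟨(Finset.mem_filter.1 h2).2, by simp [h1]⟩
  rw [h1, Set.ncard_coe_finset, Finset.card_image_of_injOn, Finset.card_sigma]
  rintro ⟨s, b⟩ _ ⟨s', b'⟩ _ h
  have h2 := List.append_inj' h rfl
  obtain ⟨h3, h4⟩ := h2
  simp only [List.cons.injEq, and_true] at h4
  simp only at h3
  rw [h3, h4]

theorem mem_iff_deg [Fintype α] {L : Set (List α)} (h1 : PrefixClosed L) (h2 : Leafless L) (s : List α) :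
    s ∈ L ↔ 1 ≤ (ext (quot L) s).card := by
  classical
  rw [Nat.one_le_iff_ne_zero, Ne, Finset.card_eq_zero, ← Ne, ← Finset.nonempty_iff_ne_empty]
  constructor
  · intro h
    obtain ⟨b, hb⟩ := h2 s h
    exact ⟨b, Finset.mem_filter.2 ⟨Finset.mem_univ _, hb⟩⟩
  · rintro ⟨b, hb⟩
    exact h1 s [b] (Finset.mem_filter.1 hb).2

theorem cens_add_wt [Fintype α] {L : Set (List α)} (h1 : PrefixClosed L) (h2 : Leafless L) (m : ℕ) :
    cens L (m + 1) = cens L m + wt (quot L) 1 m := by
  classical
  rw [cens_succ]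
  have h3 : cens L m = ∑ s ∈ wrds α m, if s ∈ L then 1 else 0 := by
    have h := wt_one L m
    unfold wt at h
    rw [← h]
    refine Finset.sum_congr rfl fun s _ => ?_
    rw [ext_one, Nat.sub_zero]
  rw [h3]
  unfold wt
  rw [← Finset.sum_add_distrib]
  refine Finset.sum_congr rfl fun s _ => ?_
  by_cases h : s ∈ L
  · rw [if_pos h]
    have := (mem_iff_deg h1 h2 s).1 h
    omega
  · rw [if_neg h]
    have h4 : ¬ 1 ≤ (ext (quot L) s).card := fun h5 => h ((mem_iff_deg h1 h2 s).2 h5)
    omega

theorem exit_point {L : Set (List α)} (h0 : [] ∈ L) (x : List α) (hx : x ∉ L) :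
    ∃ (u : List α) (b : α) (v : List α), x = u ++ ([b] ++ v) ∧ u ∈ L ∧ u ++ [b] ∉ L := by
  induction x using List.reverseRecOn with
  | nil => exact absurd h0 hx
  | append_singleton y b ih =>
    by_cases hy : y ∈ L
    · exact ⟨y, b, [], by simp, hy, hx⟩
    · obtain ⟨u, c, v, h1, h2, h3⟩ := ih hy
      exact ⟨u, c, v ++ [b], by rw [h1]; simp, h2, h3⟩

/-- **Trees.** -/
theorem tree_compl [Finite α] (L : Set (List α)) (k : ℕ) (hL : InQ L) (h1 : PrefixClosed L) (h2 : Leafless L)
    (hk : ∀ n, cens L (n + 1) ≤ cens L n + k)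
    (hT : ∀ j, InQ {a : List Unit | cens L (a.length + 1) ≤ cens L a.length + j}) : InQ Lᶜ := by
  have := Fintype.ofFinite α
  by_cases h0 : [] ∈ L
  · have hU : ∀ b, InQ {s : List α | 1 ≤ (ext (quot L) s).card ∧ s ∉ quot L b} := by
      refine inQ_not_mem (L := quot L) (fun b => inQ_quot hL b) 1 k (fun m => ?_) (fun j => (hT j).congr fun a => ?_)
      · have h3 := cens_add_wt h1 h2 m
        have h4 := hk m
        omega
      · change wt (quot L) 1 a.length ≤ j ↔ cens L (a.length + 1) ≤ cens L a.length + j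
        rw [cens_add_wt h1 h2]
        omega
    have hb : ∀ b : α, InQ {x : List α | ∃ u ∈ {s : List α | 1 ≤ (ext (quot L) s).card ∧ s ∉ quot L b},
        ∃ v ∈ {x : List α | ∃ u ∈ {x : List α | MP.val MP.id x = MP.val [(fun _ => [], [b])] x}, ∃ v ∈ (Set.univ : Set (List α)), u ++ v = x},
          u ++ v = x} :=
      fun b => (hU b).concat ((inQ_eq _ _).concat inQ_univ)
    refine (InQ.iUnion _ hb).congr fun x => ?_
    rw [Set.mem_iUnion]
    constructor
    · intro hx
      obtain ⟨u, b, v, rfl, hu, hub⟩ := exit_point h0 x hx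
      refine ⟨b, u, ⟨(mem_iff_deg h1 h2 u).1 hu, hub⟩, [b] ++ v, ⟨[b], ?_, v, Set.mem_univ _, rfl⟩, rfl⟩
      change MP.val MP.id [b] = MP.val [(fun _ => [], [b])] [b]
      rw [MP.id_val]
      rfl
    · rintro ⟨b, u, ⟨_, hu⟩, _, ⟨c, hc, v, _, rfl⟩, rfl⟩
      change MP.val MP.id c = MP.val [(fun _ => [], [b])] c at hc
      have hc2 : MP.val [((fun _ => [], [b]) : (α → List α) × List α)] c = [b] := by
        simp only [MP.val, List.flatMap_cons, List.flatMap_nil, List.append_nil, fm_nil, List.nil_append]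
      rw [MP.id_val, hc2] at hc
      subst hc
      intro h
      rw [← List.append_assoc] at h
      exact hu (h1 _ _ h)
  · have hE : L = ∅ := by
      ext x
      simp only [Set.mem_empty_iff_false, iff_false]
      intro hx
      exact h0 (h1 [] x hx)
    rw [hE, Set.compl_empty]
    exact inQ_univ

theorem tree_ge [Finite α] (L : Set (List α)) (k : ℕ) (hL : InQ L) (h1 : PrefixClosed L) (h2 : Leafless L)
    (hk : ∀ n, cens L (n + 1) ≤ cens L n + k) (j : ℕ) :
    InQ {a : List Unit | cens L a.length + j ≤ cens L (a.length + 1)} := by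
  have := Fintype.ofFinite α
  have h := inQ_wt_ge (L := quot L) (fun b => inQ_quot hL b) 1 k (fun m => by
    have h3 := cens_add_wt h1 h2 m
    have h4 := hk m
    omega) j
  exact h.congr fun a => by
    change cens L a.length + j ≤ cens L (a.length + 1) ↔ j ≤ wt (quot L) 1 a.length
    rw [cens_add_wt h1 h2]
    omega

end Pool.Agent.Lin
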