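import Pool.Agent.Lib.MP_dee884_lc.QC

/-!
# Certificates by counting
-/

set_option autoImplicit false

open Finset

namespace Pool.Agent.Lin

variable {α β : Type}

/-! ## Some languages in `Q` -/

theorem inQ_eq [Finite α] [Finite β] (f g : MP α β) : InQ {x : List α | f.val x = g.val x} :=
  InQ.of_lintime (lintime_eq f g)

theorem inQ_ne [Finite α] [Finite β] (f g : MP α β) : InQ {x : List α | f.val x ≠ g.val x} :=
  InQ.of_lintime (lintime_eq f g).compl

theorem inQ_univ [Finite α] : InQ (Set.univ : Set (List α)) := by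
  have h := (InQ.iInter (ι := Empty) (fun _ => (Set.univ : Set (List α))) (fun i => i.elim))
  simpa using h

theorem inQ_empty [Finite α] : InQ (∅ : Set (List α)) := by
  have h := (InQ.iUnion (ι := Empty) (fun _ => (Set.univ : Set (List α))) (fun i => i.elim))
  simpa using h

theorem InQ.congr {X Y : Set (List α)} (h : InQ X) (e : ∀ x, x ∈ Y ↔ x ∈ X) : InQ Y := by
  have : Y = X := Set.ext e
  rwa [this]

/-- inverse images under letter maps -/
theorem InQ.comap [Finite α] [Finite β] {X : Set (List α)} (h : InQ X) (f : β → α) : InQ {x : List β | x.map f ∈ X} := by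
  refine (h.inv (MP.hom fun b => [f b])).congr fun x => ?_
  change x.map f ∈ X ↔ (MP.hom fun b => [f b]).val x ∈ X
  rw [MP.hom_val, flatMap_single]

/-- tracks which are different -/
theorem inQ_track_ne [Finite α] [Finite β] (f g : β → α) : InQ {x : List β | x.map f ≠ x.map g} := by
  refine (inQ_ne (MP.hom fun b => [f b]) (MP.hom fun b => [g b])).congr fun x => ?_
  change x.map f ≠ x.map g ↔ (MP.hom fun b => [f b]).val x ≠ (MP.hom fun b => [g b]).val x
  rw [MP.hom_val, MP.hom_val, flatMap_single, flatMap_single]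

theorem inQ_track_eq [Finite α] [Finite β] (f g : β → α) : InQ {x : List β | x.map f = x.map g} := by
  refine (inQ_eq (MP.hom fun b => [f b]) (MP.hom fun b => [g b])).congr fun x => ?_
  change x.map f = x.map g ↔ (MP.hom fun b => [f b]).val x = (MP.hom fun b => [g b]).val x
  rw [MP.hom_val, MP.hom_val, flatMap_single, flatMap_single]

theorem InQ.and [Finite α] {p q : List α → Prop} (h : InQ {x | p x}) (h' : InQ {x | q x}) : InQ {x | p x ∧ q x} :=
  h.inter h'

theorem InQ.or [Finite α] {p q : List α → Prop} (h : InQ {x | p x}) (h' : InQ {x | q x}) : InQ {x | p x ∨ q x} :=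
  h.union h'

theorem InQ.all [Finite α] {ι : Type} [Finite ι] {p : ι → List α → Prop} (h : ∀ i, InQ {x | p i x}) :
    InQ {x | ∀ i, p i x} :=
  (InQ.iInter _ h).congr fun x => by simp

theorem InQ.exi [Finite α] {ι : Type} [Finite ι] {p : ι → List α → Prop} (h : ∀ i, InQ {x | p i x}) :
    InQ {x | ∃ i, p i x} :=
  (InQ.iUnion _ h).congr fun x => by simp

theorem InQ.const [Finite α] (c : Prop) : InQ {_x : List α | c} := by
  by_cases h : c
  · exact inQ_univ.congr fun x => by simp [h]
  · exact inQ_empty.congr fun x => by simp [h]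

/-- Concatenation. -/
theorem InQ.concat [Finite α] {X Y : Set (List α)} (hX : InQ X) (hY : InQ Y) :
    InQ {x | ∃ u ∈ X, ∃ v ∈ Y, u ++ v = x} := by
  -- certificate: `u.map inl ++ v.map inr`
  let un : α ⊕ α → List α := fun c => match c with
    | Sum.inl a => [a]
    | Sum.inr a => [a]
  have hun : ∀ u v : List α, (u.map Sum.inl ++ v.map Sum.inr).flatMap un = u ++ v := by
    intro u v
    rw [List.flatMap_append, List.flatMap_map, List.flatMap_map]
    change (u.flatMap fun a => [a]) ++ (v.flatMap fun a => [a]) = u ++ v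
    rw [flatMap_single, flatMap_single]
    simp
  have h1 : InQ {z : List (α ⊕ (α ⊕ α)) | ((MP.hom sL : MP (α ⊕ (α ⊕ α)) α)).val z = ((MP.hom sR).comp un).val z} := inQ_eq _ _
  have h2 : InQ {z : List (α ⊕ (α ⊕ α)) | ((MP.hom sR).comp sL).val z ∈ X} := hX.inv _
  have h3 : InQ {z : List (α ⊕ (α ⊕ α)) | ((MP.hom sR).comp sR).val z ∈ Y} := hY.inv _
  have h4 : InQ {z : List (α ⊕ (α ⊕ α)) | (MP.hom sR).val z =
      MP.val (((MP.hom sR).comp sL).comp (fun a => [Sum.inl a]) ++ ((MP.hom sR).comp sR).comp (fun a => [Sum.inr a])) z} := inQ_eq _ _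
  refine InQ.ex (γ := α ⊕ α) (((h1.inter h2).inter h3).inter h4) 1 ?_ ?_
  · rintro x ⟨u, hu, v, hv, rfl⟩
    refine ⟨u.map Sum.inl ++ v.map Sum.inr, by simp, ⟨⟨⟨?_, ?_⟩, ?_⟩, ?_⟩⟩
    · show (MP.hom sL).val _ = ((MP.hom sR).comp un).val _
      rw [MP.comp_val, MP.hom_val, MP.hom_val, fm_sL, fm_sR, hun]
    · show ((MP.hom sR).comp sL).val _ ∈ X
      rw [MP.comp_val, MP.hom_val, fm_sR, fm_sL]
      exact hu
    · show ((MP.hom sR).comp sR).val _ ∈ Y
      rw [MP.comp_val, MP.hom_val, fm_sR, fm_sR]
      exact hv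
    · show (MP.hom sR).val _ = MP.val _ _
      rw [MP.append_val, MP.comp_val, MP.comp_val, MP.comp_val, MP.comp_val, MP.hom_val, fm_sR, fm_sL, fm_sR,
        flatMap_single, flatMap_single]
  · rintro x w ⟨⟨⟨g1, g2⟩, g3⟩, g4⟩
    change (MP.hom sL).val _ = ((MP.hom sR).comp un).val _ at g1
    change ((MP.hom sR).comp sL).val _ ∈ X at g2
    change ((MP.hom sR).comp sR).val _ ∈ Y at g3
    change (MP.hom sR).val _ = MP.val _ _ at g4
    rw [MP.comp_val, MP.hom_val, MP.hom_val, fm_sL, fm_sR] at g1
    rw [MP.comp_val, MP.hom_val, fm_sR] at g2 g3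
    rw [MP.append_val, MP.comp_val, MP.comp_val, MP.comp_val, MP.comp_val, MP.hom_val, fm_sR,
      flatMap_single, flatMap_single] at g4
    refine ⟨w.flatMap sL, g2, w.flatMap sR, g3, ?_⟩
    rw [g1]
    conv_rhs => rw [g4]
    rw [hun]

/-! ## Weights -/

section weight

variable [Fintype α] [Fintype β] (L : β → Set (List α)) (c : ℕ)

open Classical in
/-- the indices of the languages which contain `s` -/
noncomputable def ext (s : List α) : Finset β := univ.filter fun b => s ∈ L b

open Classical in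
/-- the words of length `m` -/
noncomputable def wrds (α : Type) [Fintype α] (m : ℕ) : Finset (List α) := (List.finite_length_eq α m).toFinset

theorem mem_wrds (m : ℕ) (s : List α) : s ∈ wrds α m ↔ s.length = m := by
  simp [wrds]

/-- the weight of the length `m` -/
noncomputable def wt (m : ℕ) : ℕ := ∑ s ∈ wrds α m, ((ext L s).card - c)

/-- words with tracks `s i`, which are pairwise different, with `s i ∈ L b` for `b ∈ S i` -/
def DS {r : ℕ} (S : Fin r → Finset β) (w : List (Fin r → α)) : Prop :=
  (∀ i, ∀ b ∈ S i, w.map (fun a => a i) ∈ L b) ∧ ∀ i j, i ≠ j → w.map (fun a => a i) ≠ w.map (fun a => a j)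

/-- the weight of a list is at most the weight of the length -/
theorem DS_le {r : ℕ} {S : Fin r → Finset β} {w : List (Fin r → α)} (h : DS L S w) :
    ∑ i, ((S i).card - c) ≤ ∑ i, ((ext L (w.map fun a => a i)).card - c) ∧
    ∑ i, ((ext L (w.map fun a => a i)).card - c) ≤ wt L c w.length := by
  classical
  constructor
  · refine Finset.sum_le_sum fun i _ => Nat.sub_le_sub_right (Finset.card_le_card fun b hb => ?_) c
    exact Finset.mem_filter.2 ⟨Finset.mem_univ _, h.1 i b hb⟩
  · have hinj : Function.Injective fun i => w.map (fun a : Fin r → α => a i) := by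
      intro i j hij
      by_contra hne
      exact h.2 i j hne hij
    have e : ∑ i, ((ext L (w.map fun a => a i)).card - c) =
        ∑ s ∈ univ.image (fun i => w.map (fun a : Fin r → α => a i)), ((ext L s).card - c) := by
      rw [Finset.sum_image]
      intro i _ j _ hij
      exact hinj hij
    rw [e]
    refine Finset.sum_le_sum_of_subset fun s hs => ?_
    obtain ⟨i, _, rfl⟩ := Finset.mem_image.1 hs
    rw [mem_wrds, List.length_map]

/-- the complete list -/
theorem DS_full (m : ℕ) : ∃ (r : ℕ) (S : Fin r → Finset β) (w : List (Fin r → α)), DS L S w ∧ w.length = m ∧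
    r ≤ wt L c m ∧ (∀ i, c + 1 ≤ (S i).card) ∧ ∑ i, ((S i).card - c) = wt L c m ∧
    (∀ i, S i = ext L (w.map fun a => a i)) ∧
    ∀ s : List α, s.length = m → c + 1 ≤ (ext L s).card → ∃ i, s = w.map fun a => a i := by
  classical
  let B : Finset (List α) := (wrds α m).filter fun s => c + 1 ≤ (ext L s).card
  let e := B.equivFin
  let sv : Fin B.card → List α := fun i => (e.symm i).1
  have hsv : ∀ i, (sv i).length = m ∧ c + 1 ≤ (ext L (sv i)).card := by
    intro i
    have h := Finset.mem_filter.1 (e.symm i).2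
    exact ⟨(mem_wrds m _).1 h.1, h.2⟩
  let w : List (Fin B.card → α) := List.ofFn fun j : Fin m => fun i => (sv i)[j.1]'(by rw [(hsv i).1]; exact j.2)
  have hw : ∀ i, w.map (fun a => a i) = sv i := by
    intro i
    refine List.ext_getElem (by simp [w, (hsv i).1]) fun j h1 h2 => ?_
    simp [w]
  have hwl : w.length = m := by simp [w]
  have hwt : ∑ i, ((ext L (sv i)).card - c) = wt L c m := by
    have h1 : ∑ i, ((ext L (sv i)).card - c) = ∑ s ∈ B, ((ext L s).card - c) := by
      rw [← Finset.sum_coe_sort B fun s => (ext L s).card - c]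
      exact Fintype.sum_equiv e.symm _ _ fun i => rfl
    rw [h1]
    unfold wt
    refine Finset.sum_subset (Finset.filter_subset _ _) fun s hs hs2 => ?_
    have h2 : ¬ c + 1 ≤ (ext L s).card := fun h => hs2 (Finset.mem_filter.2 ⟨hs, h⟩)
    omega
  refine ⟨B.card, fun i => ext L (sv i), w, ⟨fun i b hb => ?_, fun i j hij => ?_⟩, hwl, ?_, fun i => (hsv i).2, hwt, fun i => ?_, fun s hs hc => ?_⟩
  · rw [hw]
    exact (Finset.mem_filter.1 hb).2
  · rw [hw, hw]
    intro h
    exact hij (e.symm.injective (Subtype.ext h))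
  · rw [← hwt]
    have h1 : ∑ _i : Fin B.card, 1 ≤ ∑ i, ((ext L (sv i)).card - c) :=
      Finset.sum_le_sum fun i _ => by have := (hsv i).2; omega
    simpa using h1
  · rw [hw]
  · refine ⟨e ⟨s, Finset.mem_filter.2 ⟨(mem_wrds m s).2 hs, hc⟩⟩, ?_⟩
    rw [hw]
    simp [sv]

end weight

end Pool.Agent.Lin
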